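import Mathlib

/-!
# The model: labelled graphs, congruence closure, equational derivations

These are all the definitions used in the statement of the hand-in `EquationalComplexity`.
-/

namespace Pool.Agent.EQ

/-- A directed graph with labelled vertices; `out v` is the ordered list of the heads of the edges
leaving `v` (so `(out v).length` is the outdegree; repetitions are parallel edges). -/
structure LGraph (V L : Type*) where
  lab : V → L
  out : V → List V

variable {V L : Type*}

/-- `u` and `v` are congruent under `R`. -/
def LGraph.Congr (G : LGraph V L) (R : V → V → Prop) (u v : V) : Prop :=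
  G.lab u = G.lab v ∧ List.Forall₂ R (G.out u) (G.out v)

/-- `u` and `v` are equal in the congruence closure of the relation generated by the pairs `E`:
they are related by every equivalence relation that contains `E` and is closed under
congruences. -/
def LGraph.Closure (G : LGraph V L) (E : List (V × V)) (u v : V) : Prop :=
  ∀ R : V → V → Prop, Equivalence R → (∀ p ∈ E, R p.1 p.2) →
    (∀ x y, G.Congr R x y → R x y) → R u v

/-- The equation `u = v` is available from the list `D` of equations: it is trivial, or it or its
mirror image is in the list. -/
def Avail (D : List (V × V)) (u v : V) : Prop := u = v ∨ (u, v) ∈ D ∨ (v, u) ∈ D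

/-- `G.Der E D c`: the list `D` of equations between vertices of `G` (newest first) is a
derivation of total cost `c` from the input pairs `E`.  Every line is an input pair (cost `1`), or
follows by transitivity from two available equations (cost `1`), or joins two vertices with the
same label and the same outdegree whose successors are pairwise equal by available equations (cost
`1` plus the outdegree). -/
inductive LGraph.Der (G : LGraph V L) (E : List (V × V)) : List (V × V) → ℕ → Prop
  | nil : G.Der E [] 0
  | hyp {D : List (V × V)} {c : ℕ} {u v : V} : G.Der E D c → (u, v) ∈ E →
      G.Der E ((u, v) :: D) (c + 1)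
  | trans {D : List (V × V)} {c : ℕ} {u v w : V} : G.Der E D c → Avail D u w → Avail D w v →
      G.Der E ((u, v) :: D) (c + 1)
  | cong {D : List (V × V)} {c : ℕ} {u v : V} : G.Der E D c → G.Congr (Avail D) u v →
      G.Der E ((u, v) :: D) (c + 1 + (G.out u).length)

/-- `G'` extends `G` by new vertices `W`: the old vertices keep their labels and out-lists; labels
and out-lists of the new vertices are arbitrary. -/
def Extends {W : Type*} (G : LGraph V L) (G' : LGraph (V ⊕ W) L) : Prop :=
  ∀ v, G'.lab (.inl v) = G.lab v ∧ G'.out (.inl v) = (G.out v).map .inl

/-- the input pairs as pairs of vertices of an extension -/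
def liftE (W : Type*) (E : List (V × V)) : List ((V ⊕ W) × (V ⊕ W)) :=
  E.map fun p => (.inl p.1, .inl p.2)

/-- number of vertices plus number of edges plus number of input pairs -/
def size [Fintype V] (G : LGraph V L) (E : List (V × V)) : ℕ :=
  Fintype.card V + ∑ v, (G.out v).length + E.length

theorem exists_ack (N : ℕ) : ∃ a, N ≤ ack a a := ⟨N, (lt_ack_left N N).le⟩

/-- the inverse Ackermann function: the least `a` with `N ≤ ack a a` -/
def alpha (N : ℕ) : ℕ := Nat.find (exists_ack N)

end Pool.Agent.EQ
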