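import Pool.Agent.Work.MP_7a8e14_lc.EQ.Count
import Pool.Agent.Work.MP_7a8e14_lc.EQ.Model

/-!
# Comparison with the Ackermann function
-/

namespace Pool.Agent.EQ

theorem ack_double {m : ℕ} (hm : 3 ≤ m) (n : ℕ) : 2 * ack m n ≤ ack m (n + 1) := by
  obtain ⟨m', rfl⟩ : ∃ m', m = m' + 1 := ⟨m - 1, by omega⟩
  rw [ack_succ_succ]
  have h1 : ack 2 (ack (m' + 1) n) ≤ ack m' (ack (m' + 1) n) := ack_mono_left _ (by omega)
  rw [ack_two] at h1
  omega

theorem ack_pow {m : ℕ} (hm : 3 ≤ m) (n x : ℕ) : 2 ^ x * ack m n ≤ ack m (n + x) := by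
  induction x with
  | zero => simp
  | succ x ih =>
    calc 2 ^ (x + 1) * ack m n = 2 * (2 ^ x * ack m n) := by ring
      _ ≤ 2 * ack m (n + x) := Nat.mul_le_mul_left 2 ih
      _ ≤ ack m (n + x + 1) := ack_double hm _
      _ = ack m (n + (x + 1)) := by rw [add_assoc]

theorem Dp_ack (k : ℕ) : ∀ s, 2 * 2 ^ Dp k s + 1 ≤ ack (k + 2) (s + 1) := by
  induction k with
  | zero =>
    intro s
    rw [Dp_zero, zero_add, ack_two]
    omega
  | succ k ih =>
    intro s
    induction s with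
    | zero =>
      rw [Dp_succ_zero, zero_add]
      have h1 : ack 3 1 ≤ ack (k + 1 + 2) 1 := ack_mono_left _ (by omega)
      rw [ack_three] at h1
      norm_num at h1 ⊢
      omega
    | succ s ihs =>
      rw [Dp_succ_succ, pow_add]
      set x := 2 ^ Dp (k + 1) s with hx
      have hx1 : 1 ≤ x := Nat.one_le_two_pow
      have h1 := ih x
      set A := 2 ^ Dp k x with hA
      have h2 : ack (k + 1 + 2) (s + 1 + 1) = ack (k + 2) (ack (k + 1 + 2) (s + 1)) :=
        ack_succ_succ (k + 2) (s + 1)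
      have h3 : ack (k + 2) (2 * x + 1) ≤ ack (k + 1 + 2) (s + 1 + 1) := by
        rw [h2]
        exact ack_mono_right _ ihs
      refine le_trans ?_ h3
      rcases Nat.eq_zero_or_pos k with rfl | hk
      · have hA2 : A = 2 := by rw [hA, Dp_zero]; norm_num
        rw [hA2, zero_add, ack_two]
        omega
      · have h4 := ack_pow (by omega : 3 ≤ k + 2) (x + 1) x
        rw [show x + 1 + x = 2 * x + 1 by ring] at h4
        have h5 : x + 1 ≤ 2 ^ x := Nat.lt_two_pow_self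
        calc 2 * (x * A) + 1 ≤ x * (2 * A + 1) := by nlinarith
          _ ≤ x * ack (k + 2) (x + 1) := Nat.mul_le_mul_left _ h1
          _ ≤ 2 ^ x * ack (k + 2) (x + 1) := Nat.mul_le_mul_right _ (by omega)
          _ ≤ _ := h4

theorem alpha_le {N a : ℕ} (h : N ≤ ack a a) : alpha N ≤ a := Nat.find_min' _ h

theorem Dp_mono_s (k s : ℕ) : Dp k s ≤ Dp k (s + 1) := by
  cases k with
  | zero => rw [Dp_zero, Dp_zero]
  | succ k => rw [Dp_succ_succ]; omega

theorem lt_Dp (k : ℕ) : k < Dp k 1 := by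
  induction k with
  | zero => rw [Dp_zero]; omega
  | succ k ih =>
    rw [Dp_succ_succ, Dp_succ_zero]
    have := Dp_mono_s k 1
    norm_num at this ⊢
    omega

/-- the choice of the parameters -/
theorem choose_par {N : ℕ} (hN : 64 ≤ N) : ∃ k Dd, 1 ≤ k ∧ Dp k 1 ≤ Dd ∧ 16 * 2 ^ Dd ≤ N ∧
    N * alpha N ≤ 192 * (k * 2 ^ Dd) := by
  classical
  have hex : ∃ k, N < 16 * 2 ^ Dp k 1 := by
    refine ⟨N, ?_⟩
    have h1 : N < 2 ^ N := Nat.lt_two_pow_self
    have h2 : 2 ^ N ≤ 2 ^ Dp N 1 := Nat.pow_le_pow_right (by omega) (lt_Dp N).le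
    omega
  have h1 := Nat.find_spec hex
  have h2 : 2 ≤ Nat.find hex := by
    by_contra h
    have h3 : Dp (Nat.find hex) 1 ≤ 2 := by
      have : Nat.find hex = 0 ∨ Nat.find hex = 1 := by omega
      rcases this with h4 | h4 <;> rw [h4]
      · rw [Dp_zero]; omega
      · rw [Dp_succ_succ, Dp_succ_zero, Dp_zero]
    have h4 : 2 ^ Dp (Nat.find hex) 1 ≤ 2 ^ 2 := Nat.pow_le_pow_right (by omega) h3
    omega
  obtain ⟨k, hk⟩ : ∃ k, Nat.find hex = k + 1 := ⟨Nat.find hex - 1, by omega⟩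
  rw [hk] at h1 h2
  have h3 : 16 * 2 ^ Dp k 1 ≤ N := by
    have := Nat.find_min hex (m := k) (by omega)
    omega
  have hq : N / 16 ≠ 0 := by omega
  refine ⟨k, Nat.log 2 (N / 16), by omega, ?_, ?_, ?_⟩
  · rw [Nat.le_log_iff_pow_le (by omega) hq]
    omega
  · have := Nat.pow_log_le_self 2 hq
    omega
  · have h4 := Nat.lt_pow_succ_log_self (b := 2) (by omega) (N / 16)
    rw [pow_succ] at h4
    set P := 2 ^ Nat.log 2 (N / 16)
    have h5 : N ≤ 32 * P := by omega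
    have h6 : 2 * 2 ^ Dp (k + 1) 1 + 1 ≤ ack (k + 1 + 2) 2 := Dp_ack (k + 1) 1
    have h7 : alpha N ≤ k + 5 := by
      apply alpha_le
      have h8 := ack_pow (by omega : 3 ≤ k + 1 + 2) 2 3
      have h9 : ack (k + 1 + 2) (2 + 3) ≤ ack (k + 5) (k + 5) :=
        ack_le_ack (by omega) (by omega)
      rw [show (2 : ℕ) ^ 3 = 8 from rfl] at h8
      generalize ack (k + 1 + 2) 2 = A at h6 h8
      generalize ack (k + 1 + 2) (2 + 3) = B at h8 h9
      omega
    have h8 : 1 ≤ k := by omega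
    calc N * alpha N ≤ (32 * P) * (k + 5) := Nat.mul_le_mul h5 h7
      _ ≤ (32 * P) * (6 * k) := Nat.mul_le_mul_left _ (by omega)
      _ = 192 * (k * P) := by ring

end Pool.Agent.EQ
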