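import Pool.Agent.Work.MP_7a8e14_lc.EQ.Defs

/-!
# New vertices do not help: conversion of derivations in an extension of the graph
-/

open List

namespace Pool.Agent.EQ

variable {V L W : Type*}

theorem Avail.mono_list {D D' : List (V × V)} (hD : ∀ p ∈ D, p ∈ D') {u v : V}
    (h : Avail D u v) : Avail D' u v := by
  rcases h with h | h | h
  · exact Or.inl h
  · exact Or.inr (Or.inl (hD _ h))
  · exact Or.inr (Or.inr (hD _ h))

/-- adding transitivity lines -/
theorem add_trans {G : LGraph V L} {E D : List (V × V)} {c : ℕ} (h : G.Der E D c) {xs zs : List V}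
    (hx : Forall₂ (fun x z => ∃ y, Avail D x y ∧ Avail D y z) xs zs) :
    ∃ D', G.Der E D' (c + xs.length) ∧ (∀ p ∈ D, p ∈ D') ∧ Forall₂ (Avail D') xs zs := by
  induction hx with
  | nil => exact ⟨D, h, fun _ h => h, .nil⟩
  | @cons x z xs zs h1 _ ih =>
    obtain ⟨D', hD', hsub, hF⟩ := ih
    obtain ⟨y, hy1, hy2⟩ := h1
    refine ⟨(x, z) :: D', ?_, fun p hp => mem_cons_of_mem _ (hsub p hp),
      .cons (Or.inr (Or.inl mem_cons_self)) (hF.imp fun _ _ h => h.cons _)⟩
    have := hD'.trans (hy1.mono_list hsub) (hy2.mono_list hsub)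
    rwa [show c + xs.length + 1 = c + (x :: xs).length by simp; ring] at this

/-- the extension of a partial map on new vertices -/
def ext (π : W → Option V) : V ⊕ W → Option V := Sum.elim some π

/-- the invariant -/
structure Inv [Fintype W] (G : LGraph V L) (E : List (V × V)) (G' : LGraph (V ⊕ W) L)
    (D : List ((V ⊕ W) × (V ⊕ W))) (DV : List (V × V)) (π : W → Option V) (c cv : ℕ) :
    Prop where
  der : G.Der E DV cv
  b1 : ∀ s s', (s, s') ∈ D → ∀ u u', ext π s = some u → ext π s' = some u' → Avail DV u u'
  jus : ∀ w u, π w = some u → G'.lab (.inr w) = G.lab u ∧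
    Forall₂ (fun a b => ∃ x, ext π a = some x ∧ Avail DV x b) (G'.out (.inr w)) (G.out u)
  d : cv + ∑ w, (if π w = none then (G'.out (.inr w)).length else 0) ≤
    3 * c + ∑ w, (G'.out (.inr w)).length

/-- no line with exactly one end defined -/
def Pure (D : List ((V ⊕ W) × (V ⊕ W))) (π : W → Option V) : Prop :=
  ∀ s s', (s, s') ∈ D → (ext π s = none ↔ ext π s' = none)

theorem Pure.avail {D : List ((V ⊕ W) × (V ⊕ W))} {π : W → Option V} (h : Pure D π) {s s' : V ⊕ W}
    (ha : Avail D s s') : ext π s = none ↔ ext π s' = none := by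
  rcases ha with rfl | ha | ha
  · exact Iff.rfl
  · exact h _ _ ha
  · exact (h _ _ ha).symm

section

variable [Fintype W] {G : LGraph V L} {E : List (V × V)} {G' : LGraph (V ⊕ W) L}
  {D : List ((V ⊕ W) × (V ⊕ W))} {DV : List (V × V)} {π : W → Option V} {c cv : ℕ}

/-- every defined vertex is congruent to its value by available lines -/
theorem Inv.jus' (h : Inv G E G' D DV π c cv) (hext : Extends G G') {x : V ⊕ W} {u : V}
    (hx : ext π x = some u) : G'.lab x = G.lab u ∧
      Forall₂ (fun a b => ∃ y, ext π a = some y ∧ Avail DV y b) (G'.out x) (G.out u) := by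
  rcases x with v | w
  · obtain rfl : v = u := Option.some.inj hx
    refine ⟨(hext v).1, ?_⟩
    rw [(hext v).2, forall₂_map_left_iff, forall₂_same]
    exact fun b _ => ⟨b, rfl, Or.inl rfl⟩
  · exact h.jus w u hx

theorem Inv.avail (h : Inv G E G' D DV π c cv) {s s' : V ⊕ W} (ha : Avail D s s') {u u' : V}
    (hu : ext π s = some u) (hu' : ext π s' = some u') : Avail DV u u' := by
  rcases ha with rfl | ha | ha
  · exact Or.inl (Option.some.inj (hu.symm.trans hu'))
  · exact h.b1 _ _ ha _ _ hu hu'
  · exact (h.b1 _ _ ha _ _ hu' hu).symm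

/-- if `x` has the value `u` and `y` is congruent to `x` by pure lines, the successors of `y` have
values that are joined to the successors of `u` by two available lines -/
theorem Inv.succ (h : Inv G E G' D DV π c cv) (hext : Extends G G') {D2 : List ((V ⊕ W) × (V ⊕ W))}
    (hsub : ∀ p ∈ D2, p ∈ D) (hpure : Pure D2 π) {x y : V ⊕ W} {u : V} (hx : ext π x = some u)
    (hxy : Forall₂ (Avail D2) (G'.out x) (G'.out y)) :
    ∃ zs : List V, Forall₂ (fun a z => ext π a = some z) (G'.out y) zs ∧
      Forall₂ (fun b z => ∃ m, Avail DV b m ∧ Avail DV m z) (G.out u) zs := by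
  have h1 := (h.jus' hext hx).2
  generalize G'.out x = xs at h1 hxy
  generalize G'.out y = ys at hxy
  generalize G.out u = us at h1
  induction h1 generalizing ys with
  | nil => cases hxy; exact ⟨[], .nil, .nil⟩
  | @cons a b as bs hab _ ih =>
    cases hxy with
    | @cons _ a' _ as' haa' hrest =>
      obtain ⟨zs, hz1, hz2⟩ := ih as' hrest
      obtain ⟨m, hm1, hm2⟩ := hab
      have hd := hpure.avail haa'
      obtain ⟨z, hz⟩ : ∃ z, ext π a' = some z := by
        rw [← Option.ne_none_iff_exists']
        intro h0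
        rw [hd.mpr h0] at hm1
        cases hm1
      exact ⟨z :: zs, .cons hz hz1, .cons ⟨m, hm2.symm, h.avail (haa'.mono_list hsub) hm1 hz⟩ hz2⟩

omit [Fintype W] in
/-- the earliest mixed line is a congruence line -/
theorem earliest {E' : List ((V ⊕ W) × (V ⊕ W))} {c₀ : ℕ} (hE' : ∀ p ∈ E', ∃ u v, p = (.inl u, .inl v))
    (h : G'.Der E' D c₀) (hm : ¬ Pure D π) :
    ∃ x y D2, (∀ p ∈ D2, p ∈ D) ∧ (x, y) ∈ D ∧ Pure D2 π ∧ ¬ (ext π x = none ↔ ext π y = none) ∧
      G'.Congr (Avail D2) x y := by
  induction h with
  | nil => exact absurd (fun _ _ h => by cases h) hm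
  | @hyp D c u v hD huv ih =>
    by_cases hp : Pure D π
    · obtain ⟨a, b, hab⟩ := hE' _ huv
      cases hab
      refine absurd ?_ hm
      intro s s' hs
      rcases mem_cons.mp hs with h | h
      · cases h
        simp [ext]
      · exact hp _ _ h
    · obtain ⟨x, y, D2, h1, h2, h3⟩ := ih hp
      exact ⟨x, y, D2, fun p hp => mem_cons_of_mem _ (h1 p hp), mem_cons_of_mem _ h2, h3⟩
  | @trans D c u v w hD h1 h2 ih =>
    by_cases hp : Pure D π
    · refine absurd ?_ hm
      intro s s' hs
      rcases mem_cons.mp hs with h | h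
      · cases h
        exact (hp.avail h1).trans (hp.avail h2)
      · exact hp _ _ h
    · obtain ⟨x, y, D2, h1, h2, h3⟩ := ih hp
      exact ⟨x, y, D2, fun p hp => mem_cons_of_mem _ (h1 p hp), mem_cons_of_mem _ h2, h3⟩
  | @cong D c u v hD hc ih =>
    by_cases hp : Pure D π
    · refine ⟨u, v, D, fun p hp => mem_cons_of_mem _ hp, mem_cons_self, hp, fun h => hm ?_, hc⟩
      intro s s' hs
      rcases mem_cons.mp hs with h' | h'
      · cases h'
        exact h
      · exact hp _ _ h'
    · obtain ⟨x, y, D2, h1, h2, h3⟩ := ih hp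
      exact ⟨x, y, D2, fun p hp => mem_cons_of_mem _ (h1 p hp), mem_cons_of_mem _ h2, h3⟩

/-- all mixed lines have the value `u` at their defined end -/
def Rel (D : List ((V ⊕ W) × (V ⊕ W))) (π : W → Option V) (u : V) : Prop :=
  ∀ s s', (s, s') ∈ D → (ext π s = none → ext π s' ≠ none → ext π s' = some u) ∧
    (ext π s' = none → ext π s ≠ none → ext π s = some u)

omit [Fintype W] in
theorem Pure.rel {D : List ((V ⊕ W) × (V ⊕ W))} {π : W → Option V} (h : Pure D π) (u : V) :
    Rel D π u := fun s s' hs =>
  ⟨fun h1 h2 => absurd ((h s s' hs).mp h1) h2, fun h1 h2 => absurd ((h s s' hs).mpr h1) h2⟩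

open Classical in
/-- one step of the absorption -/
theorem absorb_one (hext : Extends G G') (h : Inv G E G' D DV π c cv) {u : V} (hrel : Rel D π u)
    {x : V ⊕ W} {w : W} {D2 : List ((V ⊕ W) × (V ⊕ W))} (hsub : ∀ p ∈ D2, p ∈ D)
    (hpure : Pure D2 π) (hx : ext π x = some u) (hw : π w = none)
    (hlab : G'.lab x = G'.lab (.inr w))
    (hF : Forall₂ (Avail D2) (G'.out x) (G'.out (.inr w))) :
    ∃ DV' cv', Inv G E G' D DV' (Function.update π w (some u)) c cv' ∧
      Rel D (Function.update π w (some u)) u ∧ (∀ p ∈ DV, p ∈ DV') := by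
  obtain ⟨zs, hz1, hz2⟩ := h.succ hext hsub hpure hx hF
  have hlab' : G'.lab (.inr w) = G.lab u := hlab.symm.trans (h.jus' hext hx).1
  obtain ⟨DV', hDV', hs, hF'⟩ := add_trans h.der hz2
  have hlen : (G.out u).length = (G'.out (.inr w)).length := by
    rw [hz2.length_eq, hz1.length_eq]
  -- values of the new map
  have hold : ∀ a z, ext π a = some z → ext (Function.update π w (some u)) a = some z := by
    rintro (v | w') z ha
    · exact ha
    · by_cases hw' : w' = w
      · subst hw'
        rw [show ext π (.inr w' : V ⊕ W) = π w' from rfl, hw] at ha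
        cases ha
      · change Function.update π w (some u) w' = some z
        rw [Function.update_of_ne hw']
        exact ha
  have hnew : ∀ a z, ext (Function.update π w (some u)) a = some z →
      ext π a = some z ∨ (a = .inr w ∧ z = u) := by
    rintro (v | w') z ha
    · exact Or.inl ha
    · by_cases hw' : w' = w
      · subst hw'
        change Function.update π w' (some u) w' = some z at ha
        rw [Function.update_self] at ha
        exact Or.inr ⟨rfl, (Option.some.inj ha).symm⟩
      · change Function.update π w (some u) w' = some z at ha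
        rw [Function.update_of_ne hw'] at ha
        exact Or.inl ha
  have hnone : ∀ a, ext (Function.update π w (some u)) a = none → ext π a = none := by
    intro a ha
    by_contra h0
    obtain ⟨z, hz⟩ := Option.ne_none_iff_exists'.mp h0
    rw [hold a z hz] at ha
    cases ha
  refine ⟨DV', _, ⟨hDV', ?_, ?_, ?_⟩, ?_, hs⟩
  · intro s s' hss a b ha hb
    rcases hnew s a ha with ha' | ⟨rfl, rfl⟩ <;> rcases hnew s' b hb with hb' | ⟨rfl, rfl⟩
    · exact (h.b1 s s' hss a b ha' hb').mono_list hs
    · have := (hrel s _ hss).2 hw (by rw [ha']; simp)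
      rw [ha'] at this
      exact Or.inl (Option.some.inj this)
    · have := (hrel _ s' hss).1 hw (by rw [hb']; simp)
      rw [hb'] at this
      exact Or.inl (Option.some.inj this).symm
    · exact Or.inl rfl
  · intro w' u' hw'
    rcases hnew (.inr w') u' hw' with h1 | ⟨h1, rfl⟩
    · obtain ⟨h2, h3⟩ := h.jus w' u' h1
      exact ⟨h2, h3.imp fun a b ⟨y, hy1, hy2⟩ => ⟨y, hold a y hy1, hy2.mono_list hs⟩⟩
    · cases h1
      refine ⟨hlab', ?_⟩
      rw [forall₂_iff_get] at hz1 hF' ⊢
      refine ⟨hlen.symm, fun i h1 h2 => ?_⟩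
      have h3 : i < zs.length := by rw [← hz1.1]; exact h1
      exact ⟨_, hold _ _ (hz1.2 i h1 h3), (hF'.2 i h2 h3).symm⟩
  · have hd := h.d
    have e1 : ∑ w', (if Function.update π w (some u) w' = none then (G'.out (.inr w')).length
        else 0) + (G'.out (.inr w)).length =
        ∑ w', (if π w' = none then (G'.out (.inr w')).length else 0) := by
      rw [← Finset.add_sum_erase _ _ (Finset.mem_univ w),
        ← Finset.add_sum_erase _ _ (Finset.mem_univ w)]
      rw [Function.update_self, if_neg (by simp), if_pos hw]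
      rw [Finset.sum_congr rfl (g := fun w' => if π w' = none then (G'.out (.inr w')).length
        else 0)]
      · ring
      · intro w' hw'
        rw [Function.update_of_ne (Finset.ne_of_mem_erase hw')]
    rw [hlen]
    omega
  · intro s s' hss
    constructor
    · intro h1 h2
      obtain ⟨z, hz⟩ := Option.ne_none_iff_exists'.mp h2
      rcases hnew s' z hz with h3 | ⟨-, rfl⟩
      · rw [hold _ _ ((hrel s s' hss).1 (hnone s h1) (by rw [h3]; simp))]
      · exact hz
    · intro h1 h2
      obtain ⟨z, hz⟩ := Option.ne_none_iff_exists'.mp h2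
      rcases hnew s z hz with h3 | ⟨-, rfl⟩
      · rw [hold _ _ ((hrel s s' hss).2 (hnone s' h1) (by rw [h3]; simp))]
      · exact hz

open Classical in
/-- the absorption -/
theorem absorb (hext : Extends G G') {E' : List ((V ⊕ W) × (V ⊕ W))} {c₀ : ℕ}
    (hE' : ∀ p ∈ E', ∃ u v, p = (.inl u, .inl v)) (hder : G'.Der E' D c₀) {u : V} :
    ∀ (N : ℕ) (DV : List (V × V)) (π : W → Option V) (cv : ℕ),
      Inv G E G' D DV π c cv → Rel D π u →
      (Finset.univ.filter fun w => π w = none).card ≤ N →
      ∃ DV' π' cv', Inv G E G' D DV' π' c cv' ∧ Pure D π' := by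
  intro N
  induction N with
  | zero =>
    intro DV π cv h hrel hN
    refine ⟨DV, π, cv, h, ?_⟩
    have h0 : ∀ w, π w ≠ none := by
      intro w hw
      have : w ∈ Finset.univ.filter fun w => π w = none := by simp [hw]
      exact absurd (Finset.card_pos.mpr ⟨w, this⟩) (by omega)
    have h1 : ∀ x, ext π x ≠ none := by
      rintro (v | w)
      · simp [ext]
      · exact h0 w
    exact fun s s' _ => ⟨fun h => absurd h (h1 s), fun h => absurd h (h1 s')⟩
  | succ N ih =>
    intro DV π cv h hrel hN
    by_cases hp : Pure D π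
    · exact ⟨DV, π, cv, h, hp⟩
    obtain ⟨x, y, D2, hsub, hxy, hpure, hmix, hlab, hF⟩ := earliest hE' hder hp
    have step : ∀ (x : V ⊕ W) (w : W), ext π x = some u → π w = none →
        G'.lab x = G'.lab (.inr w) → Forall₂ (Avail D2) (G'.out x) (G'.out (.inr w)) →
        ∃ DV' π' cv', Inv G E G' D DV' π' c cv' ∧ Pure D π' := by
      intro x w hx hw hl hF'
      obtain ⟨DV', cv', h1, h2, -⟩ := absorb_one hext h hrel hsub hpure hx hw hl hF'
      refine ih DV' _ cv' h1 h2 ?_
      have h3 : (Finset.univ.filter fun w' => Function.update π w (some u) w' = none) ⊂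
          Finset.univ.filter fun w => π w = none := by
        rw [Finset.ssubset_iff_of_subset]
        · exact ⟨w, by simp [hw], by simp⟩
        · intro w' hw'
          simp only [Finset.mem_filter, Finset.mem_univ, true_and] at hw' ⊢
          by_cases h4 : w' = w
          · rw [h4]; exact hw
          · rwa [Function.update_of_ne h4] at hw'
      have := Finset.card_lt_card h3
      omega
    by_cases hx : ext π x = none
    · have hy : ext π y ≠ none := fun h => hmix ⟨fun _ => h, fun _ => hx⟩
      have hyu := (hrel x y hxy).1 hx hy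
      rcases x with v | w
      · simp [ext] at hx
      · refine step y w hyu hx hlab.symm (Forall₂.flip ?_)
        exact hF.imp fun _ _ h => h.symm
    · have hy : ext π y = none := by
        by_contra h0
        exact hmix ⟨fun h => absurd h hx, fun h => absurd h h0⟩
      have hxu := (hrel x y hxy).2 hy hx
      rcases y with v | w
      · simp [ext] at hy
      · exact step x w hxu hy hlab hF

open Classical in
/-- **Conversion.** -/
theorem conv_aux (hext : Extends G G') {c₀ : ℕ} (h : G'.Der (liftE W E) D c₀) :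
    ∃ DV π cv, Inv G E G' D DV π c₀ cv ∧ Pure D π := by
  have hE' : ∀ p ∈ liftE W E, ∃ u v, p = ((.inl u, .inl v) : (V ⊕ W) × (V ⊕ W)) := by
    intro p hp
    obtain ⟨q, -, rfl⟩ := mem_map.mp hp
    exact ⟨_, _, rfl⟩
  induction h with
  | nil =>
    refine ⟨[], fun _ => none, 0, ⟨.nil, ?_, ?_, ?_⟩, ?_⟩
    · intro s s' h; cases h
    · intro w u h; cases h
    · simp
    · intro s s' h; cases h
  | @hyp D c u v hD huv ih =>
    obtain ⟨DV, π, cv, h, hp⟩ := ih
    obtain ⟨⟨a, b⟩, hq, hab⟩ := mem_map.mp huv
    cases hab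
    refine ⟨(a, b) :: DV, π, cv + 1, ⟨h.der.hyp hq, ?_, ?_, ?_⟩, ?_⟩
    · intro s s' hs x x' hx hx'
      rcases mem_cons.mp hs with h' | h'
      · cases h'
        obtain rfl : a = x := Option.some.inj hx
        obtain rfl : b = x' := Option.some.inj hx'
        exact Or.inr (Or.inl mem_cons_self)
      · exact (h.b1 _ _ h' _ _ hx hx').cons _
    · intro w x hx
      exact ⟨(h.jus w x hx).1, (h.jus w x hx).2.imp fun _ _ ⟨y, h1, h2⟩ => ⟨y, h1, h2.cons _⟩⟩
    · have := h.d
      omega
    · intro s s' hs
      rcases mem_cons.mp hs with h' | h'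
      · cases h'
        simp [ext]
      · exact hp _ _ h'
  | @trans D c u v m hD h1 h2 ih =>
    obtain ⟨DV, π, cv, h, hp⟩ := ih
    have hpure : Pure ((u, v) :: D) π := by
      intro s s' hs
      rcases mem_cons.mp hs with h' | h'
      · cases h'
        exact (hp.avail h1).trans (hp.avail h2)
      · exact hp _ _ h'
    by_cases hu : ext π u = none
    · refine ⟨DV, π, cv, ⟨h.der, ?_, h.jus, ?_⟩, hpure⟩
      · intro s s' hs x x' hx hx'
        rcases mem_cons.mp hs with h' | h'
        · cases h'
          rw [hu] at hx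
          cases hx
        · exact h.b1 _ _ h' _ _ hx hx'
      · have := h.d
        omega
    · obtain ⟨a, ha⟩ := Option.ne_none_iff_exists'.mp hu
      obtain ⟨mm, hmm⟩ := Option.ne_none_iff_exists'.mp
        (fun h0 => hu ((hp.avail h1).mpr h0))
      obtain ⟨b, hb⟩ := Option.ne_none_iff_exists'.mp
        (fun h0 => hu ((hp.avail h1).mpr ((hp.avail h2).mpr h0)))
      refine ⟨(a, b) :: DV, π, cv + 1, ⟨h.der.trans (h.avail h1 ha hmm) (h.avail h2 hmm hb),
        ?_, ?_, ?_⟩, hpure⟩
      · intro s s' hs x x' hx hx'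
        rcases mem_cons.mp hs with h' | h'
        · cases h'
          obtain rfl : a = x := Option.some.inj (ha.symm.trans hx)
          obtain rfl : b = x' := Option.some.inj (hb.symm.trans hx')
          exact Or.inr (Or.inl mem_cons_self)
        · exact (h.b1 _ _ h' _ _ hx hx').cons _
      · intro w x hx
        exact ⟨(h.jus w x hx).1, (h.jus w x hx).2.imp fun _ _ ⟨y, h1, h2⟩ => ⟨y, h1, h2.cons _⟩⟩
      · have := h.d
        omega
  | @cong D c u v hD hc ih =>
    obtain ⟨DV, π, cv, h, hp⟩ := ih
    by_cases hmix : ext π u = none ↔ ext π v = none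
    · have hpure : Pure ((u, v) :: D) π := by
        intro s s' hs
        rcases mem_cons.mp hs with h' | h'
        · cases h'
          exact hmix
        · exact hp _ _ h'
      by_cases hu : ext π u = none
      · refine ⟨DV, π, cv, ⟨h.der, ?_, h.jus, ?_⟩, hpure⟩
        · intro s s' hs x x' hx hx'
          rcases mem_cons.mp hs with h' | h'
          · cases h'
            rw [hu] at hx
            cases hx
          · exact h.b1 _ _ h' _ _ hx hx'
        · have := h.d
          omega
      · obtain ⟨a, ha⟩ := Option.ne_none_iff_exists'.mp hu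
        obtain ⟨b, hb⟩ := Option.ne_none_iff_exists'.mp (fun h0 => hu (hmix.mpr h0))
        -- both ends defined
        obtain ⟨zs, hz1, hz2⟩ := h.succ hext (fun _ h => h) hp ha hc.2
        obtain ⟨DV1, hd1, hs1, hF1⟩ := add_trans h.der hz2
        have hbj := (h.jus' hext hb)
        have hF2 : Forall₂ (fun x z => ∃ y, Avail DV1 x y ∧ Avail DV1 y z) (G.out a)
            (G.out b) := by
          have h3 := hbj.2
          rw [forall₂_iff_get] at hF1 h3 hz1 ⊢
          refine ⟨by rw [hF1.1, ← hz1.1, h3.1], fun i h4 h5 => ?_⟩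
          have h6 : i < zs.length := by rw [← hF1.1]; exact h4
          have h7 : i < (G'.out v).length := by rw [hz1.1]; exact h6
          obtain ⟨y, hy1, hy2⟩ := h3.2 i h7 h5
          have hy3 := hz1.2 i h7 h6
          rw [hy1] at hy3
          rw [Option.some.inj hy3] at hy2
          exact ⟨_, hF1.2 i h4 h6, hy2.mono_list hs1⟩
        obtain ⟨DV2, hd2, hs2, hF3⟩ := add_trans hd1 hF2
        have hlab : G.lab a = G.lab b :=
          (h.jus' hext ha).1.symm.trans (hc.1.trans hbj.1)
        have hs3 : ∀ p ∈ DV, p ∈ (a, b) :: DV2 := fun p hp =>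
          mem_cons_of_mem _ (hs2 p (hs1 p hp))
        refine ⟨(a, b) :: DV2, π, _, ⟨hd2.cong ⟨hlab, hF3⟩, ?_, ?_, ?_⟩, hpure⟩
        · intro s s' hs x x' hx hx'
          rcases mem_cons.mp hs with h' | h'
          · cases h'
            obtain rfl : a = x := Option.some.inj (ha.symm.trans hx)
            obtain rfl : b = x' := Option.some.inj (hb.symm.trans hx')
            exact Or.inr (Or.inl mem_cons_self)
          · exact (h.b1 _ _ h' _ _ hx hx').mono_list hs3
        · intro w x hx
          exact ⟨(h.jus w x hx).1, (h.jus w x hx).2.imp fun _ _ ⟨y, h1, h2⟩ =>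
            ⟨y, h1, h2.mono_list hs3⟩⟩
        · have := h.d
          have hl : (G.out a).length = (G'.out u).length := ((h.jus' hext ha).2.length_eq).symm
          rw [hl]
          omega
    · -- one end defined: absorption
      have hinv : Inv G E G' ((u, v) :: D) DV π (c + 1 + (G'.out u).length) cv := by
        refine ⟨h.der, ?_, h.jus, ?_⟩
        · intro s s' hs x x' hx hx'
          rcases mem_cons.mp hs with h' | h'
          · cases h'
            refine absurd ⟨fun h0 => ?_, fun h0 => ?_⟩ hmix
            · rw [h0] at hx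
              cases hx
            · rw [h0] at hx'
              cases hx'
          · exact h.b1 _ _ h' _ _ hx hx'
        · have := h.d
          omega
      obtain ⟨a, ha⟩ : ∃ a, Rel ((u, v) :: D) π a := by
        by_cases hu : ext π u = none
        · obtain ⟨b, hb⟩ := Option.ne_none_iff_exists'.mp
            (fun h0 => hmix ⟨fun _ => h0, fun _ => hu⟩)
          refine ⟨b, fun s s' hs => ?_⟩
          rcases mem_cons.mp hs with h' | h'
          · cases h'
            exact ⟨fun _ _ => hb, fun h1 h2 => absurd hu h2⟩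
          · exact hp.rel b _ _ h'
        · obtain ⟨b, hb⟩ := Option.ne_none_iff_exists'.mp hu
          refine ⟨b, fun s s' hs => ?_⟩
          rcases mem_cons.mp hs with h' | h'
          · cases h'
            exact ⟨fun h1 _ => absurd h1 hu, fun _ _ => hb⟩
          · exact hp.rel b _ _ h'
      exact absorb hext hE' (hD.cong hc) _ _ _ _ hinv ha le_rfl

/-- **New vertices do not help.**  A derivation of cost `c` in an extension of `G` gives a
derivation in `G` of cost at most `3 c` plus the number of edges leaving the new vertices, with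
all the equations between old vertices. -/
theorem conv (hext : Extends G G') {c₀ : ℕ} (h : G'.Der (liftE W E) D c₀) :
    ∃ DV cv, G.Der E DV cv ∧ (∀ u v, (Sum.inl u, Sum.inl v) ∈ D → Avail DV u v) ∧
      cv ≤ 3 * c₀ + ∑ w, (G'.out (.inr w)).length := by
  obtain ⟨DV, π, cv, h1, -⟩ := conv_aux hext h
  exact ⟨DV, cv, h1.der, fun u v huv => h1.b1 _ _ huv u v rfl rfl,
    (Nat.le_add_right _ _).trans h1.d⟩

end

end Pool.Agent.EQ
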