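import Pool.Agent.Work.MP_7a8e14_lc.EQ.Hist2
import Pool.Agent.Work.MP_7a8e14_lc.EQ.Conv

/-!
# The derivation along the history
-/

open Finset

namespace Pool.Agent.EQ

variable {V L : Type*}

theorem reach_anc {par : V → Option V} {S : Finset (V × V)} (hS : ∀ p ∈ S, Anc par p.1 p.2) :
    ∀ k v a, Reach (fun x y => (x, y) ∈ S) k v a → v = a ∨ Anc par v a := by
  intro k
  induction k with
  | zero => exact fun v a h => Or.inl h
  | succ k ih =>
    rintro v a (h | ⟨w, h1, h2⟩)
    · exact Or.inl h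
    · rcases ih w a h2 with rfl | h3
      · exact Or.inr (hS _ h1)
      · exact Or.inr ((hS _ h1).trans h3)

/-- adding a set of lines in the order of a measure -/
theorem add_set [DecidableEq V] {G : LGraph V L} {E : List (V × V)} {D : List (V × V)} {c : ℕ}
    (hD : G.Der E D c) (μ : V × V → ℕ) : ∀ (k : ℕ) (N : Finset (V × V)), #N = k →
    (∀ p ∈ N, Avail D p.1 p.2 ∨ ∃ w, (Avail D p.1 w ∨ ((p.1, w) ∈ N ∧ μ (p.1, w) < μ p)) ∧
      (Avail D w p.2 ∨ ((w, p.2) ∈ N ∧ μ (w, p.2) < μ p))) →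
    ∃ D' c', G.Der E D' c' ∧ c' ≤ c + k ∧ (∀ p ∈ D, p ∈ D') ∧ ∀ p ∈ N, Avail D' p.1 p.2 := by
  intro k
  induction k with
  | zero =>
    intro N hN _
    rw [card_eq_zero] at hN
    subst hN
    exact ⟨D, c, hD, le_rfl, fun _ h => h, fun p hp => absurd hp (notMem_empty p)⟩
  | succ k ih =>
    intro N hN hj
    obtain ⟨p, hp, hmax⟩ := N.exists_max_image μ (card_pos.mp (by omega))
    obtain ⟨D', c', h1, h2, h3, h4⟩ := ih (N.erase p) (by rw [card_erase_of_mem hp]; omega) (by
      intro q hq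
      have hqN := mem_of_mem_erase hq
      have hqm := hmax q hqN
      rcases hj q hqN with h | ⟨w, hw1, hw2⟩
      · exact Or.inl h
      · refine Or.inr ⟨w, ?_, ?_⟩
        · rcases hw1 with h | ⟨h, h'⟩
          · exact Or.inl h
          · exact Or.inr ⟨mem_erase.mpr ⟨fun he => by rw [he] at h'; omega, h⟩, h'⟩
        · rcases hw2 with h | ⟨h, h'⟩
          · exact Or.inl h
          · exact Or.inr ⟨mem_erase.mpr ⟨fun he => by rw [he] at h'; omega, h⟩, h'⟩)
    rcases hj p hp with h | ⟨w, hw1, hw2⟩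
    · refine ⟨D', c', h1, by omega, h3, fun q hq => ?_⟩
      by_cases hqp : q = p
      · subst hqp
        exact h.mono_list h3
      · exact h4 q (mem_erase.mpr ⟨hqp, hq⟩)
    · have a1 : Avail D' p.1 w := by
        rcases hw1 with h | ⟨h, h'⟩
        · exact h.mono_list h3
        · exact h4 _ (mem_erase.mpr ⟨fun he => by rw [he] at h'; omega, h⟩)
      have a2 : Avail D' w p.2 := by
        rcases hw2 with h | ⟨h, h'⟩
        · exact h.mono_list h3
        · exact h4 _ (mem_erase.mpr ⟨fun he => by rw [he] at h'; omega, h⟩)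
      refine ⟨_, _, h1.trans a1 a2, by omega, fun q hq => List.mem_cons_of_mem _ (h3 q hq),
        fun q hq => ?_⟩
      by_cases hqp : q = p
      · subst hqp
        exact Or.inr (Or.inl List.mem_cons_self)
      · exact (h4 q (mem_erase.mpr ⟨hqp, hq⟩)).cons _

section

variable [Fintype V] [DecidableEq V]
variable {G : LGraph V L} {E : List (V × V)} {t : ℕ} {root : ℕ → V → V} {mer : ℕ → V × V}
  {cc : ℕ → ℕ} {par : V → Option V} {ρ : V → ℕ} {chg : V → ℕ} {S : Finset (V × V)} {K : ℕ}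

/-- the state after step `s` -/
def St (G : LGraph V L) (E : List (V × V)) (root : ℕ → V → V) (S : Finset (V × V)) (s : ℕ)
    (D : List (V × V)) (c : ℕ) : Prop :=
  G.Der E D c ∧ ∀ v a, (v, a) ∈ S → root s v = root s a → Avail D v a

/-- the properties of the shortcuts -/
structure Sc (par : V → Option V) (S : Finset (V × V)) (K : ℕ) : Prop where
  anc : ∀ p ∈ S, Anc par p.1 p.2
  edge : ∀ v a, par v = some a → (v, a) ∈ S
  jus : ∀ p ∈ S, par p.1 = some p.2 ∨ ∃ w, (p.1, w) ∈ S ∧ (w, p.2) ∈ S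
  reach : ∀ v a, Anc par v a → Reach (fun x y => (x, y) ∈ S) K v a

omit [Fintype V] [DecidableEq V] in
theorem St.mono {s : ℕ} {D D' : List (V × V)} {c c' : ℕ} (h : St G E root S s D c)
    (hD' : G.Der E D' c') (hsub : ∀ p ∈ D, p ∈ D') : St G E root S s D' c' :=
  ⟨hD', fun v a hva hr => (h.2 v a hva hr).mono_list hsub⟩

theorem St.find_aux (h : Hist G E t root mer cc par ρ chg) (hS : Sc par S K) {s : ℕ} (hs : s ≤ t)
    {D : List (V × V)} {c : ℕ} (hst : St G E root S s D c) : ∀ k p a, root s p = a →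
    Reach (fun x y => (x, y) ∈ S) k p a →
    ∃ D' c', G.Der E D' c' ∧ c' ≤ c + k ∧ (∀ q ∈ D, q ∈ D') ∧ Avail D' p a := by
  intro k
  induction k with
  | zero => exact fun p a _ hr => ⟨D, c, hst.1, le_rfl, fun _ h => h, Or.inl hr⟩
  | succ k ih =>
    rintro p a hp (hr | ⟨w, h1, h2⟩)
    · exact ⟨D, c, hst.1, by omega, fun _ h => h, Or.inl hr⟩
    · have h3 : root s w = a :=
        h.between hs (hS.anc _ h1) hp (reach_anc hS.anc k w a h2)
      obtain ⟨D', c', g1, g2, g3, g4⟩ := ih w a h3 h2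
      have h4 := (hst.2 p w h1 (hp.trans h3.symm)).mono_list g3
      exact ⟨_, _, g1.trans h4 g4, by omega, fun q hq => List.mem_cons_of_mem _ (g3 q hq),
        Or.inr (Or.inl List.mem_cons_self)⟩

theorem St.find (h : Hist G E t root mer cc par ρ chg) (hS : Sc par S K) {s : ℕ} (hs : s ≤ t)
    {D : List (V × V)} {c : ℕ} (hst : St G E root S s D c) (x : V) :
    ∃ D' c', St G E root S s D' c' ∧ c' ≤ c + K ∧ (∀ q ∈ D, q ∈ D') ∧ Avail D' x (root s x) := by
  rcases h.anc_root hs x with h1 | h1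
  · exact ⟨D, c, hst, by omega, fun _ h => h, Or.inl h1⟩
  · obtain ⟨D', c', g1, g2, g3, g4⟩ := St.find_aux h hS hs hst K x _ rfl (hS.reach _ _ h1)
    exact ⟨D', c', hst.mono g1 g3, g2, g3, g4⟩

theorem St.find_eq (h : Hist G E t root mer cc par ρ chg) (hS : Sc par S K) {s : ℕ} (hs : s ≤ t)
    {D : List (V × V)} {c : ℕ} (hst : St G E root S s D c) {x y : V} (hxy : root s x = root s y) :
    ∃ D' c', St G E root S s D' c' ∧ c' ≤ c + (2 * K + 1) ∧ (∀ q ∈ D, q ∈ D') ∧
      Avail D' x y := by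
  obtain ⟨D1, c1, g1, g2, g3, g4⟩ := St.find h hS hs hst x
  obtain ⟨D2, c2, k1, k2, k3, k4⟩ := St.find h hS hs g1 y
  rw [← hxy] at k4
  exact ⟨_, _, k1.mono (k1.1.trans (g4.mono_list k3) k4.symm)
    (fun p hp => List.mem_cons_of_mem _ hp), by omega,
    fun q hq => List.mem_cons_of_mem _ (k3 q (g3 q hq)), Or.inr (Or.inl List.mem_cons_self)⟩

theorem St.find_list (h : Hist G E t root mer cc par ρ chg) (hS : Sc par S K) {s : ℕ}
    (hs : s ≤ t) {xs ys : List V} (hxy : List.Forall₂ (fun x y => root s x = root s y) xs ys) :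
    ∀ {D : List (V × V)} {c : ℕ}, St G E root S s D c →
    ∃ D' c', St G E root S s D' c' ∧ c' ≤ c + (2 * K + 1) * xs.length ∧ (∀ q ∈ D, q ∈ D') ∧
      List.Forall₂ (Avail D') xs ys := by
  induction hxy with
  | nil => exact fun {D c} hst => ⟨D, c, hst, by simp, fun _ h => h, .nil⟩
  | @cons x y xs ys h1 _ ih =>
    intro D c hst
    obtain ⟨D1, c1, g1, g2, g3, g4⟩ := ih hst
    obtain ⟨D2, c2, k1, k2, k3, k4⟩ := St.find_eq h hS hs g1 h1
    refine ⟨D2, c2, k1, ?_, fun q hq => k3 q (g3 q hq), .cons k4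
      (g4.imp fun _ _ h => h.mono_list k3)⟩
    rw [List.length_cons, mul_add, mul_one]
    omega

/-- one merge -/
theorem St.step (h : Hist G E t root mer cc par ρ chg) (hS : Sc par S K) {s : ℕ} (hs : s < t)
    {D : List (V × V)} {c : ℕ} (hst : St G E root S s D c) :
    ∃ D' c', St G E root S (s + 1) D' c' ∧ c' + #{p ∈ S | root s p.1 = root s p.2} ≤
      c + ((2 * K + 2) * cc s + (2 * K + 3)) +
        #{p ∈ S | root (s + 1) p.1 = root (s + 1) p.2} := by
  obtain ⟨c1, c2, hne, hpar, hc, hstep⟩ := h.step s hs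
  have hc1 : root s c1 = c1 := by
    rcases hc with ⟨h1, -⟩ | ⟨-, h1⟩ <;> rw [← h1] <;> exact h.idem s hs.le _
  have hc2 : root s c2 = c2 := by
    rcases hc with ⟨-, h1⟩ | ⟨h1, -⟩ <;> rw [← h1] <;> exact h.idem s hs.le _
  set u := (mer s).1 with hu
  set v := (mer s).2 with hv
  -- the line of the merge
  obtain ⟨D1, d1, g1, g2, g3, g4⟩ : ∃ D1 d1, St G E root S s D1 d1 ∧
      d1 ≤ c + ((2 * K + 2) * cc s + 1) ∧ (∀ q ∈ D, q ∈ D1) ∧ Avail D1 u v := by
    rcases h.just s hs with h1 | ⟨h1, h2⟩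
    · exact ⟨_, _, hst.mono (hst.1.hyp (u := u) (v := v) h1)
        (fun p hp => List.mem_cons_of_mem _ hp), by omega,
        fun q hq => List.mem_cons_of_mem _ hq, Or.inr (Or.inl List.mem_cons_self)⟩
    · obtain ⟨D1, d1, g1, g2, g3, g4⟩ := St.find_list h hS hs.le h1.2 hst
      refine ⟨_, _, g1.mono (g1.1.cong (u := u) (v := v) ⟨h1.1, g4⟩)
        (fun p hp => List.mem_cons_of_mem _ hp), ?_,
        fun q hq => List.mem_cons_of_mem _ (g3 q hq), Or.inr (Or.inl List.mem_cons_self)⟩
      have h2' : (G.out u).length ≤ cc s := h2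
      have e1 : (2 * K + 1) * (G.out u).length ≤ (2 * K + 1) * cc s := Nat.mul_le_mul_left _ h2
      have e2 : (2 * K + 2) * cc s = (2 * K + 1) * cc s + cc s := by ring
      rw [← hu] at g2
      omega
  obtain ⟨D2, d2, k1, k2, k3, k4⟩ := St.find h hS hs.le g1 u
  obtain ⟨D3, d3, l1, l2, l3, l4⟩ := St.find h hS hs.le k1 v
  have a1 : Avail D3 (root s u) u := (k4.mono_list l3).symm
  have a2 : Avail D3 u v := (g4.mono_list k3).mono_list l3
  have hD4 := l1.1.trans a1 a2
  have a3 : Avail ((root s u, v) :: D3) (root s u) v := Or.inr (Or.inl List.mem_cons_self)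
  have hD5 := hD4.trans a3 (l4.cons _)
  set D5 := (root s u, root s v) :: (root s u, v) :: D3 with hD5def
  have hsub5 : ∀ p ∈ D3, p ∈ D5 := fun p hp => List.mem_cons_of_mem _ (List.mem_cons_of_mem _ hp)
  have hst5 : St G E root S s D5 (d3 + 1 + 1) := l1.mono hD5 hsub5
  have hc12 : Avail D5 c1 c2 := by
    have : Avail D5 (root s u) (root s v) := Or.inr (Or.inl List.mem_cons_self)
    rcases hc with ⟨e1, e2⟩ | ⟨e1, e2⟩
    · rwa [e1, e2] at this
    · rw [e1, e2] at this
      exact this.symm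
  -- the new shortcuts
  set N : Finset (V × V) := {p ∈ S | root s p.1 = c1 ∧ p.2 = c2} with hN
  obtain ⟨M, hM⟩ : ∃ M, ∀ v, ρ v < M := by
    obtain ⟨M, hM⟩ := (univ.image ρ).exists_le
    exact ⟨M + 1, fun v => Nat.lt_succ_iff.mpr (hM _ (mem_image_of_mem _ (mem_univ v)))⟩
  have hedge : Anc par c1 c2 := Relation.TransGen.single hpar
  obtain ⟨D', c', m1, m2, m3, m4⟩ := add_set hD5 (fun p => M - ρ p.1) #N N rfl (by
    rintro ⟨x, a⟩ hp
    obtain ⟨hpS, hx, rfl⟩ := mem_filter.mp hp
    change root s x = c1 at hx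
    rcases hS.jus _ hpS with h1 | ⟨w, h1, h2⟩
    · left
      change par x = some a at h1
      rcases h.par_time s hs.le x a h1 with h2 | h2
      · rw [h2] at hx
        change Avail D5 x a
        rw [hx]
        exact hc12
      · exfalso
        rw [hx, hc2] at h2
        exact hne h2
    · right
      change (x, w) ∈ S at h1
      change (w, a) ∈ S at h2
      have b1 := hS.anc _ h1
      have b2 := hS.anc _ h2
      change Anc par x w at b1
      change Anc par w a at b2
      have hrw : root s w = c1 := by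
        have b3 := h.anc_root hs.le x
        rw [hx] at b3
        rcases anc_linear b1 b3 with h3 | h3 | h3
        · rw [h3, hc1]
        · exact h.between hs.le b1 hx (Or.inr h3)
        · exfalso
          obtain ⟨z, h4, h5⟩ := Relation.TransGen.head'_iff.mp h3
          rw [hpar] at h4
          obtain rfl := Option.some.inj h4
          have hb2 : ρ w < ρ a := h.rank_anc b2
          rcases Relation.reflTransGen_iff_eq_or_transGen.mp h5 with h6 | h6
          · rw [h6] at hb2
            exact lt_irrefl _ hb2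
          · have hb3 : ρ a < ρ w := h.rank_anc h6
            omega
      refine ⟨w, Or.inl (hst5.2 x w h1 (hx.trans hrw.symm)), Or.inr ⟨?_, ?_⟩⟩
      · exact mem_filter.mpr ⟨h2, hrw, rfl⟩
      · change M - ρ w < M - ρ x
        have := h.rank_anc b1
        have := hM w
        omega)
  refine ⟨D', c', ⟨m1, fun x a hxa hr => ?_⟩, ?_⟩
  · by_cases h0 : root s x = root s a
    · exact (hst5.2 x a hxa h0).mono_list m3
    · obtain ⟨e1, e2⟩ := h.new_active hs hne hpar hc1 hstep (hS.anc _ hxa) h0 hr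
      exact m4 (x, a) (mem_filter.mpr ⟨hxa, e1, e2⟩)
  · have hcount : #{p ∈ S | root s p.1 = root s p.2} + #N ≤
        #{p ∈ S | root (s + 1) p.1 = root (s + 1) p.2} := by
      rw [← card_union_of_disjoint]
      · refine card_le_card fun p hp => ?_
        rcases mem_union.mp hp with hp | hp
        · obtain ⟨h1, h2⟩ := mem_filter.mp hp
          exact mem_filter.mpr ⟨h1, by rw [hstep, hstep, h2]⟩
        · obtain ⟨h1, h2, h3⟩ := mem_filter.mp hp
          refine mem_filter.mpr ⟨h1, ?_⟩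
          rw [hstep, hstep, h2, h3, hc2, if_pos rfl, if_neg hne.symm]
      · rw [disjoint_left]
        intro p h1 h2
        have e1 := (mem_filter.mp h1).2
        obtain ⟨-, e2, e3⟩ := mem_filter.mp h2
        rw [e2, e3, hc2] at e1
        exact hne e1
    omega

theorem St.run (h : Hist G E t root mer cc par ρ chg) (hS : Sc par S K) : ∀ s ≤ t,
    ∃ D c, St G E root S s D c ∧ c ≤ ∑ i ∈ range s, ((2 * K + 2) * cc i + (2 * K + 3)) +
      #{p ∈ S | root s p.1 = root s p.2} := by
  intro s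
  induction s with
  | zero =>
    intro _
    refine ⟨[], 0, ⟨.nil, fun v a _ hr => Or.inl ?_⟩, Nat.zero_le _⟩
    rwa [h.root_zero, h.root_zero] at hr
  | succ s ih =>
    intro hs
    obtain ⟨D, c, h1, h2⟩ := ih (by omega)
    obtain ⟨D', c', h3, h4⟩ := St.step h hS (by omega : s < t) h1
    refine ⟨D', c', h3, ?_⟩
    rw [sum_range_succ]
    omega

/-- equations with the roots -/
theorem St.finish (h : Hist G E t root mer cc par ρ chg) (hS : Sc par S K) {D : List (V × V)}
    {c : ℕ} (hst : St G E root S t D c) (A : Finset V) :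
    ∃ D' c', St G E root S t D' c' ∧ c' ≤ c + K * #A ∧ (∀ q ∈ D, q ∈ D') ∧
      ∀ v ∈ A, Avail D' v (root t v) := by
  induction A using Finset.induction_on with
  | empty => exact ⟨D, c, hst, by simp, fun _ h => h, fun v hv => absurd hv (notMem_empty v)⟩
  | @insert x A hx ih =>
    obtain ⟨D1, c1, g1, g2, g3, g4⟩ := ih
    obtain ⟨D2, c2, k1, k2, k3, k4⟩ := St.find h hS le_rfl g1 x
    refine ⟨D2, c2, k1, ?_, fun q hq => k3 q (g3 q hq), fun v hv => ?_⟩
    · rw [card_insert_of_notMem hx, mul_add, mul_one]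
      omega
    · rcases mem_insert.mp hv with rfl | hv
      · exact k4
      · exact (g4 v hv).mono_list k3

/-- **Upper bound**, for a given number `K` of steps -/
theorem upper_aux (h : Hist G E t root mer cc par ρ chg) (hcl : Closed G E (root t))
    (hS : Sc par S K) : ∃ D c, ∃ rep : V → V, G.Der E D c ∧
      (∀ x y, G.Closure E x y ↔ rep x = rep y) ∧ (∀ v, Avail D v (rep v)) ∧
      c ≤ (2 * K + 2) * ∑ v, (G.out v).length + (3 * K + 3) * Fintype.card V + #S := by
  obtain ⟨D, c, h1, h2⟩ := St.run h hS t le_rfl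
  obtain ⟨D', c', h3, h4, -, h5⟩ := St.finish h hS h1 univ
  refine ⟨D', c', root t, h3.1, h.closure_iff hcl, fun v => h5 v (mem_univ v), ?_⟩
  rw [sum_add_distrib, ← mul_sum, sum_const, card_range, smul_eq_mul] at h2
  have e1 : #{p ∈ S | root t p.1 = root t p.2} ≤ #S := card_filter_le _ _
  have e2 : (2 * K + 2) * ∑ s ∈ range t, cc s ≤ (2 * K + 2) * ∑ v, (G.out v).length :=
    Nat.mul_le_mul_left _ h.cc_total
  have e3 : t * (2 * K + 3) ≤ Fintype.card V * (2 * K + 3) :=
    Nat.mul_le_mul_right _ (by have := h.num; omega)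
  rw [card_univ] at h4
  have e4 : (3 * K + 3) * Fintype.card V = Fintype.card V * (2 * K + 3) + K * Fintype.card V := by
    ring
  omega

end

end Pool.Agent.EQ
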