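import Mathlib

/-!
# The counting argument
-/

open Finset

namespace Pool.Agent.EQ

/-- depth of the merge tree `T(k, s)` -/
def Dp : ℕ → ℕ → ℕ
  | 0, _ => 1
  | _ + 1, 0 => 1
  | k + 1, s + 1 => Dp (k + 1) s + Dp k (2 ^ Dp (k + 1) s)
  termination_by k s => (k, s)

/-- height at which the mark `i` of the leaf `l` is queried in `T(k, s)` -/
def qh : ℕ → ℕ → ℕ → ℕ → ℕ
  | 0, _, _, _ => 1
  | _ + 1, 0, _, _ => 1
  | k + 1, s + 1, l, i =>
    if i < s then qh (k + 1) s (l % 2 ^ Dp (k + 1) s) i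
    else Dp (k + 1) s +
      qh k (2 ^ Dp (k + 1) s) (l / 2 ^ Dp (k + 1) s) (l % 2 ^ Dp (k + 1) s)
  termination_by k s => (k, s)

theorem Dp_zero (s : ℕ) : Dp 0 s = 1 := by rw [Dp]

theorem Dp_succ_zero (k : ℕ) : Dp (k + 1) 0 = 1 := by rw [Dp]

theorem Dp_succ_succ (k s : ℕ) : Dp (k + 1) (s + 1) = Dp (k + 1) s + Dp k (2 ^ Dp (k + 1) s) := by
  rw [Dp]

theorem Dp_pos (k s : ℕ) : 1 ≤ Dp k s := by
  induction k generalizing s with
  | zero => rw [Dp_zero]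
  | succ k ih =>
    induction s with
    | zero => rw [Dp_succ_zero]
    | succ s ihs => rw [Dp_succ_succ]; omega

theorem qh_bounds (k : ℕ) : ∀ s l i, 1 ≤ qh k s l i ∧ qh k s l i ≤ Dp k s := by
  induction k with
  | zero => intro s l i; rw [qh, Dp_zero]; omega
  | succ k ih =>
    intro s
    induction s with
    | zero => intro l i; rw [qh, Dp_succ_zero]; omega
    | succ s ihs =>
      intro l i
      rw [qh, Dp_succ_succ]
      split_ifs with h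
      · have := ihs (l % 2 ^ Dp (k + 1) s) i
        have h2 := Dp_pos k (2 ^ Dp (k + 1) s)
        omega
      · have := ih (2 ^ Dp (k + 1) s) (l / 2 ^ Dp (k + 1) s) (l % 2 ^ Dp (k + 1) s)
        have h2 := Dp_pos (k + 1) s
        omega

variable {V : Type*}

/-- `v` is a mark -/
def IsMk (mk : ℕ → ℕ → V) (D s : ℕ) (v : V) : Prop := ∃ l < 2 ^ D, ∃ i < s, mk l i = v

/-- `v` is touched at a height in `(a, b]` -/
def Tch (t : V → ℕ → Prop) (a b : ℕ) (v : V) : Prop := ∃ h, a < h ∧ h ≤ b ∧ t v h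

/-- The combinatorial hypotheses of the counting argument. -/
structure Sys (S : Finset V) (lf : V → ℕ) (t Q : V → ℕ → Prop) (mk : ℕ → ℕ → V) (D s : ℕ)
    (q : ℕ → ℕ → ℕ) : Prop where
  lf_lt : ∀ v ∈ S, lf v < 2 ^ D
  mk_mem : ∀ l < 2 ^ D, ∀ i < s, mk l i ∈ S
  lf_mk : ∀ l < 2 ^ D, ∀ i < s, lf (mk l i) = l
  mk_inj : ∀ l < 2 ^ D, ∀ i < s, ∀ i' < s, mk l i = mk l i' → i = i'
  Q_mk : ∀ l < 2 ^ D, ∀ i < s, Q (mk l i) (q l i)
  Q_t : ∀ v ∈ S, ∀ h, 1 ≤ h → h ≤ D → Q v h → t v h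
  esc : ∀ a b g, a < b → b < g → g ≤ D → ∀ x ∈ S, (lf x / 2 ^ a) % 2 ^ (b - a) ≠ 0 → Q x g →
    ∃ v ∈ S, lf v / 2 ^ a = lf x / 2 ^ a ∧ Tch t a b v ∧ Tch t b g v

open Classical in
/-- number of heights in `[1, D]` at which `v` is touched -/
noncomputable def cnt (t : V → ℕ → Prop) (D : ℕ) (v : V) : ℕ := #{h ∈ Icc 1 D | t v h}

theorem cnt_add (t : V → ℕ → Prop) (v : V) (D1 D2 : ℕ) :
    cnt t (D1 + D2) v = cnt t D1 v + cnt (fun v h => t v (D1 + h)) D2 v := by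
  classical
  unfold cnt
  rw [show #{h ∈ Icc 1 D2 | t v (D1 + h)} =
    #({h ∈ Icc 1 D2 | t v (D1 + h)}.map (addLeftEmbedding D1)) from (card_map _).symm,
    ← card_union_of_disjoint]
  · congr 1
    ext h
    simp only [mem_filter, mem_Icc, mem_union, mem_map, addLeftEmbedding_apply]
    constructor
    · rintro ⟨⟨h1, h2⟩, h3⟩
      by_cases h4 : h ≤ D1
      · exact Or.inl ⟨⟨h1, h4⟩, h3⟩
      · refine Or.inr ⟨h - D1, ⟨⟨by omega, by omega⟩, ?_⟩, by omega⟩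
        rwa [show D1 + (h - D1) = h by omega]
    · rintro (⟨⟨h1, h2⟩, h3⟩ | ⟨g, ⟨⟨h1, h2⟩, h3⟩, rfl⟩)
      · exact ⟨⟨h1, by omega⟩, h3⟩
      · exact ⟨⟨by omega, by omega⟩, h3⟩
  · rw [disjoint_left]
    simp only [mem_filter, mem_Icc, mem_map, addLeftEmbedding_apply]
    rintro h ⟨⟨h1, h2⟩, h3⟩ ⟨g, ⟨⟨h4, h5⟩, h6⟩, h7⟩
    omega

theorem cnt_pos (t : V → ℕ → Prop) (v : V) (D : ℕ) (h : Tch t 0 D v) : 1 ≤ cnt t D v := by
  classical
  obtain ⟨g, h1, h2, h3⟩ := h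
  exact card_pos.mpr ⟨g, by simp only [mem_filter, mem_Icc]; exact ⟨⟨h1, h2⟩, h3⟩⟩

open Classical in
theorem count_triv (S : Finset V) (t : V → ℕ → Prop) (D : ℕ) (P : V → Prop) :
    2 * #{v ∈ S | ¬ P v ∧ Tch t 0 D v} ≤ 2 * ∑ v ∈ S, cnt t D v := by
  refine Nat.mul_le_mul_left 2 ?_
  rw [card_filter]
  refine sum_le_sum fun v _ => ?_
  split_ifs with h
  · exact cnt_pos t v D h.2
  · exact Nat.zero_le _

theorem pt_aux {A B C1 C2 W C : Prop} [Decidable (¬ (A ∨ B) ∧ C)] [Decidable W]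
    [Decidable (¬ A ∧ C1)] [Decidable (¬ B ∧ C2)] (hd : A → B → False) (hT : C → C1 ∨ C2)
    (hW : W → C1 ∧ C2) : (if ¬ (A ∨ B) ∧ C then 1 else 0) + (if W then 1 else 0) ≤
    (if ¬ A ∧ C1 then 1 else 0) + (if ¬ B ∧ C2 then 1 else 0) := by
  by_cases c1 : A <;> by_cases c2 : B <;> by_cases c3 : C1 <;> by_cases c4 : C2 <;>
    by_cases c5 : W <;> by_cases c6 : C <;> simp_all

/-! ## The two parts of the recursion -/

section step

variable {S : Finset V} {lf : V → ℕ} {t Q : V → ℕ → Prop} {mk : ℕ → ℕ → V} {D1 D2 s : ℕ}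
  {q1 q2 : ℕ → ℕ → ℕ}

open Classical in
/-- the inner copy number `c` -/
theorem Sys.inner (h : Sys S lf t Q mk (D1 + D2) (s + 1)
    (fun l i => if i < s then q1 (l % 2 ^ D1) i else D1 + q2 (l / 2 ^ D1) (l % 2 ^ D1)))
    {c : ℕ} (hc : c < 2 ^ D2) :
    Sys {v ∈ S | lf v / 2 ^ D1 = c} (fun v => lf v % 2 ^ D1) t Q
      (fun l i => mk (c * 2 ^ D1 + l) i) D1 s q1 := by
  have hpos : 0 < 2 ^ D1 := by positivity
  have hlt : ∀ l < 2 ^ D1, c * 2 ^ D1 + l < 2 ^ (D1 + D2) := by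
    intro l hl
    calc c * 2 ^ D1 + l < c * 2 ^ D1 + 2 ^ D1 := by omega
      _ = (c + 1) * 2 ^ D1 := by ring
      _ ≤ 2 ^ D2 * 2 ^ D1 := Nat.mul_le_mul_right _ hc
      _ = 2 ^ (D1 + D2) := by rw [pow_add]; ring
  have hmod : ∀ l < 2 ^ D1, (c * 2 ^ D1 + l) % 2 ^ D1 = l := by
    intro l hl
    rw [Nat.add_comm, Nat.add_mul_mod_self_right, Nat.mod_eq_of_lt hl]
  have hdiv : ∀ l < 2 ^ D1, (c * 2 ^ D1 + l) / 2 ^ D1 = c := by
    intro l hl
    rw [Nat.add_comm, Nat.add_mul_div_right _ _ hpos, Nat.div_eq_of_lt hl, zero_add]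
  refine ⟨fun v _ => Nat.mod_lt _ hpos, fun l hl i hi => ?_, fun l hl i hi => ?_,
    fun l hl i hi i' hi' => ?_, fun l hl i hi => ?_, fun v hv g h1 h2 => ?_, ?_⟩
  · rw [mem_filter]
    exact ⟨h.mk_mem _ (hlt l hl) i (by omega), by rw [h.lf_mk _ (hlt l hl) i (by omega), hdiv l hl]⟩
  · rw [h.lf_mk _ (hlt l hl) i (by omega), hmod l hl]
  · exact h.mk_inj _ (hlt l hl) i (by omega) i' (by omega)
  · have := h.Q_mk _ (hlt l hl) i (by omega)
    simp only [hi, if_true, hmod l hl] at this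
    exact this
  · exact h.Q_t v (mem_filter.mp hv).1 g h1 (by omega)
  · intro a b g hab hb hg x hx hne hq
    obtain ⟨hxS, hxc⟩ := mem_filter.mp hx
    have e1 : ∀ y : V, (lf y % 2 ^ D1) / 2 ^ a = (lf y / 2 ^ a) % 2 ^ (D1 - a) := by
      intro y
      rw [show 2 ^ D1 = 2 ^ a * 2 ^ (D1 - a) by rw [← pow_add]; congr 1; omega,
        Nat.mod_mul_right_div_self]
    obtain ⟨v, hv, h1, h2, h3⟩ := h.esc a b g hab hb (by omega) x hxS (by
      intro h0
      apply hne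
      rw [e1, Nat.mod_mod_of_dvd _ (pow_dvd_pow 2 (by omega))]
      exact h0) hq
    refine ⟨v, mem_filter.mpr ⟨hv, ?_⟩, ?_, h2, h3⟩
    · have e2 : ∀ y : V, lf y / 2 ^ D1 = lf y / 2 ^ a / 2 ^ (D1 - a) := by
        intro y
        rw [Nat.div_div_eq_div_mul, ← pow_add]
        congr 2
        omega
      rw [e2, h1, ← e2, hxc]
    · rw [e1, e1, h1]

/-- the outer tree -/
theorem Sys.outer (h : Sys S lf t Q mk (D1 + D2) (s + 1)
    (fun l i => if i < s then q1 (l % 2 ^ D1) i else D1 + q2 (l / 2 ^ D1) (l % 2 ^ D1))) :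
    Sys S (fun v => lf v / 2 ^ D1) (fun v h => t v (D1 + h)) (fun v h => Q v (D1 + h))
      (fun l i => mk (l * 2 ^ D1 + i) s) D2 (2 ^ D1) q2 := by
  have hpos : 0 < 2 ^ D1 := by positivity
  have hlt : ∀ l < 2 ^ D2, ∀ i < 2 ^ D1, l * 2 ^ D1 + i < 2 ^ (D1 + D2) := by
    intro l hl i hi
    calc l * 2 ^ D1 + i < l * 2 ^ D1 + 2 ^ D1 := by omega
      _ = (l + 1) * 2 ^ D1 := by ring
      _ ≤ 2 ^ D2 * 2 ^ D1 := Nat.mul_le_mul_right _ hl
      _ = 2 ^ (D1 + D2) := by rw [pow_add]; ring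
  have hmod : ∀ l, ∀ i < 2 ^ D1, (l * 2 ^ D1 + i) % 2 ^ D1 = i := by
    intro l i hi
    rw [Nat.add_comm, Nat.add_mul_mod_self_right, Nat.mod_eq_of_lt hi]
  have hdiv : ∀ l, ∀ i < 2 ^ D1, (l * 2 ^ D1 + i) / 2 ^ D1 = l := by
    intro l i hi
    rw [Nat.add_comm, Nat.add_mul_div_right _ _ hpos, Nat.div_eq_of_lt hi, zero_add]
  refine ⟨fun v hv => ?_, fun l hl i hi => ?_, fun l hl i hi => ?_,
    fun l hl i hi i' hi' he => ?_, fun l hl i hi => ?_, fun v hv g h1 h2 hQ => ?_, ?_⟩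
  · have := h.lf_lt v hv
    rw [Nat.div_lt_iff_lt_mul hpos, ← pow_add, Nat.add_comm]
    exact this
  · exact h.mk_mem _ (hlt l hl i hi) s (by omega)
  · rw [h.lf_mk _ (hlt l hl i hi) s (by omega), hdiv l i hi]
  · have h1 := h.lf_mk _ (hlt l hl i hi) s (by omega)
    have h2 := h.lf_mk _ (hlt l hl i' hi') s (by omega)
    rw [he, h2] at h1
    omega
  · have := h.Q_mk _ (hlt l hl i hi) s (by omega)
    simp only [lt_irrefl, if_false, hmod l i hi, hdiv l i hi] at this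
    exact this
  · exact h.Q_t v hv (D1 + g) (by omega) (by omega) hQ
  · intro a b g hab hb hg x hx hne hq
    have e1 : ∀ y : V, (lf y / 2 ^ D1) / 2 ^ a = lf y / 2 ^ (D1 + a) := by
      intro y
      rw [Nat.div_div_eq_div_mul, ← pow_add]
    obtain ⟨v, hv, h1, h2, h3⟩ := h.esc (D1 + a) (D1 + b) (D1 + g) (by omega) (by omega)
      (by omega) x hx (by
        intro h0
        apply hne
        rw [e1, ← h0]
        congr 2
        omega) hq
    refine ⟨v, hv, ?_, ?_, ?_⟩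
    · rw [e1, e1, h1]
    · obtain ⟨c, c1, c2, c3⟩ := h2
      refine ⟨c - D1, by omega, by omega, ?_⟩
      change t v (D1 + (c - D1))
      rwa [show D1 + (c - D1) = c by omega]
    · obtain ⟨c, c1, c2, c3⟩ := h3
      refine ⟨c - D1, by omega, by omega, ?_⟩
      change t v (D1 + (c - D1))
      rwa [show D1 + (c - D1) = c by omega]

open Classical in
theorem count_step (h : Sys S lf t Q mk (D1 + D2) (s + 1)
    (fun l i => if i < s then q1 (l % 2 ^ D1) i else D1 + q2 (l / 2 ^ D1) (l % 2 ^ D1)))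
    (hq2 : ∀ l i, 1 ≤ q2 l i) (hq2' : ∀ l i, q2 l i ≤ D2) (hD1 : 1 ≤ D1) {k : ℕ}
    (ih1 : ∀ c < 2 ^ D2, (k + 1) * s * 2 ^ D1 + 2 * #{v ∈ {v ∈ S | lf v / 2 ^ D1 = c} |
      ¬ IsMk (fun l i => mk (c * 2 ^ D1 + l) i) D1 s v ∧ Tch t 0 D1 v} ≤
      2 * ∑ v ∈ {v ∈ S | lf v / 2 ^ D1 = c}, cnt t D1 v)
    (ih2 : k * 2 ^ D1 * 2 ^ D2 + 2 * #{v ∈ S |
      ¬ IsMk (fun l i => mk (l * 2 ^ D1 + i) s) D2 (2 ^ D1) v ∧
        Tch (fun v h => t v (D1 + h)) 0 D2 v} ≤ 2 * ∑ v ∈ S, cnt (fun v h => t v (D1 + h)) D2 v) :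
    (k + 1) * (s + 1) * 2 ^ (D1 + D2) +
      2 * #{v ∈ S | ¬ IsMk mk (D1 + D2) (s + 1) v ∧ Tch t 0 (D1 + D2) v} ≤
      2 * ∑ v ∈ S, cnt t (D1 + D2) v := by
  have hpos : 0 < 2 ^ D1 := by positivity
  have hN : 2 ^ (D1 + D2) = 2 ^ D2 * 2 ^ D1 := by rw [pow_add]; ring
  have hlt : ∀ l < 2 ^ D2, ∀ i < 2 ^ D1, l * 2 ^ D1 + i < 2 ^ (D1 + D2) := by
    intro l hl i hi
    calc l * 2 ^ D1 + i < l * 2 ^ D1 + 2 ^ D1 := by omega
      _ = (l + 1) * 2 ^ D1 := by ring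
      _ ≤ 2 ^ D2 * 2 ^ D1 := Nat.mul_le_mul_right _ hl
      _ = 2 ^ (D1 + D2) := hN.symm
  -- marks
  set IM : V → Prop := IsMk mk (D1 + D2) s with hIM
  set RM : V → Prop := fun v => ∃ l < 2 ^ (D1 + D2), mk l s = v with hRM
  have hM : ∀ v, IsMk mk (D1 + D2) (s + 1) v ↔ IM v ∨ RM v := by
    intro v
    constructor
    · rintro ⟨l, hl, i, hi, rfl⟩
      rcases Nat.lt_succ_iff_lt_or_eq.mp hi with h1 | rfl
      · exact Or.inl ⟨l, hl, i, h1, rfl⟩
      · exact Or.inr ⟨l, hl, rfl⟩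
    · rintro (⟨l, hl, i, hi, rfl⟩ | ⟨l, hl, rfl⟩)
      · exact ⟨l, hl, i, by omega, rfl⟩
      · exact ⟨l, hl, s, by omega, rfl⟩
  have hdisj : ∀ v, IM v → RM v → False := by
    rintro v ⟨l, hl, i, hi, rfl⟩ ⟨l', hl', he⟩
    have h1 := h.lf_mk l hl i (by omega)
    have h2 := h.lf_mk l' hl' s (by omega)
    rw [he, h1] at h2
    subst h2
    have := h.mk_inj l hl s (by omega) i (by omega) he
    omega
  -- inner part
  have key1 : (k + 1) * s * 2 ^ (D1 + D2) + 2 * #{v ∈ S | ¬ IM v ∧ Tch t 0 D1 v} ≤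
      2 * ∑ v ∈ S, cnt t D1 v := by
    have hmap : ∀ v ∈ S, lf v / 2 ^ D1 ∈ range (2 ^ D2) := by
      intro v hv
      rw [mem_range, Nat.div_lt_iff_lt_mul hpos, ← hN]
      exact h.lf_lt v hv
    have h1 := sum_le_sum (s := range (2 ^ D2)) fun c hc => ih1 c (mem_range.mp hc)
    rw [sum_add_distrib, sum_const, card_range, ← mul_sum, ← mul_sum,
      sum_fiberwise_of_maps_to hmap] at h1
    have h2 : ∑ c ∈ range (2 ^ D2), #{v ∈ {v ∈ S | lf v / 2 ^ D1 = c} |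
        ¬ IsMk (fun l i => mk (c * 2 ^ D1 + l) i) D1 s v ∧ Tch t 0 D1 v} =
        #{v ∈ S | ¬ IM v ∧ Tch t 0 D1 v} := by
      rw [card_eq_sum_card_fiberwise (f := fun v => lf v / 2 ^ D1) (t := range (2 ^ D2))]
      · refine sum_congr rfl fun c hc => ?_
        congr 1
        ext v
        simp only [mem_filter]
        constructor
        · rintro ⟨⟨h1, h2⟩, h3, h4⟩
          refine ⟨⟨h1, fun h5 => h3 ?_, h4⟩, h2⟩
          obtain ⟨l, hl, i, hi, rfl⟩ := h5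
          rw [h.lf_mk l hl i (by omega)] at h2
          refine ⟨l % 2 ^ D1, Nat.mod_lt _ hpos, i, hi, ?_⟩
          change mk (c * 2 ^ D1 + l % 2 ^ D1) i = mk l i
          rw [← h2, Nat.div_add_mod']
        · rintro ⟨⟨h1, h3, h4⟩, h2⟩
          refine ⟨⟨h1, h2⟩, fun h5 => h3 ?_, h4⟩
          obtain ⟨l, hl, i, hi, rfl⟩ := h5
          exact ⟨c * 2 ^ D1 + l, hlt c (mem_range.mp hc) l hl, i, hi, rfl⟩
      · intro v hv
        exact hmap v (mem_filter.mp hv).1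
    rw [h2, smul_eq_mul] at h1
    refine le_trans (le_of_eq ?_) h1
    rw [hN]
    ring
  -- outer part
  have key2 : k * 2 ^ (D1 + D2) + 2 * #{v ∈ S | ¬ RM v ∧ Tch t D1 (D1 + D2) v} ≤
      2 * ∑ v ∈ S, cnt (fun v h => t v (D1 + h)) D2 v := by
    refine le_trans (le_of_eq ?_) ih2
    congr 1
    · rw [hN]; ring
    · congr 2
      ext v
      simp only [mem_filter]
      refine and_congr_right fun hv => and_congr (not_congr ?_) ?_
      · constructor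
        · rintro ⟨l, hl, rfl⟩
          refine ⟨l / 2 ^ D1, ?_, l % 2 ^ D1, Nat.mod_lt _ hpos, ?_⟩
          · rw [Nat.div_lt_iff_lt_mul hpos, ← hN]
            exact hl
          · change mk (l / 2 ^ D1 * 2 ^ D1 + l % 2 ^ D1) s = mk l s
            rw [Nat.div_add_mod']
        · rintro ⟨l, hl, i, hi, rfl⟩
          exact ⟨_, hlt l hl i hi, rfl⟩
      · constructor
        · rintro ⟨g, h1, h2, h3⟩
          refine ⟨g - D1, by omega, by omega, ?_⟩
          change t v (D1 + (g - D1))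
          rwa [show D1 + (g - D1) = g by omega]
        · rintro ⟨g, h1, h2, h3⟩
          exact ⟨D1 + g, by omega, by omega, h3⟩
  -- the escape vertices
  have hw : ∀ j < 2 ^ (D1 + D2 - 1), ∃ v ∈ S, lf v = 2 * j + 1 ∧ Tch t 0 D1 v ∧
      Tch t D1 (D1 + D2) v := by
    intro j hj
    have hl : 2 * j + 1 < 2 ^ (D1 + D2) := by
      have : 2 ^ (D1 + D2) = 2 * 2 ^ (D1 + D2 - 1) := by
        rw [← pow_succ']; congr 1; omega
      omega
    have hx := h.lf_mk _ hl s (by omega)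
    have hQ := h.Q_mk _ hl s (by omega)
    simp only [lt_irrefl, if_false] at hQ
    have b1 := hq2 ((2 * j + 1) / 2 ^ D1) ((2 * j + 1) % 2 ^ D1)
    have b2 := hq2' ((2 * j + 1) / 2 ^ D1) ((2 * j + 1) % 2 ^ D1)
    obtain ⟨v, hv, h1, h2, h3⟩ := h.esc 0 D1 _ (by omega) (by omega) (by omega) (mk (2 * j + 1) s)
      (h.mk_mem _ hl s (by omega)) (by
        rw [hx, pow_zero, Nat.div_one, Nat.sub_zero]
        intro h0
        have h4 : 2 ∣ 2 * j + 1 :=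
          (dvd_pow_self 2 (by omega)).trans (Nat.dvd_of_mod_eq_zero h0)
        omega) hQ
    rw [pow_zero, Nat.div_one, Nat.div_one, hx] at h1
    obtain ⟨g, g1, g2, g3⟩ := h3
    exact ⟨v, hv, h1, h2, g, g1, by omega, g3⟩
  have : Nonempty V := ⟨mk 0 0⟩
  choose! w hw1 hw2 hw3 hw4 using hw
  set W := (range (2 ^ (D1 + D2 - 1))).image w with hWdef
  have hWS : W ⊆ S := by
    intro v hv
    obtain ⟨j, hj, rfl⟩ := mem_image.mp hv
    exact hw1 j (mem_range.mp hj)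
  have hWc : #W = 2 ^ (D1 + D2 - 1) := by
    rw [hWdef, card_image_of_injOn, card_range]
    intro j hj j' hj' he
    have e1 := hw2 j (by simpa using hj)
    have e2 := hw2 j' (by simpa using hj')
    change w j = w j' at he
    rw [he, e2] at e1
    omega
  have hpt : ∀ v ∈ S, (if ¬ IsMk mk (D1 + D2) (s + 1) v ∧ Tch t 0 (D1 + D2) v then 1 else 0) +
      (if v ∈ W then 1 else 0) ≤ (if ¬ IM v ∧ Tch t 0 D1 v then 1 else 0) +
      (if ¬ RM v ∧ Tch t D1 (D1 + D2) v then 1 else 0) := by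
    intro v hv
    have hT : Tch t 0 (D1 + D2) v → Tch t 0 D1 v ∨ Tch t D1 (D1 + D2) v := by
      rintro ⟨g, h1, h2, h3⟩
      by_cases h4 : g ≤ D1
      · exact Or.inl ⟨g, h1, h4, h3⟩
      · exact Or.inr ⟨g, by omega, h2, h3⟩
    have hW' : v ∈ W → Tch t 0 D1 v ∧ Tch t D1 (D1 + D2) v := by
      intro h1
      obtain ⟨j, hj, rfl⟩ := mem_image.mp h1
      exact ⟨hw3 j (mem_range.mp hj), hw4 j (mem_range.mp hj)⟩
    rw [if_congr (and_congr_left' (not_congr (hM v))) rfl rfl]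
    exact pt_aux (hdisj v) hT hW'
  have hsum := sum_le_sum hpt
  rw [sum_add_distrib, sum_add_distrib, ← card_filter, ← card_filter, ← card_filter,
    ← card_filter, filter_mem_eq_inter, inter_eq_right.mpr hWS, hWc] at hsum
  have hN2 : 2 ^ (D1 + D2) = 2 * 2 ^ (D1 + D2 - 1) := by
    rw [← pow_succ']; congr 1; omega
  have hc : ∑ v ∈ S, cnt t (D1 + D2) v =
      ∑ v ∈ S, cnt t D1 v + ∑ v ∈ S, cnt (fun v h => t v (D1 + h)) D2 v := by
    rw [← sum_add_distrib]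
    exact sum_congr rfl fun v _ => cnt_add t v D1 D2
  rw [hc]
  have e1 : (k + 1) * (s + 1) * 2 ^ (D1 + D2) = (k + 1) * s * 2 ^ (D1 + D2) +
      (k * 2 ^ (D1 + D2) + 2 ^ (D1 + D2)) := by ring
  rw [e1]
  omega

end step

open Classical in
/-- **The counting theorem.** -/
theorem count (k : ℕ) : ∀ (s : ℕ) {V : Type*} (S : Finset V) (lf : V → ℕ) (t Q : V → ℕ → Prop)
    (mk : ℕ → ℕ → V), Sys S lf t Q mk (Dp k s) s (qh k s) →
    k * s * 2 ^ Dp k s + 2 * #{v ∈ S | ¬ IsMk mk (Dp k s) s v ∧ Tch t 0 (Dp k s) v} ≤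
      2 * ∑ v ∈ S, cnt t (Dp k s) v := by
  induction k with
  | zero =>
    intro s V S lf t Q mk _
    rw [zero_mul, zero_mul, zero_add]
    exact count_triv S t _ _
  | succ k ih =>
    intro s
    induction s with
    | zero =>
      intro V S lf t Q mk _
      rw [mul_zero, zero_mul, zero_add]
      exact count_triv S t _ _
    | succ s ihs =>
      intro V S lf t Q mk h
      rw [Dp_succ_succ] at h ⊢
      have hq : qh (k + 1) (s + 1) = fun l i => if i < s then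
          qh (k + 1) s (l % 2 ^ Dp (k + 1) s) i else Dp (k + 1) s +
            qh k (2 ^ Dp (k + 1) s) (l / 2 ^ Dp (k + 1) s) (l % 2 ^ Dp (k + 1) s) := by
        funext l i
        rw [qh]
      rw [hq] at h
      refine count_step h (fun l i => (qh_bounds k _ l i).1) (fun l i => (qh_bounds k _ l i).2)
        (Dp_pos _ _) (fun c hc => ihs _ _ _ _ _ (h.inner hc))
        (ih _ _ _ _ _ _ h.outer)

end Pool.Agent.EQ
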