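import Pool.Agent.Work.MP_7a8e14_lc.EQ.Model

/-!
# Basic facts on derivations
-/

namespace Pool.Agent.EQ

variable {V L : Type*}

theorem Avail.symm {D : List (V × V)} {u v : V} (h : Avail D u v) : Avail D v u := by
  rcases h with h | h | h
  · exact Or.inl h.symm
  · exact Or.inr (Or.inr h)
  · exact Or.inr (Or.inl h)

theorem Avail.cons {D : List (V × V)} {u v : V} (p : V × V) (h : Avail D u v) :
    Avail (p :: D) u v := by
  rcases h with h | h | h
  · exact Or.inl h
  · exact Or.inr (Or.inl (List.mem_cons_of_mem _ h))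
  · exact Or.inr (Or.inr (List.mem_cons_of_mem _ h))

theorem LGraph.Der.length_le {G : LGraph V L} {E : List (V × V)} {D : List (V × V)} {c : ℕ}
    (h : G.Der E D c) : D.length ≤ c := by
  induction h with
  | nil => exact le_rfl
  | hyp _ _ ih => simp only [List.length_cons]; omega
  | trans _ _ _ ih => simp only [List.length_cons]; omega
  | cong _ _ ih => simp only [List.length_cons]; omega

/-! ## Indexed form -/

/-- available before step `i` -/
def Av (line : ℕ → V × V) (i : ℕ) (u v : V) : Prop :=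
  u = v ∨ ∃ j < i, line j = (u, v) ∨ line j = (v, u)

theorem Av.symm {line : ℕ → V × V} {i : ℕ} {u v : V} (h : Av line i u v) : Av line i v u := by
  rcases h with h | ⟨j, hj, h⟩
  · exact Or.inl h.symm
  · exact Or.inr ⟨j, hj, h.symm⟩

theorem Av.mono {line : ℕ → V × V} {i j : ℕ} {u v : V} (h : Av line i u v) (hij : i ≤ j) :
    Av line j u v := by
  rcases h with h | ⟨k, hk, h⟩
  · exact Or.inl h
  · exact Or.inr ⟨k, by omega, h⟩

/-- step `i` is justified; `m` is the middle vertex -/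
def Just (G : LGraph V L) (E : List (V × V)) (line : ℕ → V × V) (i : ℕ) (m : V) : Prop :=
  line i ∈ E ∨ (Av line i (line i).1 m ∧ Av line i m (line i).2) ∨
    G.Congr (Av line i) (line i).1 (line i).2

theorem congr_mono {G : LGraph V L} {R R' : V → V → Prop} (hR : ∀ u v, R u v → R' u v) {u v : V}
    (h : G.Congr R u v) : G.Congr R' u v := ⟨h.1, h.2.imp hR⟩

theorem Just.congr {G : LGraph V L} {E : List (V × V)} {line line' : ℕ → V × V} {i : ℕ} {m : V}
    (h : Just G E line i m) (he : ∀ j ≤ i, line' j = line j) : Just G E line' i m := by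
  have hA : ∀ u v, Av line i u v → Av line' i u v := by
    rintro u v (h | ⟨j, hj, h⟩)
    · exact Or.inl h
    · exact Or.inr ⟨j, hj, by rw [he j hj.le]; exact h⟩
  unfold Just
  rw [he i le_rfl]
  rcases h with h | ⟨h1, h2⟩ | h
  · exact Or.inl h
  · exact Or.inr (Or.inl ⟨hA _ _ h1, hA _ _ h2⟩)
  · exact Or.inr (Or.inr (congr_mono hA h))

theorem extend {G : LGraph V L} {E D : List (V × V)} {line : ℕ → V × V} {n : ℕ}
    (h1 : ∀ p, p ∈ D ↔ ∃ j < n, line j = p) (h2 : ∀ i < n, ∃ m, Just G E line i m) (p : V × V)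
    (hp : p ∈ E ∨ (∃ m, Avail D p.1 m ∧ Avail D m p.2) ∨ G.Congr (Avail D) p.1 p.2) :
    ∃ line' : ℕ → V × V, (∀ p', p' ∈ p :: D ↔ ∃ j < n + 1, line' j = p') ∧
      ∀ i < n + 1, ∃ m, Just G E line' i m := by
  set line' : ℕ → V × V := fun j => if j < n then line j else p with hl
  have e1 : ∀ j < n, line' j = line j := fun j hj => by simp [hl, hj]
  have e2 : line' n = p := by simp [hl]
  have hA : ∀ u v, Avail D u v → Av line' n u v := by
    rintro u v (h | h | h)
    · exact Or.inl h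
    · obtain ⟨j, hj, h⟩ := (h1 _).mp h
      exact Or.inr ⟨j, hj, Or.inl (by rw [e1 j hj, h])⟩
    · obtain ⟨j, hj, h⟩ := (h1 _).mp h
      exact Or.inr ⟨j, hj, Or.inr (by rw [e1 j hj, h])⟩
  refine ⟨line', fun p' => ?_, fun i hi => ?_⟩
  · rw [List.mem_cons, h1]
    constructor
    · rintro (rfl | ⟨j, hj, h⟩)
      · exact ⟨n, by omega, e2⟩
      · exact ⟨j, by omega, by rw [e1 j hj, h]⟩
    · rintro ⟨j, hj, h⟩
      rcases Nat.lt_succ_iff_lt_or_eq.mp hj with h3 | rfl
      · exact Or.inr ⟨j, h3, by rw [← e1 j h3, h]⟩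
      · exact Or.inl (by rw [← h, e2])
  · rcases Nat.lt_succ_iff_lt_or_eq.mp hi with h3 | rfl
    · obtain ⟨m, hm⟩ := h2 i h3
      exact ⟨m, hm.congr fun j hj => e1 j (by omega)⟩
    · rcases hp with hp | ⟨m, hm1, hm2⟩ | hp
      · exact ⟨p.1, Or.inl (by rw [e2]; exact hp)⟩
      · exact ⟨m, Or.inr (Or.inl ⟨by rw [e2]; exact hA _ _ hm1, by rw [e2]; exact hA _ _ hm2⟩)⟩
      · exact ⟨p.1, Or.inr (Or.inr (by rw [e2]; exact congr_mono hA hp))⟩

theorem LGraph.Der.indexed {G : LGraph V L} {E : List (V × V)} {D : List (V × V)} {c : ℕ}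
    (h : G.Der E D c) (x : V) : ∃ line : ℕ → V × V,
      (∀ p, p ∈ D ↔ ∃ j < D.length, line j = p) ∧ ∀ i < D.length, ∃ m, Just G E line i m := by
  induction h with
  | nil => exact ⟨fun _ => (x, x), by simp, by simp⟩
  | hyp hD huv ih =>
    obtain ⟨line, h1, h2⟩ := ih
    exact extend h1 h2 _ (Or.inl huv)
  | trans hD ha hb ih =>
    obtain ⟨line, h1, h2⟩ := ih
    exact extend h1 h2 _ (Or.inr (Or.inl ⟨_, ha, hb⟩))
  | cong hD hc ih =>
    obtain ⟨line, h1, h2⟩ := ih
    exact extend h1 h2 _ (Or.inr (Or.inr hc))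

end Pool.Agent.EQ
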