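import Pool.Agent.Work.MP_7a8e14_lc.EQ.UDefs
import Pool.Agent.Work.MP_7a8e14_lc.EQ.Ack

/-!
# Shortcuts in a forest with ranks
-/

open Finset

namespace Pool.Agent.EQ

variable {V : Type*}

section basic

variable {par : V → Option V} {ρ : V → ℕ}

theorem anc_rank (hρ : ∀ v a, par v = some a → ρ v < ρ a) {v a : V} (h : Anc par v a) :
    ρ v < ρ a := by
  induction h with
  | single h => exact hρ _ _ h
  | tail _ h ih => exact ih.trans (hρ _ _ h)

/-- ancestor or self -/
def AncE (par : V → Option V) (v a : V) : Prop := v = a ∨ Anc par v a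

theorem AncE.trans {v a b : V} (h1 : AncE par v a) (h2 : AncE par a b) : AncE par v b := by
  rcases h1 with rfl | h1
  · exact h2
  · rcases h2 with rfl | h2
    · exact Or.inr h1
    · exact Or.inr (Relation.TransGen.trans h1 h2)

theorem AncE.rank (hρ : ∀ v a, par v = some a → ρ v < ρ a) {v a : V} (h : AncE par v a) :
    ρ v ≤ ρ a := by
  rcases h with rfl | h
  · exact le_rfl
  · exact (anc_rank hρ h).le

/-- a proper ancestor is an ancestor-or-self of the parent -/
theorem anc_cases {v a p : V} (hp : par v = some p) (h : Anc par v a) : AncE par p a := by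
  obtain ⟨w, h1, h2⟩ := Relation.TransGen.head'_iff.mp h
  rw [hp] at h1
  obtain rfl := Option.some.inj h1
  rcases Relation.reflTransGen_iff_eq_or_transGen.mp h2 with h3 | h3
  · exact Or.inl h3.symm
  · exact Or.inr h3

theorem anc_some {v a : V} (h : Anc par v a) : ∃ p, par v = some p := by
  obtain ⟨w, h1, -⟩ := Relation.TransGen.head'_iff.mp h
  exact ⟨w, h1⟩

/-- linear order -/
theorem ancE_linear {v a c : V} (ha : AncE par v a) (hc : AncE par v c) :
    AncE par a c ∨ Anc par c a := by
  rcases ha with rfl | ha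
  · exact Or.inl hc
  rcases hc with rfl | hc
  · exact Or.inr ha
  induction ha using Relation.TransGen.head_induction_on with
  | @single v h1 => exact Or.inl (anc_cases h1 hc)
  | @head v x h1 h2 ih =>
    rcases anc_cases h1 hc with rfl | h3
    · exact Or.inr h2
    · exact ih h3

/-- `a` is the highest ancestor-or-self of `v` of rank `< θ` -/
def Lo (par : V → Option V) (ρ : V → ℕ) (θ : ℕ) (v a : V) : Prop :=
  AncE par v a ∧ ρ a < θ ∧ ∀ p, par a = some p → θ ≤ ρ p

theorem exists_lo (hρ : ∀ v a, par v = some a → ρ v < ρ a) (θ : ℕ) : ∀ (N : ℕ) (v : V), θ - ρ v ≤ N →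
    ρ v < θ → ∃ a, Lo par ρ θ v a := by
  intro N
  induction N with
  | zero => intro v h1 h2; omega
  | succ N ih =>
    intro v h1 h2
    by_cases h3 : ∃ p, par v = some p ∧ ρ p < θ
    · obtain ⟨p, hp, hpθ⟩ := h3
      have := hρ v p hp
      obtain ⟨a, h4, h5⟩ := ih p (by omega) hpθ
      exact ⟨a, AncE.trans (Or.inr (Relation.TransGen.single hp)) h4, h5⟩
    · push Not at h3
      exact ⟨v, Or.inl rfl, h2, h3⟩

theorem Lo.unique (hρ : ∀ v a, par v = some a → ρ v < ρ a) {θ : ℕ} {v a b : V}
    (ha : Lo par ρ θ v a) (hb : Lo par ρ θ v b) : a = b := by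
  have key : ∀ a b, Lo par ρ θ v a → Lo par ρ θ v b → AncE par a b → a = b := by
    rintro a b ⟨-, h2, h3⟩ ⟨-, h5, -⟩ (h7 | h7)
    · exact h7
    · exfalso
      obtain ⟨p, hp⟩ := anc_some h7
      have h8 := h3 p hp
      have h9 := AncE.rank hρ (anc_cases hp h7)
      omega
  rcases ancE_linear ha.1 hb.1 with h | h
  · exact key a b ha hb h
  · exact (key b a hb ha (Or.inr h)).symm

/-- an ancestor of rank `< θ` is below `Lo`; one of rank `≥ θ` is above -/
theorem Lo.above (hρ : ∀ v a, par v = some a → ρ v < ρ a) {θ : ℕ} {v a b : V}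
    (ha : Lo par ρ θ v a) (hb : AncE par v b) (hθ : θ ≤ ρ b) :
    ∃ p, par a = some p ∧ AncE par p b := by
  rcases ancE_linear ha.1 hb with h | h
  · rcases h with rfl | h
    · exact absurd ha.2.1 (by omega)
    · obtain ⟨p, hp⟩ := anc_some h
      exact ⟨p, hp, anc_cases hp h⟩
  · have := anc_rank hρ h
    have := ha.2.1
    omega

theorem Lo.below (hρ : ∀ v a, par v = some a → ρ v < ρ a) {θ : ℕ} {v a b : V}
    (ha : Lo par ρ θ v a) (hb : AncE par v b) (hθ : ρ b < θ) : AncE par b a := by
  rcases ancE_linear hb ha.1 with h | h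
  · exact h
  · obtain ⟨p, hp⟩ := anc_some h
    have h1 := ha.2.2 p hp
    have h2 := AncE.rank hρ (anc_cases hp h)
    omega

end basic

/-- the thresholds -/
def Bk : ℕ → ℕ → ℕ
  | 0, b => 2 * b
  | k + 1, b => (Bk k)^[b + 1] b

theorem Bk_zero (b : ℕ) : Bk 0 b = 2 * b := rfl

theorem Bk_succ (k b : ℕ) : Bk (k + 1) b = (Bk k)^[b + 1] b := rfl

theorem iter_ge {f : ℕ → ℕ} {b0 : ℕ} (hf : ∀ b, b0 ≤ b → b < f b) {b : ℕ} (hb : b0 ≤ b) (j : ℕ) :
    b + j ≤ f^[j] b := by
  induction j with
  | zero => exact le_rfl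
  | succ j ih =>
    rw [Function.iterate_succ_apply']
    have := hf (f^[j] b) (by omega)
    omega

theorem lt_Bk (k : ℕ) : ∀ b, 1 ≤ b → b < Bk k b := by
  induction k with
  | zero => intro b hb; rw [Bk_zero]; omega
  | succ k ih =>
    intro b hb
    rw [Bk_succ]
    have := iter_ge ih hb (b + 1)
    omega

/-- the threshold number `j` -/
def th (k b j : ℕ) : ℕ := (Bk k)^[j] b

theorem th_succ (k b j : ℕ) : th k b (j + 1) = Bk k (th k b j) := by
  unfold th
  rw [Function.iterate_succ_apply']

theorem th_lt {k b : ℕ} (hb : 1 ≤ b) (j : ℕ) : th k b j < th k b (j + 1) := by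
  rw [th_succ]
  refine lt_Bk k _ ?_
  have := iter_ge (lt_Bk k) hb j
  unfold th
  omega

theorem th_mono {k b : ℕ} (hb : 1 ≤ b) : StrictMono (th k b) := strictMono_nat_of_lt_succ (th_lt hb)

/-- position of a rank among the thresholds -/
theorem exists_th {k b r : ℕ} (hr : b ≤ r) (hr' : r < Bk (k + 1) b) :
    ∃ j ≤ b, th k b j ≤ r ∧ r < th k b (j + 1) := by
  have h1 : r < th k b (b + 1) := hr'
  have hex : ∃ j, r < th k b (j + 1) := ⟨b, h1⟩
  classical
  refine ⟨Nat.find hex, Nat.find_min' hex h1, ?_, Nat.find_spec hex⟩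
  rcases Nat.eq_zero_or_pos (Nat.find hex) with h0 | h0
  · rw [h0]; exact hr
  · have := Nat.find_min hex (m := Nat.find hex - 1) (by omega)
    rw [show Nat.find hex - 1 + 1 = Nat.find hex by omega] at this
    omega

theorem Reach.mono {S S' : V → V → Prop} (hS : ∀ u v, S u v → S' u v) :
    ∀ {k k' : ℕ} {u v : V}, k ≤ k' → Reach S k u v → Reach S' k' u v := by
  intro k
  induction k with
  | zero =>
    intro k' u v _ h
    cases k' with
    | zero => exact h
    | succ k' => exact Or.inl h
  | succ k ih =>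
    intro k' u v hk h
    obtain ⟨k', rfl⟩ : ∃ m, k' = m + 1 := ⟨k' - 1, by omega⟩
    rcases h with h | ⟨w, h1, h2⟩
    · exact Or.inl h
    · exact Or.inr ⟨w, hS _ _ h1, ih (by omega) h2⟩

/-- the vertices of a short path -/
theorem exists_own [DecidableEq V] {S : V → V → Prop} : ∀ (K : ℕ) (w a : V), Reach S K w a →
    ∃ O : Finset V, #O ≤ K ∧ (w = a ∨ a ∈ O) ∧ (∀ x ∈ O, S w x ∨ ∃ y ∈ O, S y x) ∧
      ∀ x ∈ O, Relation.TransGen S w x ∧ Relation.ReflTransGen S x a := by
  intro K
  induction K with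
  | zero =>
    intro w a h
    exact ⟨∅, by simp, Or.inl h, by simp, by simp⟩
  | succ K ih =>
    rintro v a (h | ⟨w, h1, h2⟩)
    · exact ⟨∅, by simp, Or.inl h, by simp, by simp⟩
    · obtain ⟨O, g1, g2, g3, g4⟩ := ih w a h2
      have hwa : Relation.ReflTransGen S w a := by
        rcases g2 with rfl | g2
        · exact Relation.ReflTransGen.refl
        · exact (g4 a g2).1.to_reflTransGen
      refine ⟨insert w O, (card_insert_le _ _).trans (by omega), Or.inr ?_, fun x hx => ?_,
        fun x hx => ?_⟩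
      · rcases g2 with rfl | g2
        · exact mem_insert_self _ _
        · exact mem_insert_of_mem g2
      · rcases mem_insert.mp hx with rfl | hx
        · exact Or.inl h1
        · right
          rcases g3 x hx with h3 | ⟨y, h3, h4⟩
          · exact ⟨w, mem_insert_self _ _, h3⟩
          · exact ⟨y, mem_insert_of_mem h3, h4⟩
      · rcases mem_insert.mp hx with rfl | hx
        · exact ⟨Relation.TransGen.single h1, hwa⟩
        · exact ⟨Relation.TransGen.head h1 (g4 x hx).1, (g4 x hx).2⟩

/-- A set of shortcuts for the ranks in `[b, R)`. -/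
structure Lv (par : V → Option V) (ρ : V → ℕ) (b R K : ℕ) (cost : ℕ → ℕ) [DecidableEq V]
    (S : Finset (V × V)) : Prop where
  anc : ∀ v a, (v, a) ∈ S → Anc par v a ∧ b ≤ ρ v ∧ ρ a < R
  edge : ∀ v a, par v = some a → b ≤ ρ v → ρ a < R → (v, a) ∈ S
  jus : ∀ v a, (v, a) ∈ S → par v = some a ∨ ∃ w, (v, w) ∈ S ∧ (w, a) ∈ S
  reach : ∀ v a, Anc par v a → b ≤ ρ v → ρ a < R → Reach (fun x y => (x, y) ∈ S) K v a
  card : ∀ v, #{p ∈ S | p.1 = v} ≤ cost (ρ v)

section level

variable [Fintype V] [DecidableEq V] {par : V → Option V} {ρ : V → ℕ}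

omit [Fintype V] [DecidableEq V] in
/-- ancestors have different ranks -/
theorem anc_rank_inj (hρ : ∀ v a, par v = some a → ρ v < ρ a) {v a c : V} (ha : Anc par v a)
    (hc : Anc par v c) (h : ρ a = ρ c) : a = c := by
  rcases ancE_linear (Or.inr ha) (Or.inr hc) with h1 | h1
  · rcases h1 with h1 | h1
    · exact h1
    · have := anc_rank hρ h1; omega
  · have := anc_rank hρ h1; omega

open Classical in
/-- all ancestor pairs -/
theorem level_all (hρ : ∀ v a, par v = some a → ρ v < ρ a) (b R : ℕ) (cost : ℕ → ℕ)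
    (hc : ∀ r, b ≤ r → R - r ≤ cost r + 1) :
    ∃ S : Finset (V × V), Lv par ρ b R 1 cost S := by
  refine ⟨univ.filter fun p : V × V => Anc par p.1 p.2 ∧ b ≤ ρ p.1 ∧ ρ p.2 < R,
    ?_, ?_, ?_, ?_, ?_⟩
  · intro v a h
    exact (mem_filter.mp h).2
  · intro v a h h1 h2
    exact mem_filter.mpr ⟨mem_univ _, Relation.TransGen.single h, h1, h2⟩
  · intro v a h
    obtain ⟨h1, h2, h3⟩ := (mem_filter.mp h).2
    obtain ⟨p, hp⟩ := anc_some h1
    have h4 := hρ v p hp
    rcases anc_cases hp h1 with rfl | h5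
    · exact Or.inl hp
    · right
      have h6 := anc_rank hρ h5
      refine ⟨p, mem_filter.mpr ⟨mem_univ _, Relation.TransGen.single hp, h2, ?_⟩,
        mem_filter.mpr ⟨mem_univ _, h5, ?_, h3⟩⟩
      · exact h6.trans h3
      · exact h2.trans h4.le
  · intro v a h h1 h2
    exact Or.inr ⟨a, mem_filter.mpr ⟨mem_univ _, h, h1, h2⟩, rfl⟩
  · intro v
    by_cases hb : b ≤ ρ v
    · have h1 := hc _ hb
      calc #{p ∈ (univ.filter fun p : V × V => Anc par p.1 p.2 ∧ b ≤ ρ p.1 ∧ ρ p.2 < R) |
            p.1 = v}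
          ≤ #(Ioo (ρ v) R) := by
            refine card_le_card_of_injOn (fun p => ρ p.2) (fun p hp => ?_) ?_
            · have hp' := mem_filter.mp (mem_coe.mp hp)
              have h2 := (mem_filter.mp hp'.1).2
              rw [mem_coe, mem_Ioo]
              refine ⟨?_, h2.2.2⟩
              rw [← hp'.2]
              exact anc_rank hρ h2.1
            · intro p hp q hq hpq
              have hp' := mem_filter.mp (mem_coe.mp hp)
              have hq' := mem_filter.mp (mem_coe.mp hq)
              have h2 := (mem_filter.mp hp'.1).2.1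
              have h3 := (mem_filter.mp hq'.1).2.1
              rw [hp'.2] at h2
              rw [hq'.2] at h3
              exact Prod.ext (hp'.2.trans hq'.2.symm) (anc_rank_inj hρ h2 h3 hpq)
        _ = R - ρ v - 1 := by rw [Nat.card_Ioo]
        _ ≤ cost (ρ v) := by omega
    · rw [card_eq_zero.mpr]
      · exact Nat.zero_le _
      · rw [filter_eq_empty_iff]
        intro p hp hpv
        have := (mem_filter.mp hp).2.2.1
        rw [hpv] at this
        exact hb this

open Classical in
/-- **The level step.** -/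
theorem level_step (hρ : ∀ v a, par v = some a → ρ v < ρ a) {k : ℕ} {cost : ℕ → ℕ}
    (ih : ∀ b, 1 ≤ b → ∀ R ≤ Bk k b, ∃ S : Finset (V × V), Lv par ρ b R (k + 1) cost S)
    {b R : ℕ} (hb : 1 ≤ b) (hR : R ≤ Bk (k + 1) b) :
    ∃ S : Finset (V × V), Lv par ρ b R (k + 2) (fun r => cost r + 2 * r + k + 4) S := by
  -- the intervals
  have hint : ∀ r, b ≤ r → r < R → ∃ i ≤ b, th k b i ≤ r ∧ r < min (th k b (i + 1)) R := by
    intro r h1 h2
    obtain ⟨i, h3, h4, h5⟩ := exists_th (k := k) h1 (by omega)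
    exact ⟨i, h3, h4, lt_min h5 h2⟩
  have hth1 : ∀ i, 1 ≤ th k b i := by
    intro i
    have := iter_ge (lt_Bk k) hb i
    unfold th
    omega
  have hbth : ∀ i, b ≤ th k b i := by
    intro i
    have := iter_ge (lt_Bk k) hb i
    unfold th
    omega
  have hmono := th_mono (k := k) hb
  have hS : ∀ i, ∃ S : Finset (V × V), Lv par ρ (th k b i) (min (th k b (i + 1)) R) (k + 1) cost S :=
    fun i => ih _ (hth1 i) _ ((min_le_left _ _).trans (le_of_eq (th_succ k b i)))
  choose Sj hSj using hS
  -- own paths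
  have hown : ∀ v, ∃ O : Finset V, #O ≤ k + 1 ∧ ∀ i, th k b i ≤ ρ v →
      ρ v < min (th k b (i + 1)) R →
      (∀ a, Lo par ρ (min (th k b (i + 1)) R) v a → v = a ∨ a ∈ O) ∧
      (∀ x ∈ O, (v, x) ∈ Sj i ∨ ∃ y ∈ O, (y, x) ∈ Sj i) ∧
      ∀ x ∈ O, Anc par v x ∧ ρ x < R := by
    intro v
    by_cases hv : ∃ i, th k b i ≤ ρ v ∧ ρ v < min (th k b (i + 1)) R
    · obtain ⟨i, h1, h2⟩ := hv
      obtain ⟨a, ha⟩ := exists_lo hρ _ _ v le_rfl h2
      have hreach : Reach (fun x y => (x, y) ∈ Sj i) (k + 1) v a := by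
        rcases ha.1 with h3 | h3
        · exact Or.inl h3
        · exact (hSj i).reach v a h3 h1 ha.2.1
      obtain ⟨O, g1, g2, g3, g4⟩ := exists_own (k + 1) v a hreach
      refine ⟨O, g1, fun i' h1' h2' => ?_⟩
      obtain rfl : i' = i := by
        rcases lt_trichotomy i' i with h | h | h
        · have h5 : th k b (i' + 1) ≤ th k b i := hmono.monotone h
          have := lt_min_iff.mp h2'
          omega
        · exact h
        · have h5 : th k b (i + 1) ≤ th k b i' := hmono.monotone h
          have := lt_min_iff.mp h2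
          omega
      have hanc : ∀ x y, Relation.TransGen (fun x y => (x, y) ∈ Sj i') x y → Anc par x y := by
        intro x y h
        induction h with
        | single h => exact ((hSj i').anc _ _ h).1
        | tail _ h ih => exact ih.trans ((hSj i').anc _ _ h).1
      refine ⟨fun a' ha' => ?_, g3, fun x hx => ⟨hanc _ _ (g4 x hx).1, ?_⟩⟩
      · rw [ha'.unique hρ ha]
        exact g2
      · obtain ⟨y, -, hy⟩ := Relation.TransGen.tail'_iff.mp (g4 x hx).1
        exact (((hSj i').anc _ _ hy).2.2).trans_le (min_le_right _ _)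
    · refine ⟨∅, by simp, fun i h1 h2 => absurd ⟨i, h1, h2⟩ hv⟩
  choose O hO1 hO2 using hown
  -- the set
  set S : Finset (V × V) := {p : V × V | b ≤ ρ p.1 ∧ ρ p.1 < R ∧
    ((par p.1 = some p.2 ∧ ρ p.2 < R) ∨ (∃ i, p ∈ Sj i) ∨
      (∃ j, 1 ≤ j ∧ j ≤ b + 1 ∧ p.1 ≠ p.2 ∧ Lo par ρ (min (th k b j) R) p.1 p.2) ∨
      (∃ j, 1 ≤ j ∧ j ≤ b + 1 ∧ ∃ a, Lo par ρ (min (th k b j) R) p.1 a ∧ par a = some p.2 ∧
        ρ p.2 < R) ∨ p.2 ∈ O p.1)} with hSdef
  have hmem : ∀ v a, (v, a) ∈ S ↔ b ≤ ρ v ∧ ρ v < R ∧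
    ((par v = some a ∧ ρ a < R) ∨ (∃ i, (v, a) ∈ Sj i) ∨
      (∃ j, 1 ≤ j ∧ j ≤ b + 1 ∧ v ≠ a ∧ Lo par ρ (min (th k b j) R) v a) ∨
      (∃ j, 1 ≤ j ∧ j ≤ b + 1 ∧ ∃ c, Lo par ρ (min (th k b j) R) v c ∧ par c = some a ∧
        ρ a < R) ∨ a ∈ O v) := by
    intro v a
    rw [hSdef, mem_filter]
    exact ⟨fun h => h.2, fun h => ⟨mem_univ _, h⟩⟩
  have hSjS : ∀ i v a, (v, a) ∈ Sj i → (v, a) ∈ S := by
    intro i v a h
    obtain ⟨h1, h2, h3⟩ := (hSj i).anc v a h
    have h4 := anc_rank hρ h1
    have h5 := hbth i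
    have h6 := (lt_min_iff.mp h3).2
    exact (hmem v a).mpr ⟨by omega, by omega, Or.inr (Or.inl ⟨i, h⟩)⟩
  refine ⟨S, ?_, ?_, ?_, ?_, ?_⟩
  · -- ancestors
    intro v a h
    obtain ⟨h1, h2, h3⟩ := (hmem v a).mp h
    rcases h3 with ⟨h3, h4⟩ | ⟨i, h3⟩ | ⟨j, -, -, h3, h4⟩ | ⟨j, -, -, c, h3, h4, h5⟩ | h3
    · exact ⟨Relation.TransGen.single h3, h1, h4⟩
    · obtain ⟨h4, h5, h6⟩ := (hSj i).anc v a h3
      exact ⟨h4, h1, (lt_min_iff.mp h6).2⟩
    · refine ⟨?_, h1, (lt_min_iff.mp h4.2.1).2⟩
      rcases h4.1 with h5 | h5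
      · exact absurd h5 h3
      · exact h5
    · refine ⟨?_, h1, h5⟩
      rcases h3.1 with h6 | h6
      · rw [h6]; exact Relation.TransGen.single h4
      · exact h6.tail h4
    · obtain ⟨i, hi, h4, h5⟩ := hint _ h1 h2
      have h6 := (hO2 v i h4 h5).2.2 a h3
      exact ⟨h6.1, h1, h6.2⟩
  · -- edges
    intro v a h h1 h2
    have h3 := hρ v a h
    exact (hmem v a).mpr ⟨h1, by omega, Or.inl ⟨h, h2⟩⟩
  · -- justification
    have jS : ∀ i v a, (v, a) ∈ Sj i → par v = some a ∨ ∃ w, (v, w) ∈ S ∧ (w, a) ∈ S := by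
      intro i v a h
      rcases (hSj i).jus v a h with h1 | ⟨w, h1, h2⟩
      · exact Or.inl h1
      · exact Or.inr ⟨w, hSjS i _ _ h1, hSjS i _ _ h2⟩
    have jO : ∀ v a, b ≤ ρ v → ρ v < R → a ∈ O v →
        par v = some a ∨ ∃ w, (v, w) ∈ S ∧ (w, a) ∈ S := by
      intro v a h1 h2 h3
      obtain ⟨i, hi, h4, h5⟩ := hint _ h1 h2
      rcases (hO2 v i h4 h5).2.1 a h3 with h6 | ⟨y, h6, h7⟩
      · exact jS i v a h6
      · exact Or.inr ⟨y, (hmem v y).mpr ⟨h1, h2, Or.inr (Or.inr (Or.inr (Or.inr h6)))⟩,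
          hSjS i _ _ h7⟩
    have jU : ∀ v a c j, b ≤ ρ v → ρ v < R → 1 ≤ j → j ≤ b + 1 →
        Lo par ρ (min (th k b j) R) v c → par c = some a → ρ a < R →
        par v = some a ∨ ∃ w, (v, w) ∈ S ∧ (w, a) ∈ S := by
      intro v a c j h1 h2 h3 h4 h5 h6 h7
      by_cases hvc : v = c
      · rw [hvc]; exact Or.inl h6
      · right
        have h8 := AncE.rank hρ h5.1
        have h9 := hρ c a h6
        exact ⟨c, (hmem v c).mpr ⟨h1, h2, Or.inr (Or.inr (Or.inl ⟨j, h3, h4, hvc, h5⟩))⟩,
          (hmem c a).mpr ⟨by omega, by omega, Or.inl ⟨h6, h7⟩⟩⟩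
    have jL : ∀ v, b ≤ ρ v → ρ v < R → ∀ i ≤ b, th k b i ≤ ρ v →
        ρ v < min (th k b (i + 1)) R → ∀ j, i + 1 ≤ j → j ≤ b + 1 → ∀ a, v ≠ a →
        Lo par ρ (min (th k b j) R) v a → par v = some a ∨ ∃ w, (v, w) ∈ S ∧ (w, a) ∈ S := by
      intro v h1 h2 i hi h3 h4 j hj
      induction j, hj using Nat.le_induction with
      | base =>
        intro _ a hne ha
        rcases (hO2 v i h3 h4).1 a ha with h5 | h5
        · exact absurd h5 hne
        · exact jO v a h1 h2 h5
      | succ j hj ihj =>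
        intro hjb a hne ha
        have hlt : ρ v < min (th k b j) R := by
          refine h4.trans_le (min_le_min_right _ (hmono.monotone hj))
        obtain ⟨c, hc⟩ := exists_lo hρ _ _ v le_rfl hlt
        by_cases hcase : ∃ p, par c = some p ∧ ρ p < min (th k b (j + 1)) R
        · obtain ⟨p, hp, hpθ⟩ := hcase
          have hpθ' := lt_min_iff.mp hpθ
          have hpj : min (th k b j) R ≤ ρ p := hc.2.2 p hp
          have hpj' : th k b j ≤ ρ p := by
            rcases le_total (th k b j) R with h | h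
            · rwa [min_eq_left h] at hpj
            · rw [min_eq_right h] at hpj; omega
          have hpa : AncE par p a := by
            -- `a` is above `c` and has rank at least the rank of `p`
            have h5 : AncE par v p := hc.1.trans (Or.inr (Relation.TransGen.single hp))
            exact ha.below hρ h5 hpθ
          by_cases hpa' : p = a
          · subst hpa'
            exact jU v p c j h1 h2 (by omega) (by omega) hc hp hpθ'.2
          · right
            refine ⟨p, (hmem v p).mpr ⟨h1, h2, Or.inr (Or.inr (Or.inr (Or.inl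
              ⟨j, by omega, by omega, c, hc, hp, hpθ'.2⟩)))⟩, ?_⟩
            have hLo : Lo par ρ (min (th k b (j + 1)) R) p a := ⟨hpa, ha.2.1, ha.2.2⟩
            rcases (hO2 p j hpj' hpθ).1 a hLo with h6 | h6
            · exact absurd h6 hpa'
            · refine (hmem p a).mpr ⟨?_, hpθ'.2, Or.inr (Or.inr (Or.inr (Or.inr h6)))⟩
              have := hbth j
              omega
        · -- the two `lo` agree
          push Not at hcase
          have hLo : Lo par ρ (min (th k b (j + 1)) R) v c :=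
            ⟨hc.1, hc.2.1.trans_le (min_le_min_right _ (hmono.monotone (by omega))), hcase⟩
          have hac : a = c := ha.unique hρ hLo
          rw [hac] at hne ⊢
          exact ihj (by omega) c hne hc
    intro v a h
    obtain ⟨h1, h2, h3⟩ := (hmem v a).mp h
    rcases h3 with ⟨h3, h4⟩ | ⟨i, h3⟩ | ⟨j, hj1, hj2, h3, h4⟩ | ⟨j, hj1, hj2, c, h3, h4, h5⟩ | h3
    · exact Or.inl h3
    · exact jS i v a h3
    · obtain ⟨i, hi, h5, h6⟩ := hint _ h1 h2
      rcases Nat.lt_or_ge i j with h7 | h7
      · exact jL v h1 h2 i hi h5 h6 j h7 hj2 a h3 h4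
      · -- `ρ v ≥ th i ≥ th j`, impossible
        exfalso
        have h8 := AncE.rank hρ h4.1
        have h9 := (lt_min_iff.mp h4.2.1).1
        have h10 : th k b j ≤ th k b i := hmono.monotone h7
        omega
    · exact jU v a c j h1 h2 hj1 hj2 h3 h4 h5
    · exact jO v a h1 h2 h3
  · -- short paths
    intro v a h h1 h2
    have h3 := anc_rank hρ h
    obtain ⟨i, hi, h4, h5⟩ := hint _ h1 (by omega)
    obtain ⟨j, hj, h6, h7⟩ := hint (ρ a) (by omega) h2
    rcases Nat.lt_or_ge i j with hij | hij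
    · have hlt : ρ v < min (th k b j) R := by
        refine lt_min ?_ (by omega)
        have h8 := (lt_min_iff.mp h5).1
        have h9 : th k b (i + 1) ≤ th k b j := hmono.monotone hij
        omega
      obtain ⟨c, hc⟩ := exists_lo hρ _ _ v le_rfl hlt
      obtain ⟨p, hp, hpa⟩ := hc.above hρ (Or.inr h) ((min_le_left _ _).trans h6)
      have h8 := AncE.rank hρ hpa
      right
      refine ⟨p, (hmem v p).mpr ⟨h1, by omega, Or.inr (Or.inr (Or.inr (Or.inl
        ⟨j, by omega, by omega, c, hc, hp, by omega⟩)))⟩, ?_⟩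
      rcases hpa with hpa | hpa
      · exact Reach.mono (S := fun x y => (x, y) ∈ Sj j) (fun _ _ h => hSjS j _ _ h)
          (Nat.zero_le _) (show Reach _ 0 p a from hpa)
      · have h9 : th k b j ≤ ρ p := by
          have h10 := hc.2.2 p hp
          rcases le_total (th k b j) R with h | h
          · rwa [min_eq_left h] at h10
          · rw [min_eq_right h] at h10; omega
        exact Reach.mono (fun _ _ h => hSjS j _ _ h) le_rfl ((hSj j).reach p a hpa h9 h7)
    · have hij' : i = j := by
        refine le_antisymm ?_ hij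
        by_contra hlt
        have h8 := (lt_min_iff.mp h7).1
        have h9 : th k b (j + 1) ≤ th k b i := hmono.monotone (by omega)
        omega
      subst hij'
      exact Reach.mono (fun _ _ h => hSjS i _ _ h) (by omega) ((hSj i).reach v a h h4 h7)
  · -- number
    intro v
    by_cases hv : b ≤ ρ v ∧ ρ v < R
    · obtain ⟨i, hi, h4, h5⟩ := hint _ hv.1 hv.2
      -- the five parts
      have hsub : ({p ∈ S | p.1 = v} : Finset (V × V)) ⊆
          ((((univ.filter fun a => par v = some a).image fun a => (v, a)) ∪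
            {p ∈ Sj i | p.1 = v}) ∪
            (((Icc 1 (b + 1)).biUnion fun j =>
              (univ.filter fun a => Lo par ρ (min (th k b j) R) v a).image fun a => (v, a)) ∪
            ((Icc 1 (b + 1)).biUnion fun j =>
              (univ.filter fun a => ∃ c, Lo par ρ (min (th k b j) R) v c ∧
                par c = some a).image fun a => (v, a)))) ∪ ((O v).image fun a => (v, a)) := by
        rintro ⟨x, a⟩ hp
        obtain ⟨h6, h7⟩ := mem_filter.mp hp
        change x = v at h7
        subst h7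
        obtain ⟨-, -, h8⟩ := (hmem x a).mp h6
        simp only [mem_union, mem_image, mem_filter, mem_univ, true_and, mem_biUnion, mem_Icc,
          Prod.mk.injEq, exists_eq_right, and_true]
        rcases h8 with ⟨h8, -⟩ | ⟨i', h8⟩ | ⟨j, hj1, hj2, -, h8⟩ | ⟨j, hj1, hj2, c, h8, h9, -⟩ | h8
        · exact Or.inl (Or.inl (Or.inl h8))
        · refine Or.inl (Or.inl (Or.inr ?_))
          obtain ⟨h9, h10, h11⟩ := (hSj i').anc x a h8
          have h12 := anc_rank hρ h9
          have hii : i' = i := by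
            rcases lt_trichotomy i' i with h | h | h
            · have h13 : th k b (i' + 1) ≤ th k b i := hmono.monotone h
              have := lt_min_iff.mp h11
              omega
            · exact h
            · have h13 : th k b (i + 1) ≤ th k b i' := hmono.monotone h
              have := lt_min_iff.mp h5
              omega
          rw [← hii]
          exact h8
        · exact Or.inl (Or.inr (Or.inl ⟨j, ⟨hj1, hj2⟩, h8⟩))
        · exact Or.inl (Or.inr (Or.inr ⟨j, ⟨hj1, hj2⟩, c, h8, h9⟩))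
        · exact Or.inr h8
      have n1 : #((univ.filter fun a => par v = some a).image fun a => (v, a)) ≤ 1 := by
        refine card_image_le.trans (card_le_one.mpr ?_)
        intro a ha a' ha'
        have e1 := (mem_filter.mp ha).2
        have e2 := (mem_filter.mp ha').2
        rw [e1] at e2
        exact Option.some.inj e2
      have n2 := (hSj i).card v
      have n3 : #((Icc 1 (b + 1)).biUnion fun j =>
          (univ.filter fun a => Lo par ρ (min (th k b j) R) v a).image fun a => (v, a)) ≤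
            b + 1 := by
        refine (card_biUnion_le_card_mul _ _ 1 fun j _ => card_image_le.trans
          (card_le_one.mpr ?_)).trans (by simp)
        intro a ha a' ha'
        exact (mem_filter.mp ha).2.unique hρ (mem_filter.mp ha').2
      have n4 : #((Icc 1 (b + 1)).biUnion fun j =>
          (univ.filter fun a => ∃ c, Lo par ρ (min (th k b j) R) v c ∧
            par c = some a).image fun a => (v, a)) ≤ b + 1 := by
        refine (card_biUnion_le_card_mul _ _ 1 fun j _ => card_image_le.trans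
          (card_le_one.mpr ?_)).trans (by simp)
        intro a ha a' ha'
        obtain ⟨c, hc1, hc2⟩ := (mem_filter.mp ha).2
        obtain ⟨c', hc1', hc2'⟩ := (mem_filter.mp ha').2
        rw [hc1.unique hρ hc1', hc2'] at hc2
        exact (Option.some.inj hc2).symm
      have n5 : #((O v).image fun a => (v, a)) ≤ k + 1 := card_image_le.trans (hO1 v)
      refine (card_le_card hsub).trans ?_
      refine (card_union_le _ _).trans ?_
      have m1 := card_union_le (((univ.filter fun a => par v = some a).image fun a => (v, a)) ∪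
            {p ∈ Sj i | p.1 = v}) (((Icc 1 (b + 1)).biUnion fun j =>
              (univ.filter fun a => Lo par ρ (min (th k b j) R) v a).image fun a => (v, a)) ∪
            ((Icc 1 (b + 1)).biUnion fun j =>
              (univ.filter fun a => ∃ c, Lo par ρ (min (th k b j) R) v c ∧
                par c = some a).image fun a => (v, a)))
      have m2 := card_union_le ((univ.filter fun a => par v = some a).image fun a => (v, a))
            {p ∈ Sj i | p.1 = v}
      have m3 := card_union_le ((Icc 1 (b + 1)).biUnion fun j =>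
              (univ.filter fun a => Lo par ρ (min (th k b j) R) v a).image fun a => (v, a))
            ((Icc 1 (b + 1)).biUnion fun j =>
              (univ.filter fun a => ∃ c, Lo par ρ (min (th k b j) R) v c ∧
                par c = some a).image fun a => (v, a))
      have hbv := hv.1
      omega
    · rw [card_eq_zero.mpr]
      · exact Nat.zero_le _
      · rw [filter_eq_empty_iff]
        rintro ⟨x, a⟩ hp hpv
        change x = v at hpv
        subst hpv
        obtain ⟨h1, h2, -⟩ := (hmem x a).mp hp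
        exact hv ⟨h1, h2⟩

/-- cost of the level `k` -/
def ck : ℕ → ℕ → ℕ
  | 0, r => r
  | k + 1, r => ck k r + 2 * r + k + 4

omit [Fintype V] in
theorem Lv.cost_mono {b R K : ℕ} {cost cost' : ℕ → ℕ} {S : Finset (V × V)}
    (h : Lv par ρ b R K cost S) (hc : ∀ r, cost r ≤ cost' r) : Lv par ρ b R K cost' S :=
  ⟨h.anc, h.edge, h.jus, h.reach, fun v => (h.card v).trans (hc _)⟩

theorem levels (hρ : ∀ v a, par v = some a → ρ v < ρ a) (k : ℕ) : ∀ b, 1 ≤ b → ∀ R ≤ Bk k b,
    ∃ S : Finset (V × V), Lv par ρ b R (k + 1) (ck k) S := by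
  induction k with
  | zero =>
    intro b hb R hR
    rw [Bk_zero] at hR
    refine level_all hρ b R (ck 0) fun r hr => ?_
    change R - r ≤ r + 1
    omega
  | succ k ih =>
    intro b hb R hR
    exact level_step hρ ih hb hR

end level

theorem ck_le (k r : ℕ) : ck k r ≤ (k + 1) * (2 * r + k + 4) := by
  induction k with
  | zero => change r ≤ _; omega
  | succ k ih =>
    change ck k r + 2 * r + k + 4 ≤ _
    nlinarith

theorem ck_le' {k r : ℕ} (h : k + 2 ≤ r) : ck k r ≤ r * (3 * r + 2) :=
  (ck_le k r).trans (Nat.mul_le_mul (by omega) (by omega))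

theorem num_sum (w : ℕ → ℕ) (n : ℕ) (hw : ∀ r, 2 ^ r * w r ≤ n) (M : ℕ) :
    ∑ r ∈ range M, w r * (r * (3 * r + 2)) ≤ 22 * n := by
  have key : ∀ M, 2 ^ M * ∑ r ∈ range M, w r * (r * (3 * r + 2)) +
      n * (6 * M ^ 2 + 16 * M + 22) ≤ 22 * n * 2 ^ M := by
    intro M
    induction M with
    | zero => simp; ring_nf; omega
    | succ M ih =>
      rw [sum_range_succ, pow_succ]
      have h1 := Nat.mul_le_mul_right (M * (3 * M + 2)) (hw M)
      set A := ∑ r ∈ range M, w r * (r * (3 * r + 2))
      set P := 2 ^ M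
      have e1 : P * 2 * (A + w M * (M * (3 * M + 2))) =
          2 * (P * A) + 2 * (P * w M * (M * (3 * M + 2))) := by ring
      rw [e1]
      nlinarith
  have h1 := key M
  have h2 : 2 ^ M * ∑ r ∈ range M, w r * (r * (3 * r + 2)) ≤ 2 ^ M * (22 * n) := by
    calc _ ≤ 22 * n * 2 ^ M := (Nat.le_add_right _ _).trans h1
      _ = 2 ^ M * (22 * n) := by ring
  exact Nat.le_of_mul_le_mul_left h2 (by positivity)

theorem ack_iter (k x : ℕ) : ack (k + 1) x = (ack k)^[x + 1] 1 := by
  induction x with
  | zero => rw [ack_succ_zero]; rfl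
  | succ x ih => rw [ack_succ_succ, ih, ← Function.iterate_succ_apply' (ack k)]

theorem ack_le_Bk (k : ℕ) : ∀ x, 1 ≤ x → ack k x ≤ Bk k x := by
  induction k with
  | zero => intro x hx; rw [ack_zero, Bk_zero]; omega
  | succ k ih =>
    intro x hx
    rw [ack_iter, Bk_succ]
    have h : ∀ j, (ack k)^[j] 1 ≤ (Bk k)^[j] x := by
      intro j
      induction j with
      | zero => exact hx
      | succ j ihj =>
        rw [Function.iterate_succ_apply', Function.iterate_succ_apply']
        have h1 := iter_ge (lt_Bk k) hx j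
        exact (ack_mono_right _ ihj).trans (ih _ (by omega))
    exact h _

open Classical in
theorem shortcuts_aux {V : Type*} [Fintype V] [DecidableEq V] (par : V → Option V) (ρ : V → ℕ)
    (hρ : ∀ v a, par v = some a → ρ v < ρ a)
    (hc : ∀ r, 2 ^ r * #{v | ρ v = r} ≤ Fintype.card V) (k : ℕ) (hk : Fintype.card V ≤ ack k k) :
    ∃ S : Finset (V × V), (∀ p ∈ S, Anc par p.1 p.2) ∧ (∀ v a, par v = some a → (v, a) ∈ S) ∧
      (∀ p ∈ S, par p.1 = some p.2 ∨ ∃ w, (p.1, w) ∈ S ∧ (w, p.2) ∈ S) ∧
      (∀ v a, Anc par v a → Reach (fun x y => (x, y) ∈ S) (k + 4) v a) ∧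
      #S ≤ 25 * (k + 1) * Fintype.card V := by
  have hR : Fintype.card V ≤ Bk k (k + 2) :=
    hk.trans ((ack_mono_right _ (by omega)).trans (ack_le_Bk k (k + 2) (by omega)))
  have hrank : ∀ v, ρ v < Fintype.card V := by
    intro v
    have h1 : 1 ≤ #{x | ρ x = ρ v} := card_pos.mpr ⟨v, by simp⟩
    calc ρ v < 2 ^ ρ v := Nat.lt_two_pow_self
      _ = 2 ^ ρ v * 1 := by ring
      _ ≤ 2 ^ ρ v * #{x | ρ x = ρ v} := Nat.mul_le_mul_left _ h1
      _ ≤ _ := hc _
  obtain ⟨Sh, hSh⟩ := levels hρ k (k + 2) (by omega) (Fintype.card V) hR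
  obtain ⟨Sl, hSl⟩ := level_all hρ 0 (k + 2) (fun _ => k + 2) (fun r _ => by omega)
  set Se : Finset (V × V) := univ.filter fun p : V × V => par p.1 = some p.2 with hSe
  have hSe' : ∀ v a, par v = some a → (v, a) ∈ Se := fun v a h =>
    mem_filter.mpr ⟨mem_univ _, h⟩
  refine ⟨Se ∪ (Sl ∪ Sh), ?_, ?_, ?_, ?_, ?_⟩
  · rintro ⟨v, a⟩ hp
    rcases mem_union.mp hp with hp | hp
    · exact Relation.TransGen.single (mem_filter.mp hp).2
    · rcases mem_union.mp hp with hp | hp
      · exact (hSl.anc v a hp).1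
      · exact (hSh.anc v a hp).1
  · exact fun v a h => mem_union_left _ (hSe' v a h)
  · rintro ⟨v, a⟩ hp
    rcases mem_union.mp hp with hp | hp
    · exact Or.inl (mem_filter.mp hp).2
    · rcases mem_union.mp hp with hp | hp
      · rcases hSl.jus v a hp with h | ⟨w, h1, h2⟩
        · exact Or.inl h
        · exact Or.inr ⟨w, mem_union_right _ (mem_union_left _ h1),
            mem_union_right _ (mem_union_left _ h2)⟩
      · rcases hSh.jus v a hp with h | ⟨w, h1, h2⟩
        · exact Or.inl h
        · exact Or.inr ⟨w, mem_union_right _ (mem_union_right _ h1),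
            mem_union_right _ (mem_union_right _ h2)⟩
  · intro v a h
    have hsubl : ∀ x y, (x, y) ∈ Sl → (x, y) ∈ Se ∪ (Sl ∪ Sh) := fun x y h =>
      mem_union_right _ (mem_union_left _ h)
    have hsubh : ∀ x y, (x, y) ∈ Sh → (x, y) ∈ Se ∪ (Sl ∪ Sh) := fun x y h =>
      mem_union_right _ (mem_union_right _ h)
    by_cases h1 : k + 2 ≤ ρ v
    · exact Reach.mono hsubh (by omega) (hSh.reach v a h h1 (hrank a))
    · by_cases h2 : ρ a < k + 2
      · exact Reach.mono hsubl (by omega) (hSl.reach v a h (Nat.zero_le _) h2)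
      · obtain ⟨c, hc⟩ := exists_lo hρ (k + 2) _ v le_rfl (by omega)
        obtain ⟨p, hp, hpa⟩ := hc.above hρ (Or.inr h) (by omega)
        have h3 : Reach (fun x y => (x, y) ∈ Se ∪ (Sl ∪ Sh)) (k + 1) p a := by
          rcases hpa with h4 | h4
          · exact Or.inl h4
          · exact Reach.mono hsubh le_rfl (hSh.reach p a h4 (hc.2.2 p hp) (hrank a))
        have h5 : Reach (fun x y => (x, y) ∈ Se ∪ (Sl ∪ Sh)) (k + 2) c a :=
          Or.inr ⟨p, mem_union_left _ (hSe' c p hp), h3⟩
        rcases hc.1 with h6 | h6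
        · rw [h6]
          exact Reach.mono (fun _ _ h => h) (by omega) h5
        · rcases hSl.reach v c h6 (Nat.zero_le _) hc.2.1 with h7 | ⟨w, h7, h8⟩
          · rw [h7]
            exact Reach.mono (fun _ _ h => h) (by omega) h5
          · have h9 : w = c := h8
            rw [h9] at h7
            exact Reach.mono (fun _ _ h => h) (by omega : k + 2 + 1 ≤ k + 4)
              (show Reach _ (k + 2 + 1) v a from Or.inr ⟨c, hsubl _ _ h7, h5⟩)
  · have n1 : #Se ≤ Fintype.card V := by
      rw [← card_univ]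
      refine card_le_card_of_injOn (fun p => p.1) (fun _ _ => mem_coe.mpr (mem_univ _)) ?_
      rintro ⟨v, a⟩ hp ⟨v', a'⟩ hp' he
      have e1 := (mem_filter.mp (mem_coe.mp hp)).2
      have e2 := (mem_filter.mp (mem_coe.mp hp')).2
      change par v = some a at e1
      change par v' = some a' at e2
      change v = v' at he
      subst he
      rw [e1] at e2
      rw [Option.some.inj e2]
    have n2 : #Sl ≤ Fintype.card V * (k + 2) := by
      rw [card_eq_sum_card_fiberwise (f := fun p => p.1) (t := univ)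
        (fun _ _ => mem_coe.mpr (mem_univ _))]
      refine (sum_le_sum fun v _ => hSl.card v).trans (le_of_eq ?_)
      rw [sum_const, card_univ, smul_eq_mul]
    have n3 : #Sh ≤ 22 * Fintype.card V := by
      rw [card_eq_sum_card_fiberwise (f := fun p => p.1) (t := univ)
        (fun _ _ => mem_coe.mpr (mem_univ _))]
      have e1 : ∀ v ∈ (univ : Finset V), #{p ∈ Sh | p.1 = v} ≤ ρ v * (3 * ρ v + 2) := by
        intro v _
        by_cases h1 : k + 2 ≤ ρ v
        · exact (hSh.card v).trans (ck_le' h1)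
        · rw [card_eq_zero.mpr]
          · exact Nat.zero_le _
          · rw [filter_eq_empty_iff]
            rintro ⟨x, a⟩ hp hpv
            change x = v at hpv
            subst hpv
            exact h1 (hSh.anc x a hp).2.1
      refine (sum_le_sum e1).trans ?_
      have hmap : ∀ v ∈ (univ : Finset V), ρ v ∈ range (Fintype.card V) := fun v _ =>
        mem_range.mpr (hrank v)
      rw [← sum_fiberwise_of_maps_to hmap]
      refine le_trans (le_of_eq ?_) (num_sum (fun r => #{v | ρ v = r}) _ hc (Fintype.card V))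
      refine sum_congr rfl fun r _ => ?_
      rw [sum_congr rfl (g := fun _ => r * (3 * r + 2)) fun v hv => by
        rw [(mem_filter.mp hv).2], sum_const, smul_eq_mul]
    have n4 := card_union_le Se (Sl ∪ Sh)
    have n5 := card_union_le Sl Sh
    calc #(Se ∪ (Sl ∪ Sh)) ≤ Fintype.card V + (Fintype.card V * (k + 2) +
          22 * Fintype.card V) := by omega
      _ ≤ 25 * (k + 1) * Fintype.card V := by nlinarith [Nat.zero_le (Fintype.card V)]

end Pool.Agent.EQ
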