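import Pool.Agent.Work.MP_7a8e14_lc.EQ.Inst
import Pool.Agent.Work.MP_7a8e14_lc.EQ.Conv
import Pool.Agent.Work.MP_7a8e14_lc.EQ.Build
import Pool.Agent.Work.MP_7a8e14_lc.EQ.Short

/-!
# The lower bound
-/

open Finset

namespace Pool.Agent.EQ

theorem upI_mark {Dd k : ℕ} (hk : Dp k 1 ≤ Dd) (l : Fin (2 ^ Dd)) :
    upI k (.inr l : It Dd) < 2 ^ Dd + 1 := by
  have hg : qc k l < Dd := (qc_lt k l).trans_le hk
  change (l : ℕ) / 2 ^ (qc k l + 2) * 2 ^ (qc k l + 2) + 2 ^ (qc k l + 1) < _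
  set g := qc k l
  rcases Nat.lt_or_ge Dd (g + 2) with h | h
  · rw [Nat.div_eq_of_lt (l.2.trans (Nat.pow_lt_pow_right (by omega) h)),
      show g + 1 = Dd by omega]
    omega
  · have h1 : (l : ℕ) / 2 ^ (g + 2) < 2 ^ (Dd - (g + 2)) := by
      rw [Nat.div_lt_iff_lt_mul (by positivity), ← pow_add,
        show Dd - (g + 2) + (g + 2) = Dd by omega]
      exact l.2
    have h2 : ((l : ℕ) / 2 ^ (g + 2) + 1) * 2 ^ (g + 2) ≤ 2 ^ (Dd - (g + 2)) * 2 ^ (g + 2) :=
      Nat.mul_le_mul_right _ h1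
    rw [← pow_add, show Dd - (g + 2) + (g + 2) = Dd by omega, add_mul, one_mul] at h2
    have h3 : 2 ^ (g + 2) = 2 * 2 ^ (g + 1) := by ring
    omega

/-- the number of vertices is at most the number of edges -/
theorem card_le_edges {Dd k : ℕ} (hk : Dp k 1 ≤ Dd) (hDd : 2 ≤ Dd) :
    Fintype.card (Vx Dd) ≤ ∑ v, ((graph Dd k).out v).length := by
  classical
  have h4 : Fintype.card (Vx Dd) = 3 * 2 ^ Dd + 3 := by
    simp only [Vx, Fintype.card_sum, Fintype.card_fin]
    ring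
  have h1 : ∀ r : Fin (2 ^ Dd + 1), (prem Dd k r).length =
      #{it ∈ (univ : Finset (It Dd)) | upI k it = r} := by
    intro r
    unfold prem
    rw [← Multiset.coe_card, ← Multiset.filter_coe, coe_toList]
    rfl
  have h5 : 2 ^ Dd ≤ ∑ r : Fin (2 ^ Dd + 1), (prem Dd k r).length := by
    simp only [h1]
    rw [← card_biUnion]
    · calc 2 ^ Dd = #(univ.map (Function.Embedding.inr : Fin (2 ^ Dd) ↪ It Dd)) := by
            rw [card_map, card_univ, Fintype.card_fin]
        _ ≤ _ := card_le_card ?_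
      intro it hit
      obtain ⟨l, -, rfl⟩ := mem_map.mp hit
      exact mem_biUnion.mpr ⟨⟨_, upI_mark hk l⟩, mem_univ _, mem_filter.mpr ⟨mem_univ _, rfl⟩⟩
    · intro r _ r' _ hne
      rw [Function.onFun, disjoint_left]
      intro it h2 h3
      exact hne (Fin.ext ((mem_filter.mp h2).2.symm.trans (mem_filter.mp h3).2))
  have h0 : (prem Dd k 0).length = 0 := by
    rw [List.length_eq_zero_iff, List.eq_nil_iff_forall_not_mem]
    intro it hit
    have h2 := mem_prem.mp hit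
    unfold upI at h2
    have h3 : 0 < 2 ^ (crd k it + 1) := by positivity
    omega
  have h6 : ∑ r : Fin (2 ^ Dd + 1), (if (r : ℕ) = 0 then 0 else (prem Dd k r).length + 1) =
      ∑ r : Fin (2 ^ Dd + 1), (prem Dd k r).length + 2 ^ Dd := by
    have h7 : ∀ r : Fin (2 ^ Dd + 1), (if (r : ℕ) = 0 then 0 else (prem Dd k r).length + 1) =
        (prem Dd k r).length + (if (r : ℕ) = 0 then 0 else 1) := by
      intro r
      split_ifs with h
      · rw [h, h0]
      · rfl
    simp only [h7]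
    rw [sum_add_distrib, Fin.sum_univ_succ (fun r : Fin (2 ^ Dd + 1) =>
      if (r : ℕ) = 0 then 0 else 1)]
    simp
  have h8 : 2 ^ 2 ≤ 2 ^ Dd := Nat.pow_le_pow_right (by omega) hDd
  rw [sum_out, h6, h4]
  omega

/-- **Lower bound.** -/
theorem lower_bound (N : ℕ) (hN : 64 ≤ N) :
    ∃ (V : Type) (_ : Fintype V) (G : LGraph V ℕ) (E : List (V × V)) (u v : V),
      size G E ≤ N ∧ Fintype.card V ≤ ∑ x, (G.out x).length ∧
      (∃ h : V → ℕ, ∀ x, ∀ y ∈ G.out x, h y < h x) ∧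
      (∀ x y, G.Congr (fun a b => a = b) x y → x = y) ∧ G.Closure E u v ∧
      ∀ (W : Type) (_ : Fintype W) (G' : LGraph (V ⊕ W) ℕ), Extends G G' →
        ∀ (D : List ((V ⊕ W) × (V ⊕ W))) (c : ℕ), G'.Der (liftE W E) D c →
          (.inl u, .inl v) ∈ D →
            N * alpha N ≤ 3456 * (c + ∑ w : W, (G'.out (.inr w)).length) := by
  obtain ⟨k, Dd, hk1, hk, hs, ha⟩ := choose_par hN
  have hDd : 2 ≤ Dd := by
    have := lt_Dp k
    omega
  refine ⟨Vx Dd, inferInstance, graph Dd k, pairs Dd, goalL Dd, goalR Dd,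
    (size_le k hDd).trans hs, card_le_edges hk hDd, ⟨hgt, acyclic k⟩, reduced k,
    goal_closure hk, ?_⟩
  intro W _ G' hext D c hder hmem
  obtain ⟨DV, cv, h1, h2, h3⟩ := conv hext hder
  have h4 := h2 _ _ hmem
  have h5 := hard_lower hk h1 h4
  have h6 := h1.length_le
  calc N * alpha N ≤ 192 * (k * 2 ^ Dd) := ha
    _ ≤ 192 * (6 * DV.length) := Nat.mul_le_mul_left _ h5
    _ ≤ 3456 * (c + ∑ w : W, (G'.out (.inr w)).length) := by omega

/-- **Upper bound.** -/
theorem upper_bound {V L : Type*} [Fintype V] (G : LGraph V L) (E : List (V × V)) :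
    ∃ (D : List (V × V)) (c : ℕ) (rep : V → V), G.Der E D c ∧
      (∀ x y, G.Closure E x y ↔ rep x = rep y) ∧ (∀ v, Avail D v (rep v)) ∧
      c ≤ 40 * (size G E * (alpha (size G E) + 1)) := by
  classical
  rcases isEmpty_or_nonempty V with hV | ⟨⟨x0⟩⟩
  · exact ⟨[], 0, id, .nil, fun x => isEmptyElim x, fun x => isEmptyElim x, Nat.zero_le _⟩
  · obtain ⟨t, root, mer, cc, par, ρ, chg, h, hcl⟩ := exists_hist G E x0
    set k := alpha (size G E) with hk
    have h1 : size G E ≤ ack k k := Nat.find_spec (exists_ack (size G E))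
    have h2 : Fintype.card V ≤ size G E := by unfold size; omega
    have h3 : Fintype.card V + ∑ v, (G.out v).length ≤ size G E := by unfold size; omega
    obtain ⟨S, s1, s2, s3, s4, s5⟩ := shortcuts_aux par ρ h.rank h.count_total k (h2.trans h1)
    obtain ⟨D, c, rep, g1, g2, g3, g4⟩ := upper_aux h hcl ⟨s1, s2, s3, s4⟩
    refine ⟨D, c, rep, g1, g2, g3, g4.trans ?_⟩
    set n := Fintype.card V
    set m := ∑ v, (G.out v).length
    calc (2 * (k + 4) + 2) * m + (3 * (k + 4) + 3) * n + #S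
        ≤ (2 * (k + 4) + 2) * m + (3 * (k + 4) + 3) * n + 25 * (k + 1) * n := by omega
      _ ≤ 40 * ((n + m) * (k + 1)) := by nlinarith [Nat.zero_le n, Nat.zero_le m]
      _ ≤ 40 * (size G E * (k + 1)) :=
        Nat.mul_le_mul_left _ (Nat.mul_le_mul_right _ h3)

end Pool.Agent.EQ
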