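import Pool.Agent.Work.MP_7a8e14_lc.EQ.Defs

/-!
# The history of the merges (union by size)
-/

open Finset

namespace Pool.Agent.EQ

variable {V L : Type*} [Fintype V] [DecidableEq V]

/-- the class of the root `c` -/
def cls (rt : V → V) (c : V) : Finset V := {v | rt v = c}

/-- Merges up to time `t`. -/
structure Hist (G : LGraph V L) (E : List (V × V)) (t : ℕ) (root : ℕ → V → V) (mer : ℕ → V × V)
    (cc : ℕ → ℕ) (par : V → Option V) (ρ : V → ℕ) (chg : V → ℕ) : Prop where
  root_zero : ∀ v, root 0 v = v
  step : ∀ s < t, ∃ c1 c2, c1 ≠ c2 ∧ par c1 = some c2 ∧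
    ((root s (mer s).1 = c1 ∧ root s (mer s).2 = c2) ∨
      (root s (mer s).1 = c2 ∧ root s (mer s).2 = c1)) ∧
    ∀ x, root (s + 1) x = if root s x = c1 then c2 else root s x
  just : ∀ s < t, mer s ∈ E ∨
    (G.Congr (fun x y => root s x = root s y) (mer s).1 (mer s).2 ∧
      (G.out (mer s).1).length ≤ cc s)
  idem : ∀ s ≤ t, ∀ v, root s (root s v) = root s v
  par_none : ∀ c, par c = none ↔ root t c = c
  par_time : ∀ s ≤ t, ∀ v a, par v = some a → root s v = v ∨ root s v = root s a
  rank : ∀ v a, par v = some a → ρ v < ρ a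
  rank_root : ∀ c, root t c = c → ρ c = Nat.log 2 #(cls (root t) c)
  count : ∀ c r, root t c = c → 2 ^ r * #{v ∈ cls (root t) c | ρ v = r} ≤ #(cls (root t) c)
  chg_le : ∀ c, root t c = c → ∀ v, root t v = c →
    chg c + (G.out v).length ≤ ∑ x ∈ cls (root t) c, (G.out x).length
  cc_le : ∑ s ∈ range t, cc s ≤ ∑ c ∈ {c | root t c = c}, chg c
  num : t + #{c | root t c = c} = Fintype.card V

theorem mem_cls {rt : V → V} {c v : V} : v ∈ cls rt c ↔ rt v = c := by simp [cls]

theorem cls_id (c : V) : cls (fun v : V => v) c = {c} := by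
  ext v
  rw [mem_cls, mem_singleton]

/-- the start -/
theorem hist_zero (G : LGraph V L) (E : List (V × V)) (m0 : ℕ → V × V) :
    Hist G E 0 (fun _ v => v) m0 (fun _ => 0) (fun _ => none) (fun _ => 0) (fun _ => 0) := by
  refine ⟨fun _ => rfl, fun s hs => absurd hs (by omega), fun s hs => absurd hs (by omega),
    fun _ _ _ => rfl, fun c => by simp, fun _ _ v a h => by simp at h, fun v a h => by simp at h,
    fun c _ => ?_, fun c r _ => ?_, fun c _ v hv => ?_, by simp, ?_⟩
  · rw [cls_id, card_singleton, Nat.log_one_right]
  · rw [cls_id, card_singleton]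
    rcases Nat.eq_zero_or_pos r with rfl | hr
    · rw [pow_zero, one_mul]
      exact (card_filter_le _ _).trans (by simp)
    · rw [filter_false_of_mem (fun _ _ => by omega), card_empty, mul_zero]
      exact Nat.zero_le _
  · rw [cls_id, sum_singleton, zero_add]
    exact le_of_eq (by rw [show v = c from hv])
  · rw [zero_add, filter_true_of_mem (fun _ _ => rfl), card_univ]

section ext

variable {G : LGraph V L} {E : List (V × V)} {t : ℕ} {root : ℕ → V → V} {mer : ℕ → V × V}
  {cc : ℕ → ℕ} {par : V → Option V} {ρ : V → ℕ} {chg : V → ℕ}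

/-- a vertex that is a root was always a root -/
theorem Hist.stay (h : Hist G E t root mer cc par ρ chg) {v : V} : ∀ {s s' : ℕ}, s ≤ s' → s' ≤ t →
    root s' v = v → root s v = v := by
  intro s s' hs
  induction s', hs using Nat.le_induction with
  | base => exact fun _ h => h
  | succ s' hs ih =>
    intro hst hr
    apply ih (by omega)
    obtain ⟨c1, c2, hne, -, hc, hstep⟩ := h.step s' (by omega)
    rw [hstep] at hr
    split_ifs at hr with h1
    · exfalso
      have h2 : root s' c2 = c2 := by
        rcases hc with ⟨-, h3⟩ | ⟨h3, -⟩ <;> rw [← h3] <;> exact h.idem s' (by omega) _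
      rw [← hr, h2] at h1
      exact hne h1.symm
    · exact hr

/-- linking the root `c1` under the root `c2` -/
theorem Hist.extend (h : Hist G E t root mer cc par ρ chg) {u v c1 c2 : V} (hne : c1 ≠ c2)
    (huv : (root t u = c1 ∧ root t v = c2) ∨ (root t u = c2 ∧ root t v = c1))
    (hsz : #(cls (root t) c1) ≤ #(cls (root t) c2)) {d : ℕ}
    (hj : ((u, v) ∈ E ∧ d = 0) ∨ (G.Congr (fun x y => root t x = root t y) u v ∧
      d = (G.out u).length)) :
    ∃ root' mer' cc' par' ρ' chg', Hist G E (t + 1) root' mer' cc' par' ρ' chg' := by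
  have hc1 : root t c1 = c1 := by
    rcases huv with ⟨h1, -⟩ | ⟨-, h1⟩ <;> rw [← h1] <;> exact h.idem t le_rfl _
  have hc2 : root t c2 = c2 := by
    rcases huv with ⟨-, h1⟩ | ⟨h1, -⟩ <;> rw [← h1] <;> exact h.idem t le_rfl _
  set rt : V → V := fun x => if root t x = c1 then c2 else root t x with hrt
  set root' : ℕ → V → V := fun s => if s ≤ t then root s else rt with hroot'
  set mer' : ℕ → V × V := fun s => if s < t then mer s else (u, v) with hmer'
  set cc' : ℕ → ℕ := fun s => if s < t then cc s else d with hcc'
  set par' : V → Option V := Function.update par c1 (some c2) with hpar'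
  set ρ' : V → ℕ := Function.update ρ c2 (Nat.log 2 (#(cls (root t) c1) + #(cls (root t) c2)))
    with hρ'
  set chg' : V → ℕ := Function.update chg c2 (chg c1 + chg c2 + d) with hchg'
  have r1 : ∀ s ≤ t, root' s = root s := fun s hs => by simp [hroot', hs]
  have r2 : root' (t + 1) = rt := by simp [hroot']
  have m1 : ∀ s < t, mer' s = mer s := fun s hs => by simp [hmer', hs]
  have m2 : mer' t = (u, v) := by simp [hmer']
  have k1 : ∀ s < t, cc' s = cc s := fun s hs => by simp [hcc', hs]
  have k2 : cc' t = d := by simp [hcc']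
  -- classes
  have cl2 : cls rt c2 = cls (root t) c1 ∪ cls (root t) c2 := by
    ext x
    rw [mem_union, mem_cls, mem_cls, mem_cls]
    change (if root t x = c1 then c2 else root t x) = c2 ↔ _
    split_ifs with h1
    · simp [h1]
    · simp [h1]
  have cl : ∀ c, c ≠ c1 → c ≠ c2 → cls rt c = cls (root t) c := by
    intro c h1 h2
    ext x
    rw [mem_cls, mem_cls]
    change (if root t x = c1 then c2 else root t x) = c ↔ _
    split_ifs with h3
    · rw [h3]
      exact ⟨fun h4 => absurd h4.symm h2, fun h4 => absurd h4.symm h1⟩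
    · exact Iff.rfl
  have hdisj : Disjoint (cls (root t) c1) (cls (root t) c2) := by
    rw [disjoint_left]
    intro x h1 h2
    rw [mem_cls] at h1 h2
    exact hne (h1.symm.trans h2)
  have hcard2 : #(cls rt c2) = #(cls (root t) c1) + #(cls (root t) c2) := by
    rw [cl2, card_union_of_disjoint hdisj]
  have hrtroot : ∀ c, rt c = c ↔ c ≠ c1 ∧ root t c = c := by
    intro c
    change (if root t c = c1 then c2 else root t c) = c ↔ _
    constructor
    · intro h1
      split_ifs at h1 with h2
      · rw [← h1, hc2] at h2
        exact absurd h2.symm hne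
      · exact ⟨fun h3 => h2 (h1.trans h3), h1⟩
    · rintro ⟨h1, h2⟩
      rw [if_neg (by rw [h2]; exact h1)]
      exact h2
  have hc1pos : 1 ≤ #(cls (root t) c1) := card_pos.mpr ⟨c1, mem_cls.mpr hc1⟩
  have hlogle : ρ c2 ≤ Nat.log 2 (#(cls (root t) c1) + #(cls (root t) c2)) := by
    rw [h.rank_root c2 hc2]
    exact Nat.log_mono_right (by omega)
  have hlog1 : ρ c1 < Nat.log 2 (#(cls (root t) c1) + #(cls (root t) c2)) := by
    rw [h.rank_root c1 hc1, Nat.lt_iff_add_one_le, Nat.le_log_iff_pow_le (by omega) (by omega),
      pow_succ]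
    have := Nat.pow_log_le_self 2 (x := #(cls (root t) c1)) (by omega)
    omega
  refine ⟨root', mer', cc', par', ρ', chg', ?_, ?_, ?_, ?_, ?_, ?_, ?_, ?_, ?_, ?_, ?_, ?_⟩
  · intro w
    rw [r1 0 (by omega)]
    exact h.root_zero w
  · intro s hs
    rcases Nat.lt_succ_iff_lt_or_eq.mp hs with h1 | rfl
    · obtain ⟨a1, a2, g1, g2, g3, g4⟩ := h.step s h1
      refine ⟨a1, a2, g1, ?_, ?_, ?_⟩
      · rw [hpar', Function.update_of_ne]
        · exact g2
        · rintro rfl
          rw [(h.par_none _).mpr hc1] at g2
          cases g2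
      · rw [r1 s h1.le, m1 s h1]; exact g3
      · rw [r1 s h1.le, r1 (s + 1) h1]; exact g4
    · refine ⟨c1, c2, hne, by rw [hpar', Function.update_self], ?_, ?_⟩
      · rw [r1 s le_rfl, m2]; exact huv
      · intro x
        rw [r1 s le_rfl, r2]
  · intro s hs
    rcases Nat.lt_succ_iff_lt_or_eq.mp hs with h1 | rfl
    · rw [m1 s h1, k1 s h1, r1 s h1.le]
      exact h.just s h1
    · rw [m2, k2, r1 s le_rfl]
      rcases hj with hj | hj
      · exact Or.inl hj.1
      · exact Or.inr ⟨hj.1, hj.2.ge⟩
  · intro s hs w
    rcases Nat.lt_or_ge t s with h1 | h1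
    · obtain rfl : s = t + 1 := by omega
      rw [r2, hrtroot]
      change (if root t w = c1 then c2 else root t w) ≠ c1 ∧
        root t (if root t w = c1 then c2 else root t w) = if root t w = c1 then c2 else root t w
      split_ifs with h2
      · exact ⟨hne.symm, hc2⟩
      · exact ⟨h2, h.idem t le_rfl w⟩
    · rw [r1 s h1]
      exact h.idem s h1 w
  · intro c
    rw [r2, hrtroot, hpar']
    by_cases h1 : c = c1
    · subst h1
      simp
    · rw [Function.update_of_ne h1, h.par_none]
      simp [h1]
  · intro s hs w a hw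
    rw [hpar'] at hw
    rcases Nat.lt_or_ge t s with h1 | h1
    · obtain rfl : s = t + 1 := by omega
      rw [r2]
      by_cases h2 : w = c1
      · subst h2
        rw [Function.update_self] at hw
        obtain rfl := Option.some.inj hw
        right
        change (if root t w = w then c2 else root t w) =
          if root t c2 = w then c2 else root t c2
        rw [if_pos hc1, hc2, if_neg hne.symm]
      · rw [Function.update_of_ne h2] at hw
        right
        rcases h.par_time t le_rfl w a hw with h3 | h3
        · rw [← h.par_none, hw] at h3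
          cases h3
        · change (if root t w = c1 then c2 else root t w) =
            if root t a = c1 then c2 else root t a
          rw [h3]
    · rw [r1 s h1]
      by_cases h2 : w = c1
      · subst h2
        exact Or.inl (h.stay h1 le_rfl hc1)
      · rw [Function.update_of_ne h2] at hw
        exact h.par_time s h1 w a hw
  · intro w a hw
    rw [hpar'] at hw
    by_cases h2 : w = c1
    · subst h2
      rw [Function.update_self] at hw
      obtain rfl := Option.some.inj hw
      rw [hρ', Function.update_self, Function.update_of_ne hne]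
      exact hlog1
    · rw [Function.update_of_ne h2] at hw
      have h3 := h.rank w a hw
      have h4 : w ≠ c2 := by
        rintro rfl
        rw [(h.par_none _).mpr hc2] at hw
        cases hw
      rw [hρ', Function.update_of_ne h4]
      by_cases h5 : a = c2
      · subst h5
        rw [Function.update_self]
        omega
      · rwa [Function.update_of_ne h5]
  · intro c hc
    rw [r2] at hc ⊢
    obtain ⟨h1, h2⟩ := (hrtroot c).mp hc
    by_cases h3 : c = c2
    · subst h3
      rw [hρ', Function.update_self, hcard2]
    · rw [hρ', Function.update_of_ne h3, cl c h1 h3]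
      exact h.rank_root c h2
  · intro c r hc
    rw [r2] at hc ⊢
    obtain ⟨h1, h2⟩ := (hrtroot c).mp hc
    by_cases h3 : c = c2
    · subst h3
      rw [hcard2]
      have a1 := h.count c1 r hc1
      have a2 := h.count c r h2
      by_cases h4 : r = ρ' c ∧ ρ c < r
      · obtain ⟨h5, h6⟩ := h4
        have h7 : ρ' c = Nat.log 2 (#(cls (root t) c1) + #(cls (root t) c)) := by
          rw [hρ', Function.update_self]
        have hr : 2 ^ r ≤ #(cls (root t) c1) + #(cls (root t) c) := by
          rw [h5, h7]
          exact Nat.pow_log_le_self 2 (by omega)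
        have hz : ∀ w, root t w = c1 ∨ root t w = c → ρ w ≠ r := by
          intro w hw hρw
          have small : ∀ a, root t a = a → root t w = a → #(cls (root t) a) ≤ #(cls (root t) c) →
              False := by
            intro a ha hwa hle
            have b1 := h.count a r ha
            have b2 : 1 ≤ #{v ∈ cls (root t) a | ρ v = r} :=
              card_pos.mpr ⟨w, mem_filter.mpr ⟨mem_cls.mpr hwa, hρw⟩⟩
            have b3 : 2 ^ r ≤ #(cls (root t) c) := by
              calc 2 ^ r = 2 ^ r * 1 := by ring
                _ ≤ 2 ^ r * #{v ∈ cls (root t) a | ρ v = r} := Nat.mul_le_mul_left _ b2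
                _ ≤ _ := b1.trans hle
            have b4 : r ≤ Nat.log 2 #(cls (root t) c) :=
              (Nat.le_log_iff_pow_le (by omega) (by omega)).mpr b3
            rw [h.rank_root c h2] at h6
            omega
          rcases hw with hw | hw
          · exact small c1 hc1 hw hsz
          · exact small c h2 hw le_rfl
        have hsub : {v ∈ cls rt c | ρ' v = r} ⊆ {c} := by
          intro w hw
          rw [mem_filter, cl2, mem_union, mem_cls, mem_cls] at hw
          rw [mem_singleton]
          by_contra h8
          rw [hρ', Function.update_of_ne h8] at hw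
          exact hz w hw.1 hw.2
        have := card_le_card hsub
        rw [card_singleton] at this
        calc 2 ^ r * #{v ∈ cls rt c | ρ' v = r} ≤ 2 ^ r * 1 := Nat.mul_le_mul_left _ this
          _ = 2 ^ r := by ring
          _ ≤ _ := hr
      · have hsub : {v ∈ cls rt c | ρ' v = r} ⊆
            {v ∈ cls (root t) c1 | ρ v = r} ∪ {v ∈ cls (root t) c | ρ v = r} := by
          intro w hw
          rw [mem_filter, cl2, mem_union] at hw
          have h9 : ρ w = r := by
            by_cases h8 : w = c
            · subst h8
              have h10 : ρ' w = Nat.log 2 (#(cls (root t) c1) + #(cls (root t) w)) := by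
                rw [hρ', Function.update_self]
              have := hw.2
              by_contra h11
              exact h4 ⟨this.symm, by omega⟩
            · have := hw.2
              rwa [hρ', Function.update_of_ne h8] at this
          rw [mem_union, mem_filter, mem_filter]
          rcases hw.1 with h10 | h10
          · exact Or.inl ⟨h10, h9⟩
          · exact Or.inr ⟨h10, h9⟩
        have := (card_le_card hsub).trans (card_union_le _ _)
        calc 2 ^ r * #{v ∈ cls rt c | ρ' v = r}
            ≤ 2 ^ r * (#{v ∈ cls (root t) c1 | ρ v = r} + #{v ∈ cls (root t) c | ρ v = r}) :=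
              Nat.mul_le_mul_left _ this
          _ = 2 ^ r * #{v ∈ cls (root t) c1 | ρ v = r} +
              2 ^ r * #{v ∈ cls (root t) c | ρ v = r} := by ring
          _ ≤ _ := Nat.add_le_add a1 a2
    · rw [cl c h1 h3]
      have h5 : {v ∈ cls (root t) c | ρ' v = r} = {v ∈ cls (root t) c | ρ v = r} := by
        refine filter_congr fun w hw => ?_
        have h6 : w ≠ c2 := by
          rintro rfl
          exact h3 ((mem_cls.mp hw).symm.trans hc2)
        rw [hρ', Function.update_of_ne h6]
      rw [h5]
      exact h.count c r h2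
  · intro c hc w hw
    rw [r2] at hc hw ⊢
    obtain ⟨h1, h2⟩ := (hrtroot c).mp hc
    by_cases h3 : c = c2
    · subst h3
      have hw' : w ∈ cls rt c := mem_cls.mpr hw
      rw [cl2, mem_union, mem_cls, mem_cls] at hw'
      rw [cl2, sum_union hdisj, hchg', Function.update_self]
      have hlen : ∀ x y : V, G.Congr (fun x y => root t x = root t y) x y →
          (G.out x).length = (G.out y).length := fun x y h => h.2.length_eq
      -- one vertex of outdegree at least `d` in each class
      have hd1 : ∃ x, root t x = c1 ∧ d ≤ (G.out x).length := by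
        rcases hj with ⟨-, rfl⟩ | ⟨hj, rfl⟩
        · exact ⟨c1, hc1, Nat.zero_le _⟩
        · rcases huv with ⟨g1, g2⟩ | ⟨g1, g2⟩
          · exact ⟨u, g1, le_rfl⟩
          · exact ⟨v, g2, (hlen u v hj).le⟩
      have hd2 : ∃ x, root t x = c ∧ d ≤ (G.out x).length := by
        rcases hj with ⟨-, rfl⟩ | ⟨hj, rfl⟩
        · exact ⟨c, h2, Nat.zero_le _⟩
        · rcases huv with ⟨g1, g2⟩ | ⟨g1, g2⟩
          · exact ⟨v, g2, (hlen u v hj).le⟩
          · exact ⟨u, g1, le_rfl⟩
      obtain ⟨x1, hx1, hx1d⟩ := hd1
      obtain ⟨x2, hx2, hx2d⟩ := hd2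
      rcases hw' with hw' | hw'
      · have e1 := h.chg_le c1 hc1 w hw'
        have e2 := h.chg_le c h2 x2 hx2
        omega
      · have e1 := h.chg_le c1 hc1 x1 hx1
        have e2 := h.chg_le c h2 w hw'
        omega
    · rw [cl c h1 h3, hchg', Function.update_of_ne h3]
      have hw' : w ∈ cls rt c := mem_cls.mpr hw
      rw [cl c h1 h3, mem_cls] at hw'
      exact h.chg_le c h2 w hw'
  · rw [sum_range_succ, k2, sum_congr rfl (g := fun s => cc s)
      fun s hs => k1 s (mem_range.mp hs), r2]
    have e1 : ({c | rt c = c} : Finset V) = ({c | root t c = c} : Finset V).erase c1 := by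
      ext c
      rw [mem_filter, mem_erase, mem_filter, hrtroot]
      simp
    have e2 : c1 ∈ ({c | root t c = c} : Finset V) := mem_filter.mpr ⟨mem_univ _, hc1⟩
    have e3 : c2 ∈ ({c | root t c = c} : Finset V).erase c1 :=
      mem_erase.mpr ⟨hne.symm, mem_filter.mpr ⟨mem_univ _, hc2⟩⟩
    rw [e1, ← add_sum_erase _ _ e3, hchg', Function.update_self]
    rw [sum_congr rfl (g := fun c => chg c) fun c hc => by
      rw [Function.update_of_ne (ne_of_mem_erase hc)]]
    have e4 := h.cc_le
    rw [← add_sum_erase _ _ e2, ← add_sum_erase _ _ e3] at e4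
    omega
  · rw [r2]
    have e1 : ({c | rt c = c} : Finset V) = ({c | root t c = c} : Finset V).erase c1 := by
      ext c
      rw [mem_filter, mem_erase, mem_filter, hrtroot]
      simp
    have e2 : c1 ∈ ({c | root t c = c} : Finset V) := mem_filter.mpr ⟨mem_univ _, hc1⟩
    rw [e1, card_erase_of_mem e2]
    have := h.num
    have := card_pos.mpr ⟨c1, e2⟩
    omega

end ext

end Pool.Agent.EQ
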