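import Mathlib

/-!
# Forests, ancestors, short paths
-/

namespace Pool.Agent.EQ

variable {V : Type*}

/-- `a` is a proper ancestor of `v` -/
def Anc (par : V → Option V) : V → V → Prop := Relation.TransGen fun x y => par x = some y

/-- `v` is reached from `u` by at most `k` steps -/
def Reach (S : V → V → Prop) : ℕ → V → V → Prop
  | 0, u, v => u = v
  | k + 1, u, v => u = v ∨ ∃ w, S u w ∧ Reach S k w v

end Pool.Agent.EQ
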