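import Pool.Agent.Work.MP_7a8e14_lc.EQ.Hist
import Pool.Agent.Work.MP_7a8e14_lc.EQ.UDefs

/-!
# Existence of a complete history; ancestors and roots
-/

open Finset

namespace Pool.Agent.EQ

variable {V L : Type*} [Fintype V] [DecidableEq V]

/-- the relation of the roots is closed -/
def Closed (G : LGraph V L) (E : List (V × V)) (rt : V → V) : Prop :=
  (∀ p ∈ E, rt p.1 = rt p.2) ∧ ∀ x y, G.Congr (fun x y => rt x = rt y) x y → rt x = rt y

theorem exists_hist (G : LGraph V L) (E : List (V × V)) (x0 : V) :
    ∃ t root mer cc par ρ chg, Hist G E t root mer cc par ρ chg ∧ Closed G E (root t) := by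
  have main : ∀ (N t : ℕ) root mer cc par ρ chg, Hist G E t root mer cc par ρ chg →
      #{c | root t c = c} ≤ N →
      ∃ t root mer cc par ρ chg, Hist G E t root mer cc par ρ chg ∧ Closed G E (root t) := by
    intro N
    induction N with
    | zero =>
      intro t root mer cc par ρ chg h hN
      have h1 : root t x0 ∈ ({c | root t c = c} : Finset V) :=
        mem_filter.mpr ⟨mem_univ _, h.idem t le_rfl x0⟩
      have := card_pos.mpr ⟨_, h1⟩
      omega
    | succ N ih =>
      intro t root mer cc par ρ chg h hN
      by_cases hcl : Closed G E (root t)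
      · exact ⟨t, root, mer, cc, par, ρ, chg, h, hcl⟩
      obtain ⟨u, v, d, hne, hj⟩ : ∃ u v d, root t u ≠ root t v ∧ (((u, v) ∈ E ∧ d = 0) ∨
          (G.Congr (fun x y => root t x = root t y) u v ∧ d = (G.out u).length)) := by
        by_contra hno
        push Not at hno
        refine hcl ⟨fun p hp => ?_, fun x y hxy => ?_⟩
        · by_contra hne
          exact (hno p.1 p.2 0 hne).1 hp rfl
        · by_contra hne
          exact (hno x y _ hne).2 hxy rfl
      obtain ⟨c1, c2, hc, huv, hsz⟩ : ∃ c1 c2, c1 ≠ c2 ∧ ((root t u = c1 ∧ root t v = c2) ∨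
          (root t u = c2 ∧ root t v = c1)) ∧ #(cls (root t) c1) ≤ #(cls (root t) c2) := by
        rcases le_total #(cls (root t) (root t u)) #(cls (root t) (root t v)) with h1 | h1
        · exact ⟨_, _, hne, Or.inl ⟨rfl, rfl⟩, h1⟩
        · exact ⟨_, _, hne.symm, Or.inr ⟨rfl, rfl⟩, h1⟩
      obtain ⟨root', mer', cc', par', ρ', chg', h'⟩ := h.extend hc huv hsz hj
      refine ih _ _ _ _ _ _ _ h' ?_
      have e1 := h.num
      have e2 := h'.num
      omega
  exact main _ 0 _ _ _ _ _ _ (hist_zero G E fun _ => (x0, x0)) le_rfl

section facts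

variable {G : LGraph V L} {E : List (V × V)} {t : ℕ} {root : ℕ → V → V} {mer : ℕ → V × V}
  {cc : ℕ → ℕ} {par : V → Option V} {ρ : V → ℕ} {chg : V → ℕ}

theorem Hist.rank_anc (h : Hist G E t root mer cc par ρ chg) {v a : V} (ha : Anc par v a) :
    ρ v < ρ a := by
  induction ha with
  | single h1 => exact h.rank _ _ h1
  | tail _ h1 ih => exact ih.trans (h.rank _ _ h1)

omit [Fintype V] [DecidableEq V] in
/-- the ancestors of a vertex are linearly ordered -/
theorem anc_linear {par : V → Option V} {v a c : V} (ha : Anc par v a) (hc : v = c ∨ Anc par v c) :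
    a = c ∨ Anc par a c ∨ Anc par c a := by
  rcases hc with rfl | hc
  · exact Or.inr (Or.inr ha)
  induction ha using Relation.TransGen.head_induction_on with
  | @single v h1 =>
    rcases Relation.TransGen.head'_iff.mp hc with ⟨w, h2, h3⟩
    rw [h1] at h2
    obtain rfl := Option.some.inj h2
    rcases Relation.reflTransGen_iff_eq_or_transGen.mp h3 with h4 | h4
    · exact Or.inl h4.symm
    · exact Or.inr (Or.inl h4)
  | @head v x h1 h2 ih =>
    rcases Relation.TransGen.head'_iff.mp hc with ⟨w, h3, h4⟩
    rw [h1] at h3
    obtain rfl := Option.some.inj h3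
    rcases Relation.reflTransGen_iff_eq_or_transGen.mp h4 with h5 | h5
    · exact Or.inr (Or.inr (by rw [h5]; exact h2))
    · exact ih h5

/-- a vertex that is not a root is below its root -/
theorem Hist.anc_root (h : Hist G E t root mer cc par ρ chg) {s : ℕ} (hs : s ≤ t) :
    ∀ v, v = root s v ∨ Anc par v (root s v) := by
  obtain ⟨M, hM⟩ : ∃ M, ∀ v, ρ v < M := by
    obtain ⟨M, hM⟩ := (univ.image ρ).exists_le
    exact ⟨M + 1, fun v => Nat.lt_succ_iff.mpr (hM _ (mem_image_of_mem _ (mem_univ v)))⟩
  have main : ∀ N v, M - ρ v ≤ N → v = root s v ∨ Anc par v (root s v) := by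
    intro N
    induction N with
    | zero => intro v hv; have := hM v; omega
    | succ N ih =>
      intro v hv
      by_cases h1 : root s v = v
      · exact Or.inl h1.symm
      right
      obtain ⟨a, ha⟩ : ∃ a, par v = some a := by
        rw [← Option.ne_none_iff_exists']
        intro h0
        exact h1 (h.stay hs le_rfl ((h.par_none v).mp h0))
      rcases h.par_time s hs v a ha with h2 | h2
      · exact absurd h2 h1
      · rw [h2]
        have := h.rank v a ha
        have := hM v
        have := hM a
        rcases ih a (by omega) with h3 | h3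
        · rw [← h3]
          exact Relation.TransGen.single ha
        · exact Relation.TransGen.head ha h3
  exact fun v => main _ v le_rfl

/-- betweenness -/
theorem Hist.between (h : Hist G E t root mer cc par ρ chg) {s : ℕ} (hs : s ≤ t) {p q a : V}
    (hpq : Anc par p q) (hp : root s p = a) (hq : q = a ∨ Anc par q a) : root s q = a := by
  induction hpq using Relation.TransGen.head_induction_on with
  | @single p h1 =>
    rcases h.par_time s hs p q h1 with h2 | h2
    · exfalso
      have h3 := h.rank p q h1
      rw [h2] at hp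
      subst hp
      rcases hq with rfl | hq
      · omega
      · have := h.rank_anc hq
        omega
    · rw [← h2, hp]
  | @head p x h1 h2 ih =>
    apply ih
    rcases h.par_time s hs p x h1 with h3 | h3
    · exfalso
      have h4 := h.rank p x h1
      have h5 := h.rank_anc h2
      rw [h3] at hp
      subst hp
      rcases hq with rfl | hq
      · omega
      · have := h.rank_anc hq
        omega
    · rw [← h3, hp]

/-- the pairs that become active at step `s` -/
theorem Hist.new_active (h : Hist G E t root mer cc par ρ chg) {s : ℕ} (hs : s < t) {c1 c2 : V}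
    (hne : c1 ≠ c2) (hpar : par c1 = some c2) (hc1 : root s c1 = c1)
    (hstep : ∀ x, root (s + 1) x = if root s x = c1 then c2 else root s x) {v a : V}
    (hva : Anc par v a) (h0 : root s v ≠ root s a) (h1 : root (s + 1) v = root (s + 1) a) :
    root s v = c1 ∧ a = c2 := by
  rw [hstep, hstep] at h1
  have hedge : Anc par c1 c2 := Relation.TransGen.single hpar
  have hcase : (root s v = c1 ∧ root s a = c2) ∨ (root s v = c2 ∧ root s a = c1) := by
    split_ifs at h1 with h2 h3 h3
    · exact absurd (h2.trans h3.symm) h0
    · exact Or.inl ⟨h2, h1.symm⟩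
    · exact Or.inr ⟨h1, h3⟩
    · exact absurd h1 h0
  rcases hcase with ⟨g1, g2⟩ | ⟨g1, g2⟩
  · refine ⟨g1, ?_⟩
    have b1 := h.anc_root hs.le v
    rw [g1] at b1
    rcases anc_linear hva b1 with h3 | h3 | h3
    · rw [h3, hc1] at g2
      exact absurd g2 hne
    · exact absurd ((h.between hs.le hva g1 (Or.inr h3)).symm.trans g2) hne
    · -- `c1` is below `a`, so `c2` is below or equal to `a`
      obtain ⟨w, h4, h5⟩ := Relation.TransGen.head'_iff.mp h3
      rw [hpar] at h4
      obtain rfl := Option.some.inj h4
      rcases Relation.reflTransGen_iff_eq_or_transGen.mp h5 with h6 | h6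
      · exact h6
      · exfalso
        have b2 := h.anc_root hs.le a
        rw [g2] at b2
        have := h.rank_anc h6
        rcases b2 with b2 | b2
        · rw [b2] at this; omega
        · have := h.rank_anc b2; omega
  · exfalso
    have b2 := h.anc_root hs.le a
    rw [g2] at b2
    have h3 : Anc par a c2 := by
      rcases b2 with b2 | b2
      · rw [b2]; exact hedge
      · exact b2.trans hedge
    have h4 := h.between hs.le hva g1 (Or.inr h3)
    exact hne (g2.symm.trans h4)

/-- soundness of the merges -/
theorem Hist.sound (h : Hist G E t root mer cc par ρ chg) (R : V → V → Prop) (hR : Equivalence R)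
    (hE : ∀ p ∈ E, R p.1 p.2) (hC : ∀ x y, G.Congr R x y → R x y) :
    ∀ s ≤ t, ∀ x y, root s x = root s y → R x y := by
  intro s
  induction s with
  | zero =>
    intro _ x y hxy
    rw [h.root_zero, h.root_zero] at hxy
    rw [hxy]
    exact hR.refl _
  | succ s ih =>
    intro hs x y hxy
    have ih' := ih (by omega)
    obtain ⟨c1, c2, hne, -, hc, hstep⟩ := h.step s (by omega)
    have hm : R (mer s).1 (mer s).2 := by
      rcases h.just s (by omega) with h1 | h1
      · exact hE _ h1
      · exact hC _ _ (congr_mono (fun u v => ih' u v) h1.1)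
    have key : ∀ a b, root s a = c1 → root s b = c2 → R a b := by
      intro a b ha hb
      rcases hc with ⟨g1, g2⟩ | ⟨g1, g2⟩
      · exact hR.trans (ih' _ _ (ha.trans g1.symm)) (hR.trans hm (ih' _ _ (g2.trans hb.symm)))
      · exact hR.trans (ih' _ _ (ha.trans g2.symm))
          (hR.trans (hR.symm hm) (ih' _ _ (g1.trans hb.symm)))
    rw [hstep, hstep] at hxy
    split_ifs at hxy with h1 h2 h2
    · exact ih' _ _ (h1.trans h2.symm)
    · exact key _ _ h1 hxy.symm
    · exact hR.symm (key _ _ h2 hxy)
    · exact ih' _ _ hxy

/-- the final roots decide the congruence closure -/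
theorem Hist.closure_iff (h : Hist G E t root mer cc par ρ chg) (hcl : Closed G E (root t))
    (x y : V) : G.Closure E x y ↔ root t x = root t y := by
  constructor
  · intro hxy
    exact hxy (fun x y => root t x = root t y) ⟨fun _ => rfl, fun h => h.symm,
      fun h1 h2 => h1.trans h2⟩ hcl.1 hcl.2
  · intro hxy R hR hE hC
    exact h.sound R hR hE hC t le_rfl x y hxy

/-- the total outdegree of the congruence merges -/
theorem Hist.cc_total (h : Hist G E t root mer cc par ρ chg) :
    ∑ s ∈ range t, cc s ≤ ∑ v, (G.out v).length := by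
  refine h.cc_le.trans ?_
  have h1 : ∀ c ∈ ({c | root t c = c} : Finset V), chg c ≤
      ∑ x ∈ {x | root t x = c}, (G.out x).length := by
    intro c hc
    have hc' := (mem_filter.mp hc).2
    exact (Nat.le_add_right _ _).trans (h.chg_le c hc' c hc')
  refine (sum_le_sum h1).trans (le_of_eq ?_)
  exact sum_fiberwise_of_maps_to (fun v _ => mem_filter.mpr ⟨mem_univ _, h.idem t le_rfl v⟩) _

/-- the number of vertices of rank `r` -/
theorem Hist.count_total (h : Hist G E t root mer cc par ρ chg) (r : ℕ) :
    2 ^ r * #{v | ρ v = r} ≤ Fintype.card V := by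
  have hmap : ∀ v ∈ (univ : Finset V), root t v ∈ ({c | root t c = c} : Finset V) := fun v _ =>
    mem_filter.mpr ⟨mem_univ _, h.idem t le_rfl v⟩
  rw [card_eq_sum_card_fiberwise (f := root t) (t := ({c | root t c = c} : Finset V))
    (fun v _ => hmap v (mem_univ v)), mul_sum, ← card_univ, card_eq_sum_card_fiberwise hmap]
  refine sum_le_sum fun c hc => ?_
  have := h.count c r (mem_filter.mp hc).2
  refine le_trans (le_of_eq ?_) this
  congr 2
  ext v
  simp [cls, and_comm]

end facts

end Pool.Agent.EQ
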