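import Pool.Agent.Work.MP_7a8e14_lc.EQ.Lower

/-!
# The hard instances
-/

open Finset

namespace Pool.Agent.EQ

/-- the position of the lowest bit -/
def low (r : ℕ) : ℕ := padicValNat 2 r

theorem low_add (j c : ℕ) : low (j * 2 ^ (c + 1) + 2 ^ c) = c := by
  unfold low
  rw [show j * 2 ^ (c + 1) + 2 ^ c = 2 ^ c * (2 * j + 1) by ring,
    padicValNat.mul (by positivity) (by omega), padicValNat.prime_pow,
    padicValNat.eq_zero_of_not_dvd (by omega), add_zero]

theorem exists_form {r : ℕ} (hr : r ≠ 0) : ∃ j, r = j * 2 ^ (low r + 1) + 2 ^ low r := by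
  obtain ⟨k, m, ⟨j, rfl⟩, h⟩ := Nat.exists_eq_two_pow_mul_odd hr
  have h1 : r = j * 2 ^ (k + 1) + 2 ^ k := by rw [h]; ring
  refine ⟨j, ?_⟩
  have h2 : low r = k := by rw [h1, low_add]
  rw [h2, ← h1]

/-- the vertices: `R r`, `L r` and `M l`, for `0 ≤ r, l ≤ 2 ^ Dd` -/
abbrev Vx (Dd : ℕ) : Type := Fin (2 ^ Dd + 1) ⊕ Fin (2 ^ Dd + 1) ⊕ Fin (2 ^ Dd + 1)

/-- the items: nodes and marks -/
abbrev It (Dd : ℕ) : Type := Fin (2 ^ Dd + 1) ⊕ Fin (2 ^ Dd)

variable {Dd : ℕ}

/-- the leaf of a vertex -/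
def lfV : Vx Dd → ℕ
  | .inl r => r
  | .inr (.inl r) => r - 2 ^ low r
  | .inr (.inr l) => l

theorem lfV_le (v : Vx Dd) : lfV v ≤ 2 ^ Dd := by
  rcases v with r | r | l
  · exact Nat.lt_succ_iff.mp r.2
  · exact (Nat.sub_le _ _).trans (Nat.lt_succ_iff.mp r.2)
  · exact Nat.lt_succ_iff.mp l.2

/-- query coordinate of the mark `l` -/
def qc (k l : ℕ) : ℕ := qh k 1 (l % 2 ^ Dp k 1) 0 - 1

theorem qc_lt (k l : ℕ) : qc k l < Dp k 1 := by
  have := qh_bounds k 1 (l % 2 ^ Dp k 1) 0
  unfold qc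
  omega

theorem xor_div (l g : ℕ) : (l ^^^ 2 ^ g) / 2 ^ (g + 1) = l / 2 ^ (g + 1) := by
  rw [← Nat.shiftRight_eq_div_pow, ← Nat.shiftRight_eq_div_pow, Nat.shiftRight_xor_distrib,
    Nat.shiftRight_eq_div_pow (2 ^ g), Nat.div_eq_of_lt (Nat.pow_lt_pow_right (by omega)
      (by omega)), Nat.xor_zero]

theorem xor_div_ne (l g : ℕ) : (l ^^^ 2 ^ g) / 2 ^ g ≠ l / 2 ^ g := by
  rw [← Nat.shiftRight_eq_div_pow, ← Nat.shiftRight_eq_div_pow, Nat.shiftRight_xor_distrib,
    Nat.shiftRight_eq_div_pow (2 ^ g), Nat.div_self (by positivity)]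
  intro h
  have h2 : (l >>> g) ^^^ ((l >>> g) ^^^ 1) = (l >>> g) ^^^ (l >>> g) := by rw [h]
  rw [← Nat.xor_assoc, Nat.xor_self, Nat.zero_xor] at h2
  omega

theorem xor_lt {l g : ℕ} (hl : l < 2 ^ Dd) (hg : g < Dd) : l ^^^ 2 ^ g < 2 ^ Dd :=
  Nat.xor_lt_two_pow hl (Nat.pow_lt_pow_right (by omega) hg)

/-- coordinate of an item -/
def crd (k : ℕ) : It Dd → ℕ
  | .inl r => low r
  | .inr l => qc k l

/-- first component of an item -/
def fstI : It Dd → Vx Dd
  | .inl r => .inr (.inl r)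
  | .inr l => .inr (.inr l.castSucc)

/-- second component of an item -/
def sndI (k : ℕ) : It Dd → Vx Dd
  | .inl r => .inl r
  | .inr l => .inr (.inr (Fin.ofNat _ (l ^^^ 2 ^ qc k l)))

/-- index of the parent node of an item -/
def upI (k : ℕ) (it : It Dd) : ℕ :=
  lfV (fstI it) / 2 ^ (crd k it + 2) * 2 ^ (crd k it + 2) + 2 ^ (crd k it + 1)

/-- the items below the node `r` -/
noncomputable def prem (Dd k r : ℕ) : List (It Dd) :=
  (univ : Finset (It Dd)).toList.filter (fun it => upI k it = r)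

/-- the labelled graph -/
noncomputable def graph (Dd k : ℕ) : LGraph (Vx Dd) ℕ where
  lab
    | .inl r => 3 * (r : ℕ)
    | .inr (.inl r) => if (r : ℕ) = 0 then (1 : ℕ) else 3 * (r : ℕ)
    | .inr (.inr l) => 3 * (l : ℕ) + 2
  out
    | .inl r => if (r : ℕ) = 0 then [] else .inl 0 :: (prem Dd k r).map (sndI k)
    | .inr (.inl r) => if (r : ℕ) = 0 then [] else .inr (.inr 0) :: (prem Dd k r).map fstI
    | .inr (.inr _) => []

/-- the input pairs -/
noncomputable def pairs (Dd : ℕ) : List (Vx Dd × Vx Dd) :=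
  (univ : Finset (Vx Dd)).toList.map fun v => (.inr (.inr (Fin.ofNat _ (lfV v))), v)

/-- the pairs derived at coordinate `c` -/
def PP (k : ℕ) (x y : Vx Dd) (c : ℕ) : Prop :=
  ∃ it : It Dd, it ≠ .inl 0 ∧ fstI it = x ∧ sndI k it = y ∧ crd k it = c

theorem pairs_leaf (p : Vx Dd × Vx Dd) (hp : p ∈ pairs Dd) : lfV p.1 = lfV p.2 := by
  obtain ⟨v, -, rfl⟩ := List.mem_map.mp hp
  change ((Fin.ofNat (2 ^ Dd + 1) (lfV v) : Fin _) : ℕ) = lfV v
  rw [Fin.val_ofNat, Nat.mod_eq_of_lt (Nat.lt_succ_iff.mpr (lfV_le v))]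

theorem out_R0 (k : ℕ) {r : Fin (2 ^ Dd + 1)} (hr : (r : ℕ) = 0) :
    (graph Dd k).out (.inl r) = [] := if_pos hr

theorem out_L0 (k : ℕ) {r : Fin (2 ^ Dd + 1)} (hr : (r : ℕ) = 0) :
    (graph Dd k).out (.inr (.inl r)) = [] := if_pos hr

theorem out_R (k : ℕ) {r : Fin (2 ^ Dd + 1)} (hr : (r : ℕ) ≠ 0) :
    (graph Dd k).out (.inl r) = .inl 0 :: (prem Dd k r).map (sndI k) := if_neg hr

theorem out_L (k : ℕ) {r : Fin (2 ^ Dd + 1)} (hr : (r : ℕ) ≠ 0) :
    (graph Dd k).out (.inr (.inl r)) = .inr (.inr 0) :: (prem Dd k r).map fstI := if_neg hr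

theorem PP_cr {k : ℕ} (hk : Dp k 1 ≤ Dd) (x y : Vx Dd) (c : ℕ) (h : PP k x y c) :
    Cr lfV c x y := by
  obtain ⟨it, h0, rfl, rfl, rfl⟩ := h
  rcases it with r | l
  · have hr : (r : ℕ) ≠ 0 := fun h => h0 (by rw [show r = 0 from Fin.ext h])
    obtain ⟨j, hj⟩ := exists_form hr
    set c := low r with hc
    have e1 : lfV (fstI (.inl r : It Dd)) = j * 2 ^ (c + 1) := by
      change (r : ℕ) - 2 ^ low r = _
      rw [← hc]; omega
    have e2 : lfV (sndI k (.inl r : It Dd)) = j * 2 ^ (c + 1) + 2 ^ c := hj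
    have e3 : crd k (.inl r : It Dd) = c := rfl
    rw [e3]
    refine ⟨?_, ?_⟩
    · rw [e1, e2, Nat.mul_div_cancel _ (by positivity), Nat.add_comm,
        Nat.add_mul_div_right _ _ (by positivity),
        Nat.div_eq_of_lt (Nat.pow_lt_pow_right (by omega) (by omega)), zero_add]
    · rw [e1, e2, show j * 2 ^ (c + 1) = 2 * j * 2 ^ c by ring,
        Nat.mul_div_cancel _ (by positivity), Nat.add_comm,
        Nat.add_mul_div_right _ _ (by positivity), Nat.div_self (by positivity)]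
      omega
  · have hg : qc k l < Dd := (qc_lt k l).trans_le hk
    have e1 : lfV (fstI (.inr l : It Dd)) = l := rfl
    have e2 : lfV (sndI k (.inr l : It Dd)) = l ^^^ 2 ^ qc k l := by
      change ((Fin.ofNat (2 ^ Dd + 1) _ : Fin _) : ℕ) = _
      rw [Fin.val_ofNat, Nat.mod_eq_of_lt ((xor_lt l.2 hg).trans (Nat.lt_succ_self _))]
    have e3 : crd k (.inr l : It Dd) = qc k l := rfl
    rw [e3]
    exact ⟨by rw [e1, e2, xor_div], by rw [e1, e2]; exact (xor_div_ne _ _).symm⟩

theorem mem_prem {k r : ℕ} {it : It Dd} : it ∈ prem Dd k r ↔ upI k it = r := by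
  unfold prem
  rw [List.mem_filter]
  simp

theorem data {k : ℕ} (hk : Dp k 1 ≤ Dd) : Data (graph Dd k) (pairs Dd) lfV Dd (PP k) := by
  refine ⟨fun v => ?_, pairs_leaf, PP_cr hk, ?_, ?_, ?_⟩
  · have := lfV_le v
    have h2 : 2 ^ (Dd + 1) = 2 * 2 ^ Dd := by ring
    have h3 : 0 < 2 ^ Dd := by positivity
    omega
  · rintro x y g ⟨it, h0, rfl, rfl, rfl⟩ hg
    rcases it with r | l
    · have hr : (r : ℕ) ≠ 0 := fun h => h0 (by rw [show r = 0 from Fin.ext h])
      change (r : ℕ) - 2 ^ low r < 2 ^ Dd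
      have h1 : 0 < 2 ^ low r := by positivity
      have := r.2
      omega
    · exact l.2
  · intro l hl c hc
    set r := l / 2 ^ (c + 1) * 2 ^ (c + 1) + 2 ^ c with hr
    have hlow : low r = c := low_add _ _
    have hrlt : r < 2 ^ Dd := by
      have h1 : l / 2 ^ (c + 1) < 2 ^ (Dd - (c + 1)) := by
        rw [Nat.div_lt_iff_lt_mul (by positivity), ← pow_add]
        rwa [show Dd - (c + 1) + (c + 1) = Dd by omega]
      have h2 : (l / 2 ^ (c + 1) + 1) * 2 ^ (c + 1) ≤ 2 ^ (Dd - (c + 1)) * 2 ^ (c + 1) :=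
        Nat.mul_le_mul_right _ h1
      rw [← pow_add, show Dd - (c + 1) + (c + 1) = Dd by omega, add_mul, one_mul] at h2
      have h3 : 2 ^ (c + 1) = 2 * 2 ^ c := by ring
      have h4 : 0 < 2 ^ c := by positivity
      omega
    have hr0 : 0 < r := by positivity
    refine ⟨_, _, ⟨.inl ⟨r, by omega⟩, fun h => ?_, rfl, rfl, hlow⟩, ?_⟩
    · have := Fin.val_eq_of_eq (Sum.inl.inj h)
      simp at this
      omega
    · change (r - 2 ^ low r) / 2 ^ (c + 1) = l / 2 ^ (c + 1)
      rw [hlow, hr, Nat.add_sub_cancel, Nat.mul_div_cancel _ (by positivity)]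
  · intro u v hlab hne
    -- the common node
    have key : ∀ r : Fin (2 ^ Dd + 1), (r : ℕ) ≠ 0 → ∃ c,
        PP k (.inr (.inl r) : Vx Dd) (.inl r) c ∧ ((r : ℕ) - 2 ^ low r) % 2 ^ c = 0 ∧
        (r : ℕ) % 2 ^ c = 0 ∧ ∀ g, g + 1 = c → ∀ it : It Dd, crd k it = g →
          (lfV (fstI it) / 2 ^ (c + 1) = ((r : ℕ) - 2 ^ low r) / 2 ^ (c + 1)) →
          upI k it = r := by
      intro r hr0
      obtain ⟨j, hj⟩ := exists_form hr0
      set c := low r with hc
      refine ⟨c, ⟨.inl r, fun h => hr0 ?_, rfl, rfl, rfl⟩, ?_, ?_, ?_⟩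
      · rw [Sum.inl.inj h]; rfl
      · rw [hj, Nat.add_sub_cancel, show j * 2 ^ (c + 1) = 2 * j * 2 ^ c by ring,
          Nat.mul_mod_left]
      · rw [hj, show j * 2 ^ (c + 1) + 2 ^ c = (2 * j + 1) * 2 ^ c by ring, Nat.mul_mod_left]
      · intro g hg it hit hb
        unfold upI
        rw [hit, show g + 2 = c + 1 by omega, hg, hb]
        conv_rhs => rw [hj]
        rw [show (r : ℕ) - 2 ^ c = j * 2 ^ (c + 1) by omega, Nat.mul_div_cancel _ (by positivity)]
    have labL : ∀ r : Fin (2 ^ Dd + 1), (graph Dd k).lab (.inr (.inl r)) =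
        (if (r : ℕ) = 0 then (1 : ℕ) else 3 * (r : ℕ)) := fun _ => rfl
    have labR : ∀ r : Fin (2 ^ Dd + 1), (graph Dd k).lab (.inl r) = 3 * (r : ℕ) :=
      fun _ => rfl
    have labM : ∀ l : Fin (2 ^ Dd + 1), (graph Dd k).lab (.inr (.inr l)) = 3 * (l : ℕ) + 2 :=
      fun _ => rfl
    rcases u with r | r | l <;> rcases v with r' | r' | l' <;>
      simp only [labL, labR, labM] at hlab
    · exact absurd (by rw [show r = r' from Fin.ext (by omega)]) hne
    · split_ifs at hlab with h0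
      · omega
      obtain rfl : r = r' := Fin.ext (by omega)
      obtain ⟨c, h1, h2, h3, h4⟩ := key r h0
      refine ⟨c, Or.inr h1, h3, h2, fun R hR hF g hg x y hxy hx => ?_⟩
      obtain ⟨it, -, rfl, rfl, hcr⟩ := hxy
      have h5 : lfV (Sum.inr (Sum.inl r) : Vx Dd) / 2 ^ (c + 1) =
          lfV (Sum.inl r : Vx Dd) / 2 ^ (c + 1) := (PP_cr hk _ _ _ h1).1
      have h6 := h4 g hg it hcr (hx.trans h5.symm)
      rw [out_R k h0, out_L k h0, List.forall₂_cons] at hF
      have hF2 := hF.2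
      rw [List.forall₂_map_left_iff, List.forall₂_map_right_iff, List.forall₂_same] at hF2
      exact hR _ _ (hF2 it (mem_prem.mpr h6))
    · omega
    · split_ifs at hlab with h0
      · omega
      obtain rfl : r = r' := Fin.ext (by omega)
      obtain ⟨c, h1, h2, h3, h4⟩ := key r h0
      refine ⟨c, Or.inl h1, h2, h3, fun R hR hF g hg x y hxy hx => ?_⟩
      obtain ⟨it, -, rfl, rfl, hcr⟩ := hxy
      have h6 := h4 g hg it hcr hx
      rw [out_R k h0, out_L k h0, List.forall₂_cons] at hF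
      have hF2 := hF.2
      rw [List.forall₂_map_left_iff, List.forall₂_map_right_iff, List.forall₂_same] at hF2
      exact hF2 it (mem_prem.mpr h6)
    · refine absurd ?_ hne
      have hrr : (r : ℕ) = r' := by
        split_ifs at hlab <;> omega
      rw [show r = r' from Fin.ext hrr]
    · split_ifs at hlab <;> omega
    · omega
    · split_ifs at hlab <;> omega
    · exact absurd (by rw [show l = l' from Fin.ext (by omega)]) hne

/-- the goal -/
def goalL (Dd : ℕ) : Vx Dd := .inr (.inl (Fin.last _))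

/-- the goal -/
def goalR (Dd : ℕ) : Vx Dd := .inl (Fin.last _)

theorem low_pow (c : ℕ) : low (2 ^ c) = c := by
  have := low_add 0 c
  rwa [zero_mul, zero_add] at this

theorem goal_cr (Dd : ℕ) : Cr lfV Dd (goalL Dd) (goalR Dd) := by
  have e1 : lfV (goalL Dd) = 0 := by
    change 2 ^ Dd - 2 ^ low (2 ^ Dd) = 0
    rw [low_pow, Nat.sub_self]
  have e2 : lfV (goalR Dd) = 2 ^ Dd := rfl
  refine ⟨?_, ?_⟩
  · rw [e1, e2, Nat.zero_div, Nat.div_eq_of_lt (Nat.pow_lt_pow_right (by omega) (by omega))]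
  · rw [e1, e2, Nat.zero_div, Nat.div_self (by positivity)]
    omega

/-- all blocks are contained in classes of the congruence closure -/
theorem block_closure {k : ℕ} (hk : Dp k 1 ≤ Dd) (R : Vx Dd → Vx Dd → Prop) (hR : Equivalence R)
    (hE : ∀ p ∈ pairs Dd, R p.1 p.2) (hC : ∀ x y, (graph Dd k).Congr R x y → R x y) :
    ∀ c ≤ Dd + 1, ∀ u v : Vx Dd, lfV u / 2 ^ c = lfV v / 2 ^ c → R u v := by
  intro c
  induction c with
  | zero =>
    intro _ u v h
    rw [pow_zero, Nat.div_one, Nat.div_one] at h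
    have hub : ∀ w : Vx Dd, R (.inr (.inr (Fin.ofNat _ (lfV w)))) w := fun w =>
      hE _ (List.mem_map.mpr ⟨w, by simp, rfl⟩)
    have h1 := hub u
    have h2 := hub v
    rw [h] at h1
    exact hR.trans (hR.symm h1) h2
  | succ c ih =>
    intro hc u v h
    have ih' := ih (by omega)
    by_cases h0 : lfV u / 2 ^ c = lfV v / 2 ^ c
    · exact ih' u v h0
    set j := lfV u / 2 ^ (c + 1) with hj
    set r := j * 2 ^ (c + 1) + 2 ^ c with hr
    have hlow : low r = c := low_add _ _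
    have two : ∀ x : ℕ, x / 2 ^ (c + 1) = j → x / 2 ^ c = 2 * j ∨ x / 2 ^ c = 2 * j + 1 := by
      intro x hx
      rw [pow_succ, ← Nat.div_div_eq_div_mul] at hx
      omega
    have hge : ∀ x : ℕ, x / 2 ^ c = 2 * j + 1 → r ≤ x := by
      intro x hx
      have h1 := Nat.div_mul_le_self x (2 ^ c)
      rw [hx] at h1
      calc r = (2 * j + 1) * 2 ^ c := by rw [hr]; ring
        _ ≤ x := h1
    have hrle : r ≤ 2 ^ Dd := by
      rcases two _ rfl with h1 | h1
      · rcases two _ h.symm with h2 | h2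
        · exact absurd (h1.trans h2.symm) h0
        · exact (hge _ h2).trans (lfV_le v)
      · exact (hge _ h1).trans (lfV_le u)
    set rr : Fin (2 ^ Dd + 1) := ⟨r, by omega⟩ with hrr
    have eL : lfV (.inr (.inl rr) : Vx Dd) / 2 ^ c = 2 * j := by
      change (r - 2 ^ low r) / 2 ^ c = 2 * j
      rw [hlow, hr, Nat.add_sub_cancel, show j * 2 ^ (c + 1) = 2 * j * 2 ^ c by ring,
        Nat.mul_div_cancel _ (by positivity)]
    have eR : lfV (.inl rr : Vx Dd) / 2 ^ c = 2 * j + 1 := by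
      change r / 2 ^ c = 2 * j + 1
      rw [hr, show j * 2 ^ (c + 1) + 2 ^ c = (2 * j + 1) * 2 ^ c by ring,
        Nat.mul_div_cancel _ (by positivity)]
    have hrr0 : (rr : ℕ) ≠ 0 := by
      change r ≠ 0
      have : 0 < 2 ^ c := by positivity
      omega
    have hLR : R (.inr (.inl rr)) (.inl rr) := by
      refine hC _ _ ⟨if_neg hrr0, ?_⟩
      rw [out_L k hrr0, out_R k hrr0]
      refine List.Forall₂.cons (ih' _ _ ?_) ?_
      · have e1 : lfV (.inr (.inr 0) : Vx Dd) = 0 := rfl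
        have e2 : lfV (.inl 0 : Vx Dd) = 0 := rfl
        rw [e1, e2]
      rw [List.forall₂_map_left_iff, List.forall₂_map_right_iff, List.forall₂_same]
      intro it hit
      have hup : upI k it = r := mem_prem.mp hit
      have h3 : crd k it + 1 = c := by
        rw [← hlow, ← hup]
        exact (low_add _ _).symm
      by_cases h00 : it = .inl 0
      · subst h00
        apply ih'
        have e1 : lfV (fstI (.inl 0 : It Dd)) = 0 := by
          change 0 - 2 ^ low 0 = 0
          exact Nat.zero_sub _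
        have e2 : lfV (sndI k (.inl 0 : It Dd)) = 0 := rfl
        rw [e1, e2]
      · have h4 := (PP_cr hk _ _ _ ⟨it, h00, rfl, rfl, rfl⟩).1
        rw [h3] at h4
        exact ih' _ _ h4
    have fin : ∀ a b : Vx Dd, lfV a / 2 ^ c = 2 * j → lfV b / 2 ^ c = 2 * j + 1 → R a b :=
      fun a b ha hb => hR.trans (ih' a _ (ha.trans eL.symm))
        (hR.trans hLR (ih' _ b (eR.trans hb.symm)))
    rcases two _ rfl with h1 | h1 <;> rcases two _ h.symm with h2 | h2
    · exact absurd (h1.trans h2.symm) h0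
    · exact fin u v h1 h2
    · exact hR.symm (fin v u h2 h1)
    · exact absurd (h1.trans h2.symm) h0

theorem goal_closure {k : ℕ} (hk : Dp k 1 ≤ Dd) :
    (graph Dd k).Closure (pairs Dd) (goalL Dd) (goalR Dd) := by
  intro R hR hE hC
  exact block_closure hk R hR hE hC (Dd + 1) le_rfl _ _ (goal_cr Dd).1

/-- **Lower bound for derivations in the hard graph.** -/
theorem hard_lower {k : ℕ} (hk : Dp k 1 ≤ Dd) {D : List (Vx Dd × Vx Dd)} {c : ℕ}
    (h : (graph Dd k).Der (pairs Dd) D c) (hg : Avail D (goalL Dd) (goalR Dd)) :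
    k * 2 ^ Dd ≤ 6 * D.length := by
  obtain ⟨line, h1, h2⟩ := h.indexed (goalL Dd)
  choose! mid hmid using h2
  obtain ⟨i0, hi0, hl⟩ : ∃ i0 < D.length, Cr lfV Dd (line i0).1 (line i0).2 := by
    rcases hg with hg | hg | hg
    · exact absurd (congrArg (fun v => lfV v / 2 ^ Dd) hg) (goal_cr Dd).2
    · obtain ⟨i0, hi0, hl⟩ := (h1 _).mp hg
      exact ⟨i0, hi0, by rw [hl]; exact goal_cr Dd⟩
    · obtain ⟨i0, hi0, hl⟩ := (h1 _).mp hg
      exact ⟨i0, hi0, by rw [hl]; exact (goal_cr Dd).symm⟩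
  have hpos : 0 < 2 ^ Dd := by positivity
  have hlow := (data hk).lower (k := k) (s := 1) hmid hi0 hl hk
    (mk := fun l _ => (.inr (.inr (if h : l < 2 ^ Dd then ⟨l, by omega⟩ else ⟨0, by omega⟩))))
    (fun l hl i _ => by simp [hl, lfV]) (fun _ _ i hi i' hi' _ => by omega)
    (fun l hl i hi => by
      obtain rfl : i = 0 := by omega
      refine ⟨sndI k (.inr ⟨l, hl⟩ : It Dd), Or.inl ⟨.inr ⟨l, hl⟩, by simp, ?_, rfl, rfl⟩⟩
      simp [hl, fstI])
  rwa [mul_one] at hlow

/-! ## Size -/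

theorem sum_prem (Dd k : ℕ) : ∑ r : Fin (2 ^ Dd + 1), (prem Dd k r).length ≤
    Fintype.card (It Dd) := by
  classical
  have h1 : ∀ r : Fin (2 ^ Dd + 1), (prem Dd k r).length =
      #{it ∈ (univ : Finset (It Dd)) | upI k it = r} := by
    intro r
    unfold prem
    rw [← Multiset.coe_card, ← Multiset.filter_coe, coe_toList]
    rfl
  simp only [h1]
  rw [← card_biUnion]
  · exact card_le_univ _
  · intro r _ r' _ hne
    rw [Function.onFun, disjoint_left]
    intro it h2 h3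
    exact hne (Fin.ext ((mem_filter.mp h2).2.symm.trans (mem_filter.mp h3).2))

theorem sum_out (Dd k : ℕ) : ∑ v : Vx Dd, ((graph Dd k).out v).length =
    2 * ∑ r : Fin (2 ^ Dd + 1), (if (r : ℕ) = 0 then 0 else (prem Dd k r).length + 1) := by
  rw [Fintype.sum_sum_type, Fintype.sum_sum_type]
  have h1 : ∀ r : Fin (2 ^ Dd + 1), ((graph Dd k).out (.inl r)).length =
      if (r : ℕ) = 0 then 0 else (prem Dd k r).length + 1 := by
    intro r
    by_cases h : (r : ℕ) = 0
    · rw [out_R0 k h, if_pos h, List.length_nil]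
    · rw [out_R k h, if_neg h]
      simp
  have h2 : ∀ r : Fin (2 ^ Dd + 1), ((graph Dd k).out (.inr (.inl r))).length =
      if (r : ℕ) = 0 then 0 else (prem Dd k r).length + 1 := by
    intro r
    by_cases h : (r : ℕ) = 0
    · rw [out_L0 k h, if_pos h, List.length_nil]
    · rw [out_L k h, if_neg h]
      simp
  have h3 : ∀ r : Fin (2 ^ Dd + 1), ((graph Dd k).out (.inr (.inr r))).length = 0 :=
    fun _ => rfl
  simp only [h1, h2, h3, sum_const_zero]
  ring

theorem size_le {Dd : ℕ} (k : ℕ) (hDd : 2 ≤ Dd) :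
    size (graph Dd k) (pairs Dd) ≤ 16 * 2 ^ Dd := by
  have h1 := sum_prem Dd k
  have h2 := sum_out Dd k
  have h7 : ∑ r : Fin (2 ^ Dd + 1), (if (r : ℕ) = 0 then 0 else (prem Dd k r).length + 1) ≤
      ∑ r : Fin (2 ^ Dd + 1), (prem Dd k r).length + (2 ^ Dd + 1) := by
    calc _ ≤ ∑ r : Fin (2 ^ Dd + 1), ((prem Dd k r).length + 1) := by
          refine sum_le_sum fun r _ => ?_
          split_ifs <;> omega
      _ = _ := by rw [sum_add_distrib, sum_const, card_univ, Fintype.card_fin, smul_eq_mul,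
                mul_one]
  have h3 : (pairs Dd).length = Fintype.card (Vx Dd) := by
    unfold pairs
    rw [List.length_map, length_toList]
    rfl
  have h4 : Fintype.card (Vx Dd) = 3 * 2 ^ Dd + 3 := by
    simp only [Vx, Fintype.card_sum, Fintype.card_fin]
    ring
  have h5 : Fintype.card (It Dd) = 2 * 2 ^ Dd + 1 := by
    simp only [It, Fintype.card_sum, Fintype.card_fin]
    ring
  have h6 : 2 ^ 2 ≤ 2 ^ Dd := Nat.pow_le_pow_right (by omega) hDd
  unfold size
  rw [h2, h3, h4]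
  rw [h5] at h1
  omega

/-! ## The graph is a graph of ground terms -/

/-- rank function of the graph -/
def hgt : Vx Dd → ℕ
  | .inl r => if (r : ℕ) = 0 then 0 else low r + 1
  | .inr (.inl r) => if (r : ℕ) = 0 then 0 else low r + 1
  | .inr (.inr _) => 0

theorem low_up {k : ℕ} {it : It Dd} : low (upI k it) = crd k it + 1 := low_add _ _

theorem acyclic (k : ℕ) (v w : Vx Dd) (hw : w ∈ (graph Dd k).out v) : hgt w < hgt v := by
  have hfst : ∀ it : It Dd, hgt (fstI it) ≤ crd k it + 1 := by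
    rintro (r | l)
    · change (if (r : ℕ) = 0 then 0 else low r + 1) ≤ low r + 1
      split_ifs <;> omega
    · exact Nat.zero_le _
  have hsnd : ∀ it : It Dd, hgt (sndI k it) ≤ crd k it + 1 := by
    rintro (r | l)
    · change (if (r : ℕ) = 0 then 0 else low r + 1) ≤ low r + 1
      split_ifs <;> omega
    · exact Nat.zero_le _
  rcases v with r | r | l
  · by_cases h : (r : ℕ) = 0
    · rw [out_R0 k h] at hw
      cases hw
    · rw [out_R k h] at hw
      have hv : hgt (.inl r : Vx Dd) = low r + 1 := if_neg h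
      rw [hv]
      rcases List.mem_cons.mp hw with rfl | hw
      · exact Nat.succ_pos _
      · obtain ⟨it, hit, rfl⟩ := List.mem_map.mp hw
        have h1 := mem_prem.mp hit
        have h2 := hsnd it
        rw [← h1, low_up]
        omega
  · by_cases h : (r : ℕ) = 0
    · rw [out_L0 k h] at hw
      cases hw
    · rw [out_L k h] at hw
      have hv : hgt (.inr (.inl r) : Vx Dd) = low r + 1 := if_neg h
      rw [hv]
      rcases List.mem_cons.mp hw with rfl | hw
      · exact Nat.succ_pos _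
      · obtain ⟨it, hit, rfl⟩ := List.mem_map.mp hw
        have h1 := mem_prem.mp hit
        have h2 := hfst it
        rw [← h1, low_up]
        omega
  · simp [graph] at hw

theorem reduced (k : ℕ) (u v : Vx Dd) (h : (graph Dd k).Congr (fun x y => x = y) u v) :
    u = v := by
  obtain ⟨hlab, hF⟩ := h
  have labL : ∀ r : Fin (2 ^ Dd + 1), (graph Dd k).lab (.inr (.inl r)) =
      (if (r : ℕ) = 0 then (1 : ℕ) else 3 * (r : ℕ)) := fun _ => rfl
  have labR : ∀ r : Fin (2 ^ Dd + 1), (graph Dd k).lab (.inl r) = 3 * (r : ℕ) :=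
    fun _ => rfl
  have labM : ∀ l : Fin (2 ^ Dd + 1), (graph Dd k).lab (.inr (.inr l)) = 3 * (l : ℕ) + 2 :=
    fun _ => rfl
  rcases u with r | r | l <;> rcases v with r' | r' | l' <;>
    simp only [labL, labR, labM] at hlab
  · rw [show r = r' from Fin.ext (by omega)]
  · split_ifs at hlab with h0
    · omega
    obtain rfl : r = r' := Fin.ext (by omega)
    rw [out_R k h0, out_L k h0, List.forall₂_cons] at hF
    exact absurd hF.1 (by simp)
  · omega
  · split_ifs at hlab with h0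
    · omega
    obtain rfl : r = r' := Fin.ext (by omega)
    rw [out_R k h0, out_L k h0, List.forall₂_cons] at hF
    exact absurd hF.1 (by simp)
  · have hrr : (r : ℕ) = r' := by
      split_ifs at hlab <;> omega
    rw [show r = r' from Fin.ext hrr]
  · split_ifs at hlab <;> omega
  · omega
  · split_ifs at hlab <;> omega
  · rw [show l = l' from Fin.ext (by omega)]

end Pool.Agent.EQ
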