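import Pool.Agent.Work.MP_7a8e14_lc.EQ.Defs
import Pool.Agent.Work.MP_7a8e14_lc.EQ.Count

/-!
# From derivations to the counting argument
-/

open Finset

namespace Pool.Agent.EQ

variable {V L : Type*}

/-- `u` and `v` lie in the same block of height `c + 1` and in different blocks of height `c` -/
def Cr (lf : V → ℕ) (c : ℕ) (u v : V) : Prop :=
  lf u / 2 ^ (c + 1) = lf v / 2 ^ (c + 1) ∧ lf u / 2 ^ c ≠ lf v / 2 ^ c

theorem Cr.symm {lf : V → ℕ} {c : ℕ} {u v : V} (h : Cr lf c u v) : Cr lf c v u :=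
  ⟨h.1.symm, h.2.symm⟩

theorem div_eq_of_le {a b x y : ℕ} (hab : a ≤ b) (h : x / 2 ^ a = y / 2 ^ a) :
    x / 2 ^ b = y / 2 ^ b := by
  obtain ⟨c, rfl⟩ := Nat.exists_eq_add_of_le hab
  rw [pow_add, ← Nat.div_div_eq_div_mul, ← Nat.div_div_eq_div_mul, h]

theorem exists_cr {lf : V → ℕ} {c N : ℕ} {u v : V} (h1 : lf u / 2 ^ c ≠ lf v / 2 ^ c)
    (h2 : lf u / 2 ^ N = lf v / 2 ^ N) : ∃ c', c ≤ c' ∧ c' < N ∧ Cr lf c' u v := by
  classical
  have hex : ∃ e, lf u / 2 ^ e = lf v / 2 ^ e := ⟨N, h2⟩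
  have h3 := Nat.find_spec hex
  have h4 : c < Nat.find hex := by
    by_contra h
    exact h1 (div_eq_of_le (not_lt.mp h) h3)
  have h5 : Nat.find hex ≤ N := Nat.find_min' hex h2
  refine ⟨Nat.find hex - 1, by omega, by omega, ?_, Nat.find_min hex (by omega)⟩
  rw [show Nat.find hex - 1 + 1 = Nat.find hex by omega]
  exact h3

theorem Cr.unique {lf : V → ℕ} {c c' : ℕ} {u v : V} (h : Cr lf c u v) (h' : Cr lf c' u v) :
    c = c' := by
  rcases lt_trichotomy c c' with h1 | h1 | h1
  · exact absurd (div_eq_of_le (by omega) h.1) h'.2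
  · exact h1
  · exact absurd (div_eq_of_le (by omega) h'.1) h.2

/-- the data of an instance -/
structure Data (G : LGraph V L) (E : List (V × V)) (lf : V → ℕ) (Dd : ℕ)
    (P : V → V → ℕ → Prop) : Prop where
  lf_lt : ∀ v, lf v < 2 ^ (Dd + 1)
  E_leaf : ∀ p ∈ E, lf p.1 = lf p.2
  P_cr : ∀ x y c, P x y c → Cr lf c x y
  P_lt : ∀ x y g, P x y g → g < Dd → lf x < 2 ^ Dd
  P_ex : ∀ l < 2 ^ Dd, ∀ c < Dd, ∃ a b, P a b c ∧ lf a / 2 ^ (c + 1) = l / 2 ^ (c + 1)
  gen : ∀ u v, G.lab u = G.lab v → lf u ≠ lf v → ∃ c, (P u v c ∨ P v u c) ∧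
    lf u % 2 ^ c = 0 ∧ lf v % 2 ^ c = 0 ∧ ∀ R : V → V → Prop, (∀ a b, R a b → R b a) →
      List.Forall₂ R (G.out u) (G.out v) → ∀ g, g + 1 = c → ∀ x y, P x y g →
        lf x / 2 ^ (c + 1) = lf u / 2 ^ (c + 1) → R x y

section

variable {G : LGraph V L} {E : List (V × V)} {lf : V → ℕ} {Dd : ℕ} {P : V → V → ℕ → Prop}
  {line : ℕ → V × V} {n : ℕ} {mid : ℕ → V}

theorem Data.ne (hD : Data G E lf Dd P) {x y : V} {c : ℕ} (h : P x y c) : x ≠ y := by
  rintro rfl
  exact (hD.P_cr x x c h).2 rfl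

/-- the order of the lines -/
theorem Data.order (hD : Data G E lf Dd P) (hJ : ∀ i < n, Just G E line i (mid i)) :
    ∀ i < n, ∀ c, Cr lf c (line i).1 (line i).2 → ∀ g < c, ∀ x y, P x y g →
      lf x / 2 ^ (c + 1) = lf (line i).1 / 2 ^ (c + 1) → Av line i x y := by
  intro i
  induction i using Nat.strong_induction_on with
  | _ i ih =>
    intro hi c hc g hg x y hxy hx
    rcases hJ i hi with hE | ⟨h1, h2⟩ | hcg
    · exact absurd (by rw [hD.E_leaf _ hE]) hc.2
    · -- transitivity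
      set u := (line i).1
      set v := (line i).2
      set w := mid i
      -- a line leaving the block or crossing at the same height
      have main : ∀ a b : V, Av line i a b → lf a / 2 ^ (c + 1) = lf u / 2 ^ (c + 1) →
          lf a / 2 ^ c ≠ lf b / 2 ^ c → Av line i x y := by
        intro a b hab ha hne
        have hab' : a ≠ b := fun h => hne (by rw [h])
        rcases hab with h | ⟨j, hj, h⟩
        · exact absurd h hab'
        · obtain ⟨c', hc1, hc2, hc3⟩ := exists_cr hne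
            (show lf a / 2 ^ (Dd + 1) = lf b / 2 ^ (Dd + 1) by
              rw [Nat.div_eq_of_lt (hD.lf_lt a), Nat.div_eq_of_lt (hD.lf_lt b)])
          have hx' : lf x / 2 ^ (c' + 1) = lf a / 2 ^ (c' + 1) :=
            div_eq_of_le (by omega : c + 1 ≤ c' + 1) (hx.trans ha.symm)
          rcases h with h | h
          · refine (ih j hj (by omega) c' ?_ g (by omega) x y hxy ?_).mono hj.le
            · rw [h]; exact hc3
            · rw [h]; exact hx'
          · refine (ih j hj (by omega) c' ?_ g (by omega) x y hxy ?_).mono hj.le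
            · rw [h]; exact hc3.symm
            · rw [h]; exact hx'.trans hc3.1
      by_cases hw : lf w / 2 ^ c = lf u / 2 ^ c
      · refine main v w h2.symm hc.1.symm ?_
        rw [hw]
        exact hc.2.symm
      · exact main u w h1 rfl (fun h => hw h.symm)
    · -- congruence
      obtain ⟨c', hP, -, -, hR⟩ := hD.gen _ _ hcg.1 (fun h => hc.2 (by rw [h]))
      have hcc : c' = c := by
        rcases hP with hP | hP
        · exact (hD.P_cr _ _ _ hP).unique hc
        · exact (hD.P_cr _ _ _ hP).symm.unique hc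
      subst hcc
      have hR' := hR (Av line i) (fun _ _ h => h.symm) hcg.2
      rcases Nat.lt_or_ge (g + 1) c' with h1 | h1
      · have hcD : c' < Dd + 1 := by
          by_contra h
          refine hc.2 ?_
          rw [Nat.div_eq_of_lt, Nat.div_eq_of_lt]
          · exact (hD.lf_lt _).trans_le (Nat.pow_le_pow_right (by omega) (by omega))
          · exact (hD.lf_lt _).trans_le (Nat.pow_le_pow_right (by omega) (by omega))
        obtain ⟨a, b, hab, he⟩ := hD.P_ex (lf x) (hD.P_lt x y g hxy (by omega)) (c' - 1) (by omega)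
        rw [show c' - 1 + 1 = c' by omega] at he
        have hav := hR' (c' - 1) (by omega) a b hab
          ((div_eq_of_le (by omega : c' ≤ c' + 1) he).trans hx)
        rcases hav with h | ⟨j, hj, h⟩
        · exact absurd h (hD.ne hab)
        · have hcr := hD.P_cr _ _ _ hab
          rcases h with h | h
          · refine (ih j hj (by omega) (c' - 1) ?_ g (by omega) x y hxy ?_).mono hj.le
            · rw [h]; exact hcr
            · rw [h, show c' - 1 + 1 = c' by omega]; exact he.symm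
          · refine (ih j hj (by omega) (c' - 1) ?_ g (by omega) x y hxy ?_).mono hj.le
            · rw [h]; exact hcr.symm
            · have := hcr.1
              rw [show c' - 1 + 1 = c' by omega] at this
              rw [h, show c' - 1 + 1 = c' by omega]
              exact he.symm.trans this
      · exact hR' g (by omega) x y hxy hx

/-- the block of height `c + 1` around the leaf `l` is opened before or at step `i` -/
def Op (lf : V → ℕ) (line : ℕ → V × V) (i c l : ℕ) : Prop :=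
  ∃ j ≤ i, Cr lf c (line j).1 (line j).2 ∧ lf (line j).1 / 2 ^ (c + 1) = l / 2 ^ (c + 1)

theorem Op.mono {i j c l : ℕ} (h : Op lf line i c l) (hij : i ≤ j) : Op lf line j c l := by
  obtain ⟨k, hk, h⟩ := h
  exact ⟨k, by omega, h⟩

theorem Op.congr {i c l l' : ℕ} (h : Op lf line i c l) (hl : l / 2 ^ (c + 1) = l' / 2 ^ (c + 1)) :
    Op lf line i c l' := by
  obtain ⟨k, hk, h1, h2⟩ := h
  exact ⟨k, hk, h1, h2.trans hl⟩

theorem Data.le_Dd (hD : Data G E lf Dd P) {c : ℕ} {u v : V} (h : Cr lf c u v) : c ≤ Dd := by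
  by_contra hc
  refine h.2 ?_
  rw [Nat.div_eq_of_lt, Nat.div_eq_of_lt]
  · exact (hD.lf_lt _).trans_le (Nat.pow_le_pow_right (by omega) (by omega))
  · exact (hD.lf_lt _).trans_le (Nat.pow_le_pow_right (by omega) (by omega))

theorem Data.op_down (hD : Data G E lf Dd P) (hJ : ∀ i < n, Just G E line i (mid i)) {i c c' l : ℕ}
    (hi : i < n) (hl : l < 2 ^ Dd) (hc : c ≤ Dd) (hcc : c' ≤ c) (h : Op lf line i c l) :
    Op lf line i c' l := by
  rcases Nat.lt_or_ge c' c with h1 | h1
  · obtain ⟨j, hj, hcr, hb⟩ := h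
    obtain ⟨a, b, hab, he⟩ := hD.P_ex l hl c' (by omega)
    have hav := hD.order hJ j (by omega) c hcr c' h1 a b hab
      ((div_eq_of_le (by omega : c' + 1 ≤ c + 1) he).trans hb.symm)
    rcases hav with h | ⟨k, hk, h⟩
    · exact absurd h (hD.ne hab)
    · have h3 := hD.P_cr _ _ _ hab
      rcases h with h | h
      · exact ⟨k, by omega, by rw [h]; exact h3, by rw [h]; exact he⟩
      · exact ⟨k, by omega, by rw [h]; exact h3.symm, by rw [h]; exact h3.1.symm.trans he⟩
  · rwa [show c' = c by omega]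

/-- `v` occurs in step `i` -/
def Tc (line : ℕ → V × V) (mid : ℕ → V) (v : V) (i : ℕ) : Prop :=
  v = (line i).1 ∨ v = (line i).2 ∨ v = mid i

/-- `v` is touched in the window of its block of height `c + 1` -/
def Tw (lf : V → ℕ) (line : ℕ → V × V) (mid : ℕ → V) (n : ℕ) (v : V) (c : ℕ) : Prop :=
  ∃ i < n, Tc line mid v i ∧ Op lf line i c (lf v) ∧ ¬ Op lf line i (c + 1) (lf v)

/-- the pairs are derived in their windows -/
theorem Data.pair_time (hD : Data G E lf Dd P) (hJ : ∀ i < n, Just G E line i (mid i)) {i0 : ℕ}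
    (hi0 : i0 < n) (hcr : Cr lf Dd (line i0).1 (line i0).2) {x y : V} {g : ℕ} (hP : P x y g)
    (hg : g < Dd) : ∃ j < n, (line j = (x, y) ∨ line j = (y, x)) ∧ Op lf line j g (lf x) ∧
      ¬ Op lf line j (g + 1) (lf x) := by
  classical
  have hl := hD.P_lt x y g hP hg
  have h0 : Op lf line i0 Dd (lf x) := ⟨i0, le_rfl, hcr, by
    rw [Nat.div_eq_of_lt (hD.lf_lt _), Nat.div_eq_of_lt (hD.lf_lt _)]⟩
  have h1 : Op lf line i0 (g + 1) (lf x) := hD.op_down hJ hi0 hl le_rfl hg h0
  have hex : ∃ i, Op lf line i (g + 1) (lf x) := ⟨i0, h1⟩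
  have h2 := Nat.find_spec hex
  have h3 : Nat.find hex ≤ i0 := Nat.find_min' hex h1
  obtain ⟨j, hj, hcr', hb⟩ := h2
  have hjn : j < n := by omega
  have hjf : Nat.find hex = j := by
    refine le_antisymm (Nat.find_min' hex ⟨j, le_rfl, hcr', hb⟩) hj
  have hav := hD.order hJ j hjn (g + 1) hcr' g (by omega) x y hP hb.symm
  rcases hav with h | ⟨k, hk, h⟩
  · exact absurd h (hD.ne hP)
  · have h4 := hD.P_cr _ _ _ hP
    refine ⟨k, by omega, h, ?_, Nat.find_min hex (by omega)⟩
    rcases h with h | h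
    · exact ⟨k, le_rfl, by rw [h]; exact h4, by rw [h]⟩
    · exact ⟨k, le_rfl, by rw [h]; exact h4.symm, by rw [h]; exact h4.1.symm⟩

theorem Data.touch_pair (hD : Data G E lf Dd P) (hJ : ∀ i < n, Just G E line i (mid i)) {i0 : ℕ}
    (hi0 : i0 < n) (hcr : Cr lf Dd (line i0).1 (line i0).2) {x y : V} {g : ℕ} (hP : P x y g)
    (hg : g < Dd) : Tw lf line mid n x g ∧ Tw lf line mid n y g := by
  obtain ⟨j, hj, h1, h2, h3⟩ := hD.pair_time hJ hi0 hcr hP hg
  have h4 := hD.P_cr _ _ _ hP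
  refine ⟨⟨j, hj, ?_, h2, h3⟩, ⟨j, hj, ?_, h2.congr h4.1, fun h => h3 (h.congr ?_)⟩⟩
  · rcases h1 with h | h
    · exact Or.inl (by rw [h])
    · exact Or.inr (Or.inl (by rw [h]))
  · rcases h1 with h | h
    · exact Or.inr (Or.inl (by rw [h]))
    · exact Or.inl (by rw [h])
  · exact div_eq_of_le (by omega) h4.1.symm

theorem discrete {p : ℕ → Prop} {a b : ℕ} (hab : a < b) (ha : p a) (hb : ¬ p b) :
    ∃ c, a ≤ c ∧ c < b ∧ p c ∧ ¬ p (c + 1) := by
  classical
  by_contra h
  push Not at h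
  have : ∀ d, a + d ≤ b → p (a + d) := by
    intro d
    induction d with
    | zero => intro _; exact ha
    | succ d ih => intro hd; exact h (a + d) (by omega) (by omega) (ih (by omega))
  exact hb (by have := this (b - a) (by omega); rwa [show a + (b - a) = b by omega] at this)

/-- the escape property -/
theorem Data.escape (hD : Data G E lf Dd P) (hJ : ∀ i < n, Just G E line i (mid i)) {i0 : ℕ}
    (hi0 : i0 < n) (hcr : Cr lf Dd (line i0).1 (line i0).2) {a b g : ℕ} (hab : a < b) (hbg : b ≤ g)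
    (hg : g < Dd) {x y : V} (hP : P x y g ∨ P y x g) (hx : (lf x / 2 ^ a) % 2 ^ (b - a) ≠ 0) :
    ∃ v, lf v / 2 ^ a = lf x / 2 ^ a ∧ (∃ c, a ≤ c ∧ c < b ∧ Tw lf line mid n v c) ∧
      ∃ c, b ≤ c ∧ c ≤ g ∧ Tw lf line mid n v c := by
  classical
  set l := lf x with hl
  -- the query line
  obtain ⟨jq, hjq, hq1, hq2, hq3, hlx, hxy⟩ : ∃ j < n, (line j = (x, y) ∨ line j = (y, x)) ∧
      Op lf line j g l ∧ ¬ Op lf line j (g + 1) l ∧ l < 2 ^ Dd ∧ lf x / 2 ^ a ≠ lf y / 2 ^ a := by
    rcases hP with hP | hP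
    · obtain ⟨j, h0, h1, h2, h3⟩ := hD.pair_time hJ hi0 hcr hP hg
      exact ⟨j, h0, h1, h2, h3, hD.P_lt x y g hP hg, fun h =>
        (hD.P_cr _ _ _ hP).2 (div_eq_of_le (by omega) h)⟩
    · obtain ⟨j, h0, h1, h2, h3⟩ := hD.pair_time hJ hi0 hcr hP hg
      have h4 := hD.P_cr _ _ _ hP
      refine ⟨j, h0, h1.symm, h2.congr h4.1, fun h => h3 (h.congr
        (div_eq_of_le (by omega) h4.1.symm)), ?_, fun h => h4.2 (div_eq_of_le (by omega) h.symm)⟩
      have h5 := hD.P_lt y x g hP hg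
      by_contra h6
      have h7 : lf y / 2 ^ Dd = lf x / 2 ^ Dd := div_eq_of_le (by omega) h4.1
      rw [Nat.div_eq_of_lt h5] at h7
      have h8 : 0 < l / 2 ^ Dd := Nat.div_pos (not_lt.mp h6) (by positivity)
      exact absurd h7 h8.ne
  set I : V → Prop := fun v => lf v / 2 ^ a = l / 2 ^ a with hI
  set Lv : ℕ → Prop := fun i => ∃ u v, (line i = (u, v) ∨ line i = (v, u)) ∧ I u ∧ ¬ I v with hLv
  have hLq : Lv jq := ⟨x, y, hq1, rfl, fun h => hxy h.symm⟩
  have hOb : Op lf line jq b l := hD.op_down hJ hjq hlx (by omega) hbg hq2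
  have hex : ∃ i, Op lf line i b l ∧ Lv i := ⟨jq, hOb, hLq⟩
  obtain ⟨hOi, u, v, huv, hIu, hIv⟩ := Nat.find_spec hex
  have hile : Nat.find hex ≤ jq := Nat.find_min' hex ⟨hOb, hLq⟩
  have hmin : ∀ j < Nat.find hex, Lv j → ¬ Op lf line j b l := fun j hj h1 h2 =>
    Nat.find_min hex hj ⟨h2, h1⟩
  set i := Nat.find hex with hi
  have hin : i < n := by omega
  -- inner positions
  have hinner : ∀ j < n, Lv j → Op lf line j a l := by
    rintro j hj ⟨w, w', hw, h1, h2⟩
    obtain ⟨c, hc1, hc2, hc3⟩ := exists_cr (lf := lf) (c := a) (N := Dd + 1) (u := w) (v := w')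
      (fun h => h2 (h.symm.trans h1))
      (by rw [Nat.div_eq_of_lt (hD.lf_lt w), Nat.div_eq_of_lt (hD.lf_lt w')])
    refine hD.op_down hJ hj hlx (by omega : c ≤ Dd) hc1 ?_
    have h3 : lf w / 2 ^ (c + 1) = l / 2 ^ (c + 1) := div_eq_of_le (by omega) h1
    rcases hw with hw | hw
    · exact ⟨j, le_rfl, by rw [hw]; exact hc3, by rw [hw]; exact h3⟩
    · exact ⟨j, le_rfl, by rw [hw]; exact hc3.symm, by rw [hw]; exact hc3.1.symm.trans h3⟩
  -- the vertex
  obtain ⟨z, hz, hzi, j, hj, hzj, hLj, hOj⟩ : ∃ z, I z ∧ Tc line mid z i ∧ ∃ j < n,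
      Tc line mid z j ∧ Lv j ∧ ¬ Op lf line j b l := by
    have htc : ∀ {w w' : V} {k : ℕ}, (line k = (w, w') ∨ line k = (w', w)) →
        Tc line mid w k := by
      rintro w w' k (h | h)
      · exact Or.inl (by rw [h])
      · exact Or.inr (Or.inl (by rw [h]))
    rcases hJ i hin with hE | hT | hcg
    · have h1 := hD.E_leaf _ hE
      exfalso
      rcases huv with h | h
      · rw [h] at h1
        exact hIv (by change lf v / _ = _; rw [← h1]; exact hIu)
      · rw [h] at h1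
        exact hIv (by change lf v / _ = _; rw [h1]; exact hIu)
    · obtain ⟨h1, h2⟩ : Av line i u (mid i) ∧ Av line i (mid i) v := by
        rcases huv with h | h
        · rw [h] at hT; exact hT
        · rw [h] at hT; exact ⟨hT.2.symm, hT.1.symm⟩
      by_cases hm : I (mid i)
      · rcases h2 with h | ⟨j, hj, h⟩
        · exact absurd (h ▸ hm) hIv
        · have hLj : Lv j := ⟨_, _, h, hm, hIv⟩
          exact ⟨mid i, hm, Or.inr (Or.inr rfl), j, by omega, htc h, hLj, hmin j hj hLj⟩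
      · rcases h1 with h | ⟨j, hj, h⟩
        · exact absurd (h ▸ hIu) hm
        · have hLj : Lv j := ⟨_, _, h, hIu, hm⟩
          exact ⟨u, hIu, htc huv, j, by omega, htc h, hLj, hmin j hj hLj⟩
    · obtain ⟨c, hPc, hu0, hv0⟩ : ∃ c, (P u v c ∨ P v u c) ∧ lf u % 2 ^ c = 0 ∧
          lf v % 2 ^ c = 0 := by
        have hne : lf (line i).1 ≠ lf (line i).2 := by
          intro h0
          rcases huv with h | h
          · rw [h] at h0
            exact hIv (by change lf v / _ = _; rw [← show lf u = lf v from h0]; exact hIu)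
          · rw [h] at h0
            exact hIv (by change lf v / _ = _; rw [show lf v = lf u from h0]; exact hIu)
        obtain ⟨c, h1, h2, h3, -⟩ := hD.gen _ _ hcg.1 hne
        rcases huv with h | h
        · rw [h] at h1 h2 h3; exact ⟨c, h1, h2, h3⟩
        · rw [h] at h1 h2 h3; exact ⟨c, h1.symm, h3, h2⟩
      have hCr : Cr lf c u v := by
        rcases hPc with h | h
        · exact hD.P_cr _ _ _ h
        · exact (hD.P_cr _ _ _ h).symm
      have hac : a ≤ c := by
        by_contra h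
        exact hIv ((div_eq_of_le (by omega : c + 1 ≤ a) hCr.1.symm).trans hIu)
      have hcb : c < b := by
        by_contra h
        apply hx
        rw [← show lf u / 2 ^ a = l / 2 ^ a from hIu]
        obtain ⟨k, hk⟩ := Nat.dvd_of_mod_eq_zero hu0
        rw [hk, show 2 ^ c * k = 2 ^ a * (2 ^ (b - a) * (2 ^ (c - b) * k)) by
          rw [← mul_assoc, ← mul_assoc, ← pow_add, ← pow_add]
          congr 2
          omega,
          Nat.mul_div_cancel_left _ (by positivity), Nat.mul_mod_right]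
      -- the first line crossing `b`
      have hex2 : ∃ i, Op lf line i b l := ⟨i, hOi⟩
      obtain ⟨j1, hj1, hcr1, hb1⟩ := Nat.find_spec hex2
      have hf1 : Nat.find hex2 ≤ i := Nat.find_min' hex2 hOi
      have hf2 : Nat.find hex2 = j1 :=
        le_antisymm (Nat.find_min' hex2 ⟨j1, le_rfl, hcr1, hb1⟩) hj1
      have hublock : lf u / 2 ^ (b + 1) = l / 2 ^ (b + 1) := div_eq_of_le (by omega) hIu
      have hvblock : lf v / 2 ^ (b + 1) = l / 2 ^ (b + 1) :=
        (div_eq_of_le (by omega : c + 1 ≤ b + 1) hCr.1.symm).trans hublock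
      have hav : Av line j1 u v := by
        rcases hPc with h | h
        · exact hD.order hJ j1 (by omega) b hcr1 c hcb u v h (hublock.trans hb1.symm)
        · exact (hD.order hJ j1 (by omega) b hcr1 c hcb v u h (hvblock.trans hb1.symm)).symm
      rcases hav with h | ⟨j, hj, h⟩
      · exact absurd (h ▸ hIu) hIv
      · exact ⟨u, hIu, htc huv, j, by omega, htc h, ⟨u, v, h, hIu, hIv⟩,
          Nat.find_min hex2 (by omega)⟩
  have hOja := hinner j hj hLj
  have hOig : ¬ Op lf line i (g + 1) l := fun h => hq3 (h.mono hile)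
  have hbl : ∀ c, a ≤ c → lf z / 2 ^ c = l / 2 ^ c := fun c hc => div_eq_of_le hc hz
  obtain ⟨c1, c11, c12, c13, c14⟩ := discrete (p := fun c => Op lf line j c l) hab hOja hOj
  obtain ⟨c2, c21, c22, c23, c24⟩ := discrete (p := fun c => Op lf line i c l)
    (by omega : b < g + 1) hOi hOig
  refine ⟨z, hz, ⟨c1, c11, c12, j, hj, hzj, c13.congr (hbl _ (by omega)).symm, fun h => c14
    (h.congr (hbl _ (by omega)))⟩, ⟨c2, c21, by omega, i, hin, hzi,
      c23.congr (hbl _ (by omega)).symm, fun h => c24 (h.congr (hbl _ (by omega)))⟩⟩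

open Classical in
theorem Data.sum_le [Fintype V] (hD : Data G E lf Dd P) (hJ : ∀ i < n, Just G E line i (mid i))
    (D : ℕ) (hDD : D ≤ Dd) :
    ∑ v ∈ {v : V | lf v < 2 ^ Dd}, cnt (fun v h => Tw lf line mid n v (h - 1)) D v ≤ 3 * n := by
  have h1 : ∀ v ∈ ({v : V | lf v < 2 ^ Dd} : Finset V),
      cnt (fun v h => Tw lf line mid n v (h - 1)) D v ≤
        #{i ∈ range n | Tc line mid v i} := by
    intro v hv
    have hl : lf v < 2 ^ Dd := (mem_filter.mp hv).2
    unfold cnt
    have hex : ∀ h ∈ {h ∈ Icc 1 D | Tw lf line mid n v (h - 1)}, ∃ i < n, Tc line mid v i ∧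
        Op lf line i (h - 1) (lf v) ∧ ¬ Op lf line i (h - 1 + 1) (lf v) :=
      fun h hh => (mem_filter.mp hh).2
    choose! f hf1 hf2 hf3 hf4 using hex
    refine card_le_card_of_injOn f (fun h hh => ?_) ?_
    · have hh' := mem_coe.mp hh
      rw [mem_coe, mem_filter, mem_range]
      exact ⟨hf1 h hh', hf2 h hh'⟩
    · intro h hh h' hh' he
      have g1 := mem_coe.mp hh
      have g2 := mem_coe.mp hh'
      have b1 := (mem_Icc.mp (mem_filter.mp g1).1)
      have b2 := (mem_Icc.mp (mem_filter.mp g2).1)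
      by_contra hne
      rcases Nat.lt_or_gt_of_ne hne with h3 | h3
      · apply hf4 h g1
        rw [he]
        exact hD.op_down hJ (hf1 h' g2) hl (by omega) (by omega) (hf3 h' g2)
      · apply hf4 h' g2
        rw [← he]
        exact hD.op_down hJ (hf1 h g1) hl (by omega) (by omega) (hf3 h g1)
  refine (sum_le_sum h1).trans ?_
  have h2 : ∑ v ∈ {v : V | lf v < 2 ^ Dd}, #{i ∈ range n | Tc line mid v i} =
      ∑ i ∈ range n, #{v ∈ {v : V | lf v < 2 ^ Dd} | Tc line mid v i} := by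
    simp only [card_filter]
    rw [sum_comm]
  rw [h2]
  calc ∑ i ∈ range n, #{v ∈ {v : V | lf v < 2 ^ Dd} | Tc line mid v i}
      ≤ ∑ i ∈ range n, 3 := by
        refine sum_le_sum fun i _ => ?_
        refine (card_le_card (t := {(line i).1, (line i).2, mid i}) ?_).trans card_le_three
        intro v hv
        have := (mem_filter.mp hv).2
        simp only [mem_insert, mem_singleton]
        exact this
    _ = 3 * n := by rw [sum_const, card_range, smul_eq_mul, mul_comm]

/-- **The lower bound**, abstract form. -/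
theorem Data.lower [Fintype V] (hD : Data G E lf Dd P) (hJ : ∀ i < n, Just G E line i (mid i))
    {i0 : ℕ} (hi0 : i0 < n) (hcr : Cr lf Dd (line i0).1 (line i0).2) {k s : ℕ}
    (hk : Dp k s ≤ Dd) {mk : ℕ → ℕ → V} (hmk : ∀ l < 2 ^ Dd, ∀ i < s, lf (mk l i) = l)
    (hinj : ∀ l < 2 ^ Dd, ∀ i < s, ∀ i' < s, mk l i = mk l i' → i = i')
    (hP : ∀ l < 2 ^ Dd, ∀ i < s, ∃ y, P (mk l i) y (qh k s (l % 2 ^ Dp k s) i - 1) ∨
      P y (mk l i) (qh k s (l % 2 ^ Dp k s) i - 1)) :
    k * s * 2 ^ Dd ≤ 6 * n := by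
  classical
  set D := Dp k s with hDdef
  set t : V → ℕ → Prop := fun v h => Tw lf line mid n v (h - 1) with ht
  set Q : V → ℕ → Prop := fun x h => ∃ y, P x y (h - 1) ∨ P y x (h - 1) with hQ
  have hpos : 0 < 2 ^ D := by positivity
  have hsplit : 2 ^ Dd = 2 ^ (Dd - D) * 2 ^ D := by
    rw [← pow_add]; congr 1; omega
  have hlt : ∀ c < 2 ^ (Dd - D), ∀ l < 2 ^ D, c * 2 ^ D + l < 2 ^ Dd := by
    intro c hc l hl
    calc c * 2 ^ D + l < c * 2 ^ D + 2 ^ D := by omega
      _ = (c + 1) * 2 ^ D := by ring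
      _ ≤ 2 ^ (Dd - D) * 2 ^ D := Nat.mul_le_mul_right _ hc
      _ = 2 ^ Dd := hsplit.symm
  have hmod : ∀ c, ∀ l < 2 ^ D, (c * 2 ^ D + l) % 2 ^ D = l := by
    intro c l hl
    rw [Nat.add_comm, Nat.add_mul_mod_self_right, Nat.mod_eq_of_lt hl]
  have hdiv : ∀ c, ∀ l < 2 ^ D, (c * 2 ^ D + l) / 2 ^ D = c := by
    intro c l hl
    rw [Nat.add_comm, Nat.add_mul_div_right _ _ hpos, Nat.div_eq_of_lt hl, zero_add]
  have hsys : ∀ c < 2 ^ (Dd - D), Sys {v : V | lf v / 2 ^ D = c} (fun v => lf v % 2 ^ D) t Q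
      (fun l i => mk (c * 2 ^ D + l) i) D s (qh k s) := by
    intro c hc
    refine ⟨fun v _ => Nat.mod_lt _ hpos, fun l hl i hi => ?_, fun l hl i hi => ?_,
      fun l hl i hi i' hi' => ?_, fun l hl i hi => ?_, fun v hv g h1 h2 h3 => ?_, ?_⟩
    · rw [mem_filter]
      exact ⟨mem_univ _, by rw [hmk _ (hlt c hc l hl) i hi, hdiv c l hl]⟩
    · rw [hmk _ (hlt c hc l hl) i hi, hmod c l hl]
    · exact hinj _ (hlt c hc l hl) i hi i' hi'
    · have := hP _ (hlt c hc l hl) i hi
      rw [hmod c l hl] at this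
      exact this
    · obtain ⟨y, h4 | h4⟩ := h3
      · exact (hD.touch_pair hJ hi0 hcr h4 (by omega)).1
      · exact (hD.touch_pair hJ hi0 hcr h4 (by omega)).2
    · intro a b g hab hbg hg x hx hne hq
      have hxc := (mem_filter.mp hx).2
      have e1 : ∀ y : V, (lf y % 2 ^ D) / 2 ^ a = (lf y / 2 ^ a) % 2 ^ (D - a) := by
        intro y
        rw [show 2 ^ D = 2 ^ a * 2 ^ (D - a) by rw [← pow_add]; congr 1; omega,
          Nat.mod_mul_right_div_self]
      obtain ⟨y, hy⟩ := hq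
      obtain ⟨v, h1, ⟨c1, c11, c12, c13⟩, c2, c21, c22, c23⟩ := hD.escape hJ hi0 hcr hab
        (by omega : b ≤ g - 1) (by omega) hy (by
          intro h0
          apply hne
          rw [e1, Nat.mod_mod_of_dvd _ (pow_dvd_pow 2 (by omega))]
          exact h0)
      refine ⟨v, mem_filter.mpr ⟨mem_univ _, ?_⟩, ?_, ⟨c1 + 1, by omega, by omega, c13⟩,
        ⟨c2 + 1, by omega, by omega, c23⟩⟩
      · rw [div_eq_of_le (by omega : a ≤ D) h1, hxc]
      · change (lf v % 2 ^ D) / 2 ^ a = (lf x % 2 ^ D) / 2 ^ a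
        rw [e1, e1, h1]
  have h1 : ∀ c ∈ range (2 ^ (Dd - D)), k * s * 2 ^ D ≤
      2 * ∑ v ∈ {v ∈ {v : V | lf v < 2 ^ Dd} | lf v / 2 ^ D = c}, cnt t D v := by
    intro c hc
    refine (Nat.le_add_right _ _).trans ((count k s _ _ _ _ _ (hsys c (mem_range.mp hc))).trans
      (Nat.mul_le_mul_left 2 (le_of_eq (sum_congr ?_ fun _ _ => rfl))))
    ext v
    simp only [mem_filter, mem_univ, true_and]
    constructor
    · intro h
      refine ⟨?_, h⟩
      have := Nat.lt_mul_div_succ (lf v) hpos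
      rw [h] at this
      refine this.trans_le ?_
      rw [hsplit, mul_comm]
      exact Nat.mul_le_mul_right _ (mem_range.mp hc)
    · exact fun h => h.2
  have h2 := sum_le_sum h1
  rw [sum_const, card_range, smul_eq_mul, ← mul_sum, sum_fiberwise_of_maps_to] at h2
  · have h3 := hD.sum_le hJ D hk
    calc k * s * 2 ^ Dd = 2 ^ (Dd - D) * (k * s * 2 ^ D) := by rw [hsplit]; ring
      _ ≤ _ := h2
      _ ≤ 2 * (3 * n) := Nat.mul_le_mul_left 2 h3
      _ = 6 * n := by ring
  · intro v hv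
    rw [mem_range, Nat.div_lt_iff_lt_mul hpos, ← hsplit]
    exact (mem_filter.mp hv).2

end

end Pool.Agent.EQ
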